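import Mathlib

open Filter Topology Set

namespace Pool.Agent.MPd42a57

/-- The defining property of the constant `k`. -/
structure KHyp (k : ℝ) : Prop where
  lo : 99/46 < k
  hi : k < 127/59
  eq : k ^ ((2*k+1)/(k+1)) = k^2 - 1

theorem exists_k : ∃ k, KHyp k := by
  have hcont : ContinuousOn (fun k : ℝ => (k^2 - 1) - k ^ ((2*k+1)/(k+1))) (Icc (99/46 : ℝ) (127/59)) := by
    apply ContinuousOn.sub (by fun_prop)
    apply ContinuousOn.rpow continuousOn_id
    · apply ContinuousOn.div (by fun_prop) (by fun_prop)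
      intro x hx
      have := hx.1
      have : (0:ℝ) < x + 1 := by linarith
      exact this.ne'
    · intro x hx
      left
      have := hx.1
      have : (0:ℝ) < x := by linarith
      exact this.ne'
  have h1 : (99/46 : ℝ)^2 - 1 < (99/46 : ℝ) ^ ((2*(99/46 : ℝ)+1)/((99/46)+1)) := by
    have e : (2*(99/46 : ℝ)+1)/((99/46)+1) = 244/145 := by norm_num
    rw [e]
    have hp : ((99/46 : ℝ) ^ (244/145 : ℝ))^145 = (99/46 : ℝ)^244 := by
      rw [← Real.rpow_natCast ((99/46 : ℝ) ^ (244/145 : ℝ)) 145, ← Real.rpow_mul (by norm_num)]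
      norm_num
    apply lt_of_pow_lt_pow_left₀ 145 (by positivity)
    rw [hp]
    norm_num
  have h2 : (127/59 : ℝ) ^ ((2*(127/59 : ℝ)+1)/((127/59)+1)) < (127/59 : ℝ)^2 - 1 := by
    have e : (2*(127/59 : ℝ)+1)/((127/59)+1) = 313/186 := by norm_num
    rw [e]
    have hp : ((127/59 : ℝ) ^ (313/186 : ℝ))^186 = (127/59 : ℝ)^313 := by
      rw [← Real.rpow_natCast ((127/59 : ℝ) ^ (313/186 : ℝ)) 186, ← Real.rpow_mul (by norm_num)]
      norm_num
    apply lt_of_pow_lt_pow_left₀ 186 (by norm_num)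
    rw [hp, show (313:ℕ) = 186 + 127 from rfl, pow_add]
    norm_num
  have := intermediate_value_Ioo (by norm_num) hcont (show (0:ℝ) ∈ Ioo _ _ from ⟨by linarith, by linarith⟩)
  obtain ⟨k, hk, hk0⟩ := this
  exact ⟨k, hk.1, hk.2, by simp only at hk0; linarith⟩

section K

variable {k : ℝ}

/-- The exponent `s = k/(k+1)`. -/
noncomputable def ss (k : ℝ) : ℝ := k / (k+1)

lemma KHyp.pos (h : KHyp k) : 0 < k := by linarith [h.lo]

lemma ss_bounds (h : KHyp k) : 99/145 < ss k ∧ ss k < 127/186 := by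
  have h1 := h.lo
  have h2 := h.hi
  have h3 : 0 < k + 1 := by linarith
  unfold ss
  constructor
  · rw [lt_div_iff₀ h3]; linarith
  · rw [div_lt_iff₀ h3]; linarith

lemma one_sub_ss (h : KHyp k) : (1 - ss k) * (k+1) = 1 := by
  have h3 : k + 1 ≠ 0 := by have := h.pos; positivity
  unfold ss; field_simp; ring

lemma ss_mul (h : KHyp k) : ss k * (k+1) = k := by
  have h3 : k + 1 ≠ 0 := by have := h.pos; positivity
  unfold ss; field_simp

lemma k_one_sub (h : KHyp k) : k * (1 - ss k) = ss k := by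
  have h3 : k + 1 ≠ 0 := by have := h.pos; positivity
  unfold ss; field_simp; ring

lemma k_rpow_one_add (h : KHyp k) : k ^ (1 + ss k) = k^2 - 1 := by
  have h3 : k + 1 ≠ 0 := by have := h.pos; positivity
  rw [← h.eq]
  congr 1
  unfold ss; field_simp; ring

lemma k_sq_gt (h : KHyp k) : 0 < k^2 - 1 := by nlinarith [h.lo]

lemma k_rpow_neg (h : KHyp k) : k ^ (- ss k) = k / (k^2 - 1) := by
  have h1 : k ^ (- ss k) * k ^ (1 + ss k) = k := by
    rw [← Real.rpow_add h.pos]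
    simp
  rw [k_rpow_one_add h] at h1
  rw [eq_div_iff (k_sq_gt h).ne']
  exact h1

lemma k_rpow_one_sub (h : KHyp k) : k ^ (1 - ss k) = k^2 / (k^2 - 1) := by
  rw [show 1 - ss k = 1 + (- ss k) by ring, Real.rpow_add h.pos, Real.rpow_one, k_rpow_neg h]
  ring

lemma k_key (h : KHyp k) : k * (k ^ (1 - ss k) - 1) = k ^ (- ss k) := by
  rw [k_rpow_one_sub h, k_rpow_neg h]
  have := (k_sq_gt h).ne'
  field_simp
  ring

lemma psi_mono (h : KHyp k) {r1 r2 : ℝ} (h1 : 0 < r1) (h2 : r1 < r2) :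
    k * (r1 ^ (1 - ss k) - 1) - r1 ^ (- ss k) < k * (r2 ^ (1 - ss k) - 1) - r2 ^ (- ss k) := by
  have hb := ss_bounds h
  have e1 : r1 ^ (1 - ss k) < r2 ^ (1 - ss k) := Real.rpow_lt_rpow h1.le h2 (by linarith)
  have e2 : r2 ^ (- ss k) < r1 ^ (- ss k) := Real.rpow_lt_rpow_of_neg h1 h2 (by linarith)
  have := h.pos
  nlinarith

lemma le_k_of (h : KHyp k) {r : ℝ} (hle : k * (r ^ (1 - ss k) - 1) ≤ r ^ (- ss k)) : r ≤ k := by
  by_contra hc
  push Not at hc
  have := psi_mono h h.pos hc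
  rw [k_key h] at this
  linarith

lemma k_lt_of (h : KHyp k) {r : ℝ} (hr : 0 < r) (hle : r ^ (- ss k) < k * (r ^ (1 - ss k) - 1)) : k < r := by
  by_contra hc
  push Not at hc
  rcases hc.eq_or_lt with heq | hlt
  · rw [heq, k_key h] at hle
    exact lt_irrefl _ hle
  · have := psi_mono h hr hlt
    rw [k_key h] at this
    linarith

end K

section Powers

lemma rpow_neg_ge {x p : ℝ} (hx : -1 < x) (hp : 0 ≤ p) : 1 - p * x ≤ (1 + x) ^ (-p) := by
  have h1 : 1 + x ≤ Real.exp x := by linarith [Real.add_one_le_exp x]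
  have h2 : (Real.exp x) ^ (-p) ≤ (1 + x) ^ (-p) :=
    Real.rpow_le_rpow_of_nonpos (by linarith) h1 (by linarith)
  rw [← Real.exp_mul] at h2
  linarith [Real.add_one_le_exp (x * -p)]

lemma tele_neg_le {t p : ℝ} (ht : 0 < t) (hp : 0 ≤ p) : t ^ (-p) - (t+1) ^ (-p) ≤ p * t ^ (-p - 1) := by
  have h1 : (t+1) ^ (-p) = t ^ (-p) * (1 + 1/t) ^ (-p) := by
    rw [← Real.mul_rpow ht.le (by positivity)]
    congr 1; field_simp
  have h2 := rpow_neg_ge (x := 1/t) (p := p) (by have : 0 < 1/t := by positivity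
                                                 linarith) hp
  have h3 : 0 < t ^ (-p) := Real.rpow_pos_of_pos ht _
  have h4 : t ^ (-p - 1) = t ^ (-p) / t := by rw [Real.rpow_sub_one ht.ne']
  rw [h1, h4]
  have h5 := mul_le_mul_of_nonneg_left h2 h3.le
  have h6 : t ^ (-p) * (1 - p * (1/t)) = t ^ (-p) - p * (t ^ (-p) / t) := by field_simp
  linarith

lemma tele_neg_ge {t p : ℝ} (ht : 0 < t) (hp : 0 ≤ p) : p * (t+1) ^ (-p - 1) ≤ t ^ (-p) - (t+1) ^ (-p) := by
  have ht1 : 0 < t + 1 := by linarith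
  have h1 : t ^ (-p) = (t+1) ^ (-p) * (1 + (-(1/(t+1)))) ^ (-p) := by
    have : 0 ≤ 1 + (-(1/(t+1))) := by
      have : 1/(t+1) ≤ 1 := by rw [div_le_one ht1]; linarith
      linarith
    rw [← Real.mul_rpow ht1.le this]
    congr 1; field_simp; ring
  have h2 := rpow_neg_ge (x := -(1/(t+1))) (p := p) (by
    have : 1/(t+1) < 1 := by rw [div_lt_one ht1]; linarith
    linarith) hp
  have h3 : 0 < (t+1) ^ (-p) := Real.rpow_pos_of_pos ht1 _
  have h4 : (t+1) ^ (-p - 1) = (t+1) ^ (-p) / (t+1) := by rw [Real.rpow_sub_one ht1.ne']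
  rw [h1, h4]
  have h5 := mul_le_mul_of_nonneg_left h2 h3.le
  have h6 : (t+1) ^ (-p) * (1 - p * (-(1/(t+1)))) = (t+1) ^ (-p) + p * ((t+1) ^ (-p) / (t+1)) := by
    field_simp; ring
  linarith

lemma tele_pos_le {t p : ℝ} (ht : 0 < t) (hp : 0 ≤ p) (hp1 : p ≤ 1) : (t+1) ^ p - t ^ p ≤ p * t ^ (p - 1) := by
  have h1 : (t+1) ^ p = t ^ p * (1 + 1/t) ^ p := by
    rw [← Real.mul_rpow ht.le (by positivity)]
    congr 1; field_simp
  have hge : -1 ≤ 1/t := by
    have : 0 < 1/t := by positivity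
    linarith
  have h2 := rpow_one_add_le_one_add_mul_self (s := 1/t) hge hp hp1
  have h3 : 0 < t ^ p := Real.rpow_pos_of_pos ht _
  have h4 : t ^ (p - 1) = t ^ p / t := by rw [Real.rpow_sub_one ht.ne']
  rw [h1, h4]
  have h5 := mul_le_mul_of_nonneg_left h2 h3.le
  have h6 : t ^ p * (1 + p * (1/t)) = t ^ p + p * (t ^ p / t) := by field_simp
  linarith

lemma tele_pos_ge {t p : ℝ} (ht : 0 ≤ t) (hp : 0 ≤ p) (hp1 : p ≤ 1) :
    p * (t+1) ^ (p - 1) ≤ (t+1) ^ p - t ^ p := by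
  have ht1 : 0 < t + 1 := by linarith
  have hge : -1 ≤ -(1/(t+1)) := by
    have : 1/(t+1) ≤ 1 := by rw [div_le_one ht1]; linarith
    linarith
  have h1 : t ^ p = (t+1) ^ p * (1 + (-(1/(t+1)))) ^ p := by
    rw [← Real.mul_rpow ht1.le (by linarith)]
    congr 1; field_simp; ring
  have h2 := rpow_one_add_le_one_add_mul_self (s := -(1/(t+1))) hge hp hp1
  have h3 : 0 < (t+1) ^ p := Real.rpow_pos_of_pos ht1 _
  have h4 : (t+1) ^ (p - 1) = (t+1) ^ p / (t+1) := by rw [Real.rpow_sub_one ht1.ne']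
  rw [h1, h4]
  have h5 := mul_le_mul_of_nonneg_left h2 h3.le
  have h6 : (t+1) ^ p * (1 + p * (-(1/(t+1)))) = (t+1) ^ p - p * ((t+1) ^ p / (t+1)) := by
    field_simp; ring
  linarith

end Powers

end Pool.Agent.MPd42a57
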