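import Pool.Agent.MPd42a57.Scheme
import Pool.Agent.MPd42a57.Const

open Filter Topology Set

namespace Pool.Agent.MPd42a57.Exact

section Asymp

variable {k : ℝ}

/-- The sequence `y`. -/
noncomputable def yy (k : ℝ) (n0 : ℕ) (j : ℕ) : ℝ := ((n0:ℝ) + 1 + j) ^ (-(ss k))

variable {n0 : ℕ}

lemma tpos (n0 j : ℕ) : (0:ℝ) < (n0:ℝ) + 1 + j := by positivity

lemma cast_s (n0 j : ℕ) : ((n0:ℝ) + 1 + ((j+1 : ℕ) : ℝ)) = ((n0:ℝ) + 1 + j) + 1 := by push_cast; ring

lemma yy_pos (j : ℕ) : 0 < yy k n0 j := Real.rpow_pos_of_pos (tpos n0 j) _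

lemma yy_anti (h : KHyp k) (j : ℕ) : yy k n0 (j+1) < yy k n0 j := by
  unfold yy
  apply Real.rpow_lt_rpow_of_neg (tpos n0 j)
  · rw [cast_s]; linarith
  · linarith [(ss_bounds h).1]

lemma BB_ge (h : KHyp k) {i j : ℕ} (hij : i ≤ j) :
    (k+1) * (((n0:ℝ)+1+j)^(1 - ss k) - ((n0:ℝ)+1+i)^(1 - ss k)) ≤ BB (yy k n0) j - BB (yy k n0) i := by
  have hb := ss_bounds h
  induction j, hij using Nat.le_induction with
  | base => simp
  | succ n hn ih =>
    rw [BB_succ, cast_s]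
    have h1 := tele_pos_le (t := (n0:ℝ)+1+n) (p := 1 - ss k) (tpos n0 n) (by linarith) (by linarith)
    have h2 : (1:ℝ) - ss k - 1 = - ss k := by ring
    rw [h2] at h1
    have h3 := mul_le_mul_of_nonneg_left h1 (show 0 ≤ k + 1 by linarith [h.pos])
    have h4 : (k+1) * ((1 - ss k) * ((n0:ℝ)+1+n)^(-ss k)) = yy k n0 n := by
      rw [← mul_assoc, mul_comm (k+1), one_sub_ss h, one_mul]; rfl
    rw [h4] at h3
    linarith

lemma BB_le (h : KHyp k) {i j : ℕ} (hij : i ≤ j) :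
    BB (yy k n0) j - BB (yy k n0) i ≤ (k+1) * (((n0:ℝ)+j)^(1 - ss k) - ((n0:ℝ)+i)^(1 - ss k)) := by
  have hb := ss_bounds h
  induction j, hij using Nat.le_induction with
  | base => simp
  | succ n hn ih =>
    rw [BB_succ]
    have h1 := tele_pos_ge (t := (n0:ℝ)+n) (p := 1 - ss k) (by positivity) (by linarith) (by linarith)
    have h2 : (1:ℝ) - ss k - 1 = - ss k := by ring
    rw [h2] at h1
    have h3 := mul_le_mul_of_nonneg_left h1 (show 0 ≤ k + 1 by linarith [h.pos])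
    have h4 : (k+1) * ((1 - ss k) * ((n0:ℝ)+n+1)^(-ss k)) = yy k n0 n := by
      rw [← mul_assoc, mul_comm (k+1), one_sub_ss h, one_mul]
      unfold yy; congr 1; ring
    rw [h4] at h3
    have e : ((n0:ℝ) + ((n+1 : ℕ) : ℝ)) = (n0:ℝ) + n + 1 := by push_cast; ring
    rw [e]
    linarith

lemma yy_hyp (h : KHyp k) (n0 : ℕ) : YHyp (yy k n0) where
  pos := fun j => yy_pos j
  anti := fun j => yy_anti h j
  conc := by
    intro j
    have hb := ss_bounds h
    have e : ∀ i : ℕ, (yy k n0 i)⁻¹ = ((n0:ℝ)+1+i)^(ss k) := by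
      intro i; unfold yy; rw [Real.rpow_neg (tpos n0 i).le, inv_inv]
    rw [e, e, e]
    have e2 : ((n0:ℝ) + 1 + ((j+2 : ℕ) : ℝ)) = ((n0:ℝ) + 1 + j) + 1 + 1 := by push_cast; ring
    rw [e2, cast_s]
    have h1 := tele_pos_le (t := (n0:ℝ)+1+j+1) (p := ss k) (by have := tpos n0 j; linarith) (by linarith) (by linarith)
    have h2 := tele_pos_ge (t := (n0:ℝ)+1+j) (p := ss k) (tpos n0 j).le (by linarith) (by linarith)
    linarith
  div := by
    intro B
    have hb := ss_bounds h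
    have hk := h.pos
    have hlim : Tendsto (fun n : ℕ => ((n0:ℝ)+1+n)^(1 - ss k)) atTop atTop := by
      apply (tendsto_rpow_atTop (show 0 < 1 - ss k by linarith)).comp
      exact tendsto_atTop_add_const_left _ _ tendsto_natCast_atTop_atTop
    obtain ⟨n, hn⟩ := (hlim.eventually_gt_atTop (B + ((n0:ℝ)+1+(0:ℕ))^(1 - ss k))).exists
    obtain ⟨n, hn⟩ := (hlim.eventually_gt_atTop (|B| + ((n0:ℝ)+1+(0:ℕ))^(1 - ss k))).exists
    refine ⟨n, ?_⟩
    have h1 := BB_ge (n0 := n0) h (Nat.zero_le n)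
    have h2 : BB (yy k n0) 0 = 0 := by simp [BB]
    rw [h2, sub_zero] at h1
    have h3 : |B| < ((n0:ℝ)+1+n)^(1 - ss k) - ((n0:ℝ)+1+(0:ℕ))^(1 - ss k) := by linarith
    have h4 : B ≤ |B| := le_abs_self B
    have h5 := abs_nonneg B
    have h6 : ∑ j ∈ Finset.range n, yy k n0 j = BB (yy k n0) n := rfl
    rw [h6]
    nlinarith

lemma gr_le (h : KHyp k) (i : ℕ) : gr (yy k n0) i ≤ ss k / ((n0:ℝ)+1+i) := by
  have hb := ss_bounds h
  have ht := tpos n0 i
  unfold gr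
  rw [div_le_iff₀ (yy_pos i)]
  have h1 := tele_neg_le (t := (n0:ℝ)+1+i) (p := ss k) ht (by linarith)
  have h2 : ((n0:ℝ)+1+i)^(-ss k - 1) = ((n0:ℝ)+1+i)^(-ss k) / ((n0:ℝ)+1+i) := by
    rw [Real.rpow_sub_one ht.ne']
  unfold yy
  rw [cast_s]
  rw [h2] at h1
  have h3 : ss k / ((n0:ℝ)+1+i) * ((n0:ℝ)+1+i)^(-ss k) = ss k * (((n0:ℝ)+1+i)^(-ss k) / ((n0:ℝ)+1+i)) := by
    ring
  rw [h3]; exact h1

lemma gr_ge (h : KHyp k) (i : ℕ) : ss k / ((n0:ℝ)+1+i+1) ≤ gr (yy k n0) i := by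
  have hb := ss_bounds h
  have ht := tpos n0 i
  have ht1 : 0 < (n0:ℝ)+1+i+1 := by linarith
  unfold gr
  rw [le_div_iff₀ (yy_pos i)]
  unfold yy
  rw [cast_s]
  set t := (n0:ℝ)+1+i with hdt
  have hge : -1 ≤ -(1/(t+1)) := by
    have : 1/(t+1) ≤ 1 := by rw [div_le_one ht1]; linarith
    linarith
  have h2 := rpow_one_add_le_one_add_mul_self (s := -(1/(t+1))) hge (show 0 ≤ ss k by linarith)
    (show ss k ≤ 1 by linarith)
  have h1 : (t+1)^(-ss k) = t^(-ss k) * (1 + (-(1/(t+1))))^(ss k) := by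
    have e1 : 1 + (-(1/(t+1))) = t / (t+1) := by field_simp; ring
    rw [e1, Real.div_rpow ht.le ht1.le, Real.rpow_neg ht.le, Real.rpow_neg ht1.le]
    have := Real.rpow_pos_of_pos ht (ss k)
    field_simp
  rw [h1]
  have h3 : 0 < t^(-ss k) := Real.rpow_pos_of_pos ht _
  have h5 := mul_le_mul_of_nonneg_left h2 h3.le
  have h6 : t^(-ss k) * (1 + ss k * (-(1/(t+1)))) = t^(-ss k) - ss k / (t+1) * t^(-ss k) := by
    field_simp; ring
  linarith

/-- `τ_i > k t - 1`. -/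
lemma JJ_gt (h : KHyp k) (i : ℕ) : k * ((n0:ℝ)+1+i) - 1 < (n0:ℝ)+1+JJ (yy k n0) i := by
  have hy := yy_hyp h n0
  have h1 := JJ_spec hy i
  have hij := JJ_lt hy i
  set J := JJ (yy k n0) i with hJ
  have hb := ss_bounds h
  have ht := tpos n0 i
  have htJ := tpos n0 J
  set t := (n0:ℝ)+1+i with hdt
  have h2 := BB_le (n0 := n0) h (show i + 1 ≤ J + 1 by omega)
  have e1 : (n0:ℝ) + ((J+1 : ℕ) : ℝ) = (n0:ℝ)+1+J := by push_cast; ring
  have e2 : (n0:ℝ) + ((i+1 : ℕ) : ℝ) = t := by rw [hdt]; push_cast; ring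
  rw [e1, e2] at h2
  have h3 := gr_le (n0 := n0) h i
  rw [← hdt] at h3
  set τ := (n0:ℝ)+1+J with hdτ
  have hτt : t ≤ τ := by
    have : (i:ℝ) ≤ J := by exact_mod_cast hij.le
    rw [hdt, hdτ]; linarith
  have h4 : yy k n0 (J+1) = (τ+1)^(-ss k) := by unfold yy; rw [cast_s]
  rw [h4] at h1
  have hpow : 0 ≤ τ^(1 - ss k) - t^(1 - ss k) := by
    have := Real.rpow_le_rpow ht.le hτt (show 0 ≤ 1 - ss k by linarith)
    linarith
  have h5 : (τ+1)^(-ss k) < (k/t) * (τ^(1 - ss k) - t^(1 - ss k)) := by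
    calc (τ+1)^(-ss k) < gr (yy k n0) i * (BB (yy k n0) (J+1) - BB (yy k n0) (i+1)) := h1
      _ ≤ gr (yy k n0) i * ((k+1) * (τ^(1 - ss k) - t^(1 - ss k))) :=
          mul_le_mul_of_nonneg_left h2 (gr_pos hy i).le
      _ ≤ (ss k / t) * ((k+1) * (τ^(1 - ss k) - t^(1 - ss k))) := by
          apply mul_le_mul_of_nonneg_right h3
          apply mul_nonneg (by linarith [h.pos]) hpow
      _ = (k/t) * (τ^(1 - ss k) - t^(1 - ss k)) := by
          have := ss_mul h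
          rw [show ss k / t * ((k+1) * (τ^(1 - ss k) - t^(1 - ss k)))
            = (ss k * (k+1)) / t * (τ^(1 - ss k) - t^(1 - ss k)) by ring, this]
  have h6 : τ^(1 - ss k) ≤ (τ+1)^(1 - ss k) := Real.rpow_le_rpow htJ.le (by linarith) (by linarith)
  have hr : 0 < (τ+1)/t := by positivity
  have h7 : k < (τ+1)/t := by
    apply k_lt_of h hr
    have e3 : ((τ+1)/t)^(-ss k) = (τ+1)^(-ss k) * t^(ss k) := by
      rw [Real.div_rpow (by linarith) ht.le, Real.rpow_neg ht.le]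
      field_simp
    have e4 : ((τ+1)/t)^(1 - ss k) = (τ+1)^(1 - ss k) / t^(1 - ss k) := Real.div_rpow (by linarith) ht.le _
    rw [e3, e4]
    have hp1 := Real.rpow_pos_of_pos ht (ss k)
    have hp2 := Real.rpow_pos_of_pos ht (1 - ss k)
    have hprod : t^(ss k) * t^(1 - ss k) = t := by
      rw [← Real.rpow_add ht]; simp
    have h8 : (τ+1)^(-ss k) * t^(ss k) < (k/t) * ((τ+1)^(1 - ss k) - t^(1 - ss k)) * t^(ss k) := by
      apply mul_lt_mul_of_pos_right _ hp1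
      refine lt_of_lt_of_le h5 ?_
      apply mul_le_mul_of_nonneg_left _ (div_pos h.pos ht).le
      linarith
    refine lt_of_lt_of_eq h8 ?_
    have hts : t^(ss k) = t / t^(1 - ss k) := by
      rw [eq_div_iff hp2.ne']; exact hprod
    rw [hts]
    field_simp
  rw [lt_div_iff₀ ht] at h7
  linarith

/-- `τ_i ≤ k (t + 1)`. -/
lemma JJ_le_k (h : KHyp k) (i : ℕ) : (n0:ℝ)+1+JJ (yy k n0) i ≤ k * ((n0:ℝ)+1+i+1) := by
  have hy := yy_hyp h n0
  have hij := JJ_lt hy i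
  have h1 := JJ_le hy i hij le_rfl
  set J := JJ (yy k n0) i with hJ
  have hb := ss_bounds h
  have ht' := tpos n0 i
  have htJ := tpos n0 J
  have h2 := BB_ge (n0 := n0) h (show i + 1 ≤ J by omega)
  rw [cast_s] at h2
  have h3 := gr_ge (n0 := n0) h i
  set t := (n0:ℝ)+1+i+1 with hdt
  have ht : 0 < t := by linarith
  set τ := (n0:ℝ)+1+J with hdτ
  have hτt : t ≤ τ := by
    have : (i:ℝ) + 1 ≤ J := by exact_mod_cast hij
    rw [hdt, hdτ]; linarith
  have h4 : yy k n0 J = τ^(-ss k) := rfl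
  rw [h4] at h1
  have hpow : 0 ≤ τ^(1 - ss k) - t^(1 - ss k) := by
    have := Real.rpow_le_rpow ht.le hτt (show 0 ≤ 1 - ss k by linarith)
    linarith
  have h5 : (k/t) * (τ^(1 - ss k) - t^(1 - ss k)) ≤ τ^(-ss k) := by
    calc (k/t) * (τ^(1 - ss k) - t^(1 - ss k)) = (ss k / t) * ((k+1) * (τ^(1 - ss k) - t^(1 - ss k))) := by
          have := ss_mul h
          rw [show ss k / t * ((k+1) * (τ^(1 - ss k) - t^(1 - ss k)))
            = (ss k * (k+1)) / t * (τ^(1 - ss k) - t^(1 - ss k)) by ring, this]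
      _ ≤ gr (yy k n0) i * ((k+1) * (τ^(1 - ss k) - t^(1 - ss k))) := by
          apply mul_le_mul_of_nonneg_right h3
          apply mul_nonneg (by linarith [h.pos]) hpow
      _ ≤ gr (yy k n0) i * (BB (yy k n0) J - BB (yy k n0) (i+1)) :=
          mul_le_mul_of_nonneg_left h2 (gr_pos hy i).le
      _ ≤ _ := h1
  have h7 : τ/t ≤ k := by
    apply le_k_of h
    have e3 : (τ/t)^(-ss k) = τ^(-ss k) * t^(ss k) := by
      rw [Real.div_rpow (by linarith) ht.le, Real.rpow_neg ht.le]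
      field_simp
    have e4 : (τ/t)^(1 - ss k) = τ^(1 - ss k) / t^(1 - ss k) := Real.div_rpow (by linarith) ht.le _
    rw [e3, e4]
    have hp1 := Real.rpow_pos_of_pos ht (ss k)
    have hp2 := Real.rpow_pos_of_pos ht (1 - ss k)
    have hprod : t^(ss k) * t^(1 - ss k) = t := by
      rw [← Real.rpow_add ht]; simp
    have h8 := mul_le_mul_of_nonneg_right h5 hp1.le
    refine le_trans (le_of_eq ?_) h8
    have hts : t^(ss k) = t / t^(1 - ss k) := by
      rw [eq_div_iff hp2.ne']; exact hprod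
    rw [hts]
    field_simp
  rw [div_le_iff₀ ht] at h7
  linarith

end Asymp

end Pool.Agent.MPd42a57.Exact
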