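import Pool.Agent.MPd42a57.Asymp

open Filter Topology Set

namespace Pool.Agent.MPd42a57.Exact

section Asymp2

variable {k : ℝ} {n0 : ℕ}

variable (k n0) in
/-- The constant `C_F`. -/
noncomputable def CF : ℝ := k * ((n0:ℝ)+1)^(1 - ss k) + (k+1) * ((n0:ℝ)+1)^(-ss k)

lemma CF_pos (h : KHyp k) : 0 < CF k n0 := by
  have h1 : 0 < ((n0:ℝ)+1)^(1 - ss k) := Real.rpow_pos_of_pos (by positivity) _
  have h2 : 0 < ((n0:ℝ)+1)^(- ss k) := Real.rpow_pos_of_pos (by positivity) _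
  have := h.pos
  unfold CF; positivity

lemma rpow_split {u s : ℝ} (hu : 0 < u) : u^(1 - s) = u * u^(-s) := by
  rw [show 1 - s = 1 + (-s) by ring, Real.rpow_add hu, Real.rpow_one]

lemma FF_upper (h : KHyp k) (j : ℕ) : FF (yy k n0) 0 j ≤ CF k n0 / ((n0:ℝ)+1+j) := by
  have hy := yy_hyp h n0
  obtain ⟨l1, l2, h12, h2j, a1, a2, b1, b2, hup, -⟩ := exists_ll hy j
  have hb := ss_bounds h
  have hk := h.pos
  have hu := tpos n0 l1
  have hw := tpos n0 j
  have hB := BB_ge (n0 := n0) h (Nat.zero_le l1)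
  have hB0 : BB (yy k n0) 0 = 0 := by simp [BB]
  rw [hB0, sub_zero, Nat.cast_zero, add_zero] at hB
  have hg := gr_ge (n0 := n0) h j
  have hJ := JJ_le_k (n0 := n0) h l1
  have hwu : (n0:ℝ)+1+j ≤ k * ((n0:ℝ)+1+l1+1) := by
    have : (j:ℝ) ≤ JJ (yy k n0) l1 := by exact_mod_cast a2
    linarith
  have hBpos : 0 ≤ BB (yy k n0) l1 := Finset.sum_nonneg (fun j _ => (hy.pos j).le)
  set u := (n0:ℝ)+1+l1 with hdu
  set w := (n0:ℝ)+1+j with hdw
  have hyl : yy k n0 l1 = u^(-ss k) := rfl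
  rw [hyl] at hup
  have e1 : (k/(w+1)) * (u^(1 - ss k) - ((n0:ℝ)+1)^(1 - ss k)) ≤ gr (yy k n0) j * BB (yy k n0) l1 := by
    calc (k/(w+1)) * (u^(1 - ss k) - ((n0:ℝ)+1)^(1 - ss k))
        = (ss k / (w+1)) * ((k+1) * (u^(1 - ss k) - ((n0:ℝ)+1)^(1 - ss k))) := by
          have := ss_mul h
          rw [show ss k / (w+1) * ((k+1) * (u^(1 - ss k) - ((n0:ℝ)+1)^(1 - ss k)))
            = (ss k * (k+1)) / (w+1) * (u^(1 - ss k) - ((n0:ℝ)+1)^(1 - ss k)) by ring, this]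
      _ ≤ (ss k / (w+1)) * BB (yy k n0) l1 := by
          apply mul_le_mul_of_nonneg_left hB
          apply div_nonneg (by linarith) (by linarith)
      _ ≤ _ := mul_le_mul_of_nonneg_right hg hBpos
  have hus : 0 < u^(-ss k) := Real.rpow_pos_of_pos hu _
  have hsplit := rpow_split (s := ss k) hu
  have hw1 : 0 < w + 1 := by linarith
  have e2 : FF (yy k n0) 0 j * (w+1) ≤ CF k n0 := by
    have e3 : FF (yy k n0) 0 j ≤ u^(-ss k) - (k/(w+1)) * (u^(1 - ss k) - ((n0:ℝ)+1)^(1 - ss k)) := by linarith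
    have e4 := mul_le_mul_of_nonneg_right e3 hw1.le
    have e5 : (u^(-ss k) - (k/(w+1)) * (u^(1 - ss k) - ((n0:ℝ)+1)^(1 - ss k))) * (w+1)
        = (w+1) * u^(-ss k) - k * (u^(1 - ss k) - ((n0:ℝ)+1)^(1 - ss k)) := by
      field_simp
    rw [e5, hsplit] at e4
    have e6 : u^(-ss k) ≤ ((n0:ℝ)+1)^(-ss k) := by
      apply Real.rpow_le_rpow_of_nonpos (by positivity) _ (by linarith)
      rw [hdu]; linarith [show (0:ℝ) ≤ l1 from Nat.cast_nonneg _]
    have e7 : (w + 1 - k * u) * u^(-ss k) ≤ (k+1) * ((n0:ℝ)+1)^(-ss k) := by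
      calc (w + 1 - k * u) * u^(-ss k) ≤ (k+1) * u^(-ss k) :=
            mul_le_mul_of_nonneg_right (by linarith) hus.le
        _ ≤ _ := mul_le_mul_of_nonneg_left e6 (by linarith)
    unfold CF
    nlinarith
  rw [le_div_iff₀ hw]
  rcases le_total 0 (FF (yy k n0) 0 j) with h0 | h0
  · nlinarith
  · have := CF_pos (n0 := n0) h
    nlinarith

lemma FF_lower (h : KHyp k) (hn : 2 ≤ n0) (j : ℕ) : 0 ≤ FF (yy k n0) 0 j := by
  have hy := yy_hyp h n0
  obtain ⟨l1, l2, h12, h2j, a1, a2, b1, b2, -, hlow⟩ := exists_ll hy j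
  refine le_trans ?_ hlow
  have hb := ss_bounds h
  have hk := h.pos
  rcases Nat.eq_zero_or_pos l2 with h0 | hpos
  · rw [h0]
    have hB0 : BB (yy k n0) 0 = 0 := by simp [BB]
    rw [hB0, mul_zero, sub_zero]; exact (hy.pos 0).le
  · obtain ⟨l, rfl⟩ := Nat.exists_eq_succ_of_ne_zero hpos.ne'
    rw [Nat.succ_eq_add_one] at *
    have ht := tpos n0 l
    have hw := tpos n0 j
    have hB := BB_le (n0 := n0) h (Nat.zero_le (l+1))
    have hB0 : BB (yy k n0) 0 = 0 := by simp [BB]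
    have e1 : (n0:ℝ) + ((l+1 : ℕ) : ℝ) = (n0:ℝ)+1+l := by push_cast; ring
    rw [hB0, sub_zero, e1, Nat.cast_zero, add_zero] at hB
    have hg := gr_le (n0 := n0) h j
    have hJ := JJ_gt (n0 := n0) h l
    have hwt : k * ((n0:ℝ)+1+l) - 1 < (n0:ℝ)+1+j := by
      have : ((JJ (yy k n0) l : ℕ) : ℝ) ≤ j := by exact_mod_cast b1 l (Nat.lt_succ_self l)
      linarith
    have hBpos : 0 ≤ BB (yy k n0) (l+1) := Finset.sum_nonneg (fun j _ => (hy.pos j).le)
    have hyl : yy k n0 (l+1) = ((n0:ℝ)+1+l+1)^(-ss k) := by unfold yy; rw [cast_s]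
    rw [hyl]
    have hn' : (2:ℝ) ≤ n0 := by exact_mod_cast hn
    set t := (n0:ℝ)+1+l with hdt
    set w := (n0:ℝ)+1+j with hdw
    have htn : (n0:ℝ) ≤ t := by rw [hdt]; linarith [show (0:ℝ) ≤ l from Nat.cast_nonneg _]
    have hpow : 0 ≤ t^(1 - ss k) - (n0:ℝ)^(1 - ss k) := by
      have := Real.rpow_le_rpow (by linarith) htn (show 0 ≤ 1 - ss k by linarith)
      linarith
    have e2 : gr (yy k n0) j * BB (yy k n0) (l+1) ≤ (k/w) * (t^(1 - ss k) - (n0:ℝ)^(1 - ss k)) := by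
      calc gr (yy k n0) j * BB (yy k n0) (l+1)
          ≤ (ss k / w) * BB (yy k n0) (l+1) := mul_le_mul_of_nonneg_right hg hBpos
        _ ≤ (ss k / w) * ((k+1) * (t^(1 - ss k) - (n0:ℝ)^(1 - ss k))) := by
            apply mul_le_mul_of_nonneg_left hB
            apply div_nonneg (by linarith) (by linarith)
        _ = _ := by
            have := ss_mul h
            rw [show ss k / w * ((k+1) * (t^(1 - ss k) - (n0:ℝ)^(1 - ss k)))
              = (ss k * (k+1)) / w * (t^(1 - ss k) - (n0:ℝ)^(1 - ss k)) by ring, this]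
    have hnpos : (0:ℝ) < n0 := by linarith
    have s1 := rpow_split (s := ss k) ht
    have s2 := rpow_split (s := ss k) hnpos
    have hts : 0 < t^(-ss k) := Real.rpow_pos_of_pos ht _
    have hns : 0 < (n0:ℝ)^(-ss k) := Real.rpow_pos_of_pos hnpos _
    have e6 : t^(-ss k) ≤ (n0:ℝ)^(-ss k) :=
      Real.rpow_le_rpow_of_nonpos hnpos htn (by linarith)
    have e7 := tele_neg_le (t := t) (p := ss k) ht (by linarith)
    have e8 : t^(-ss k - 1) = t^(-ss k) / t := by rw [Real.rpow_sub_one ht.ne']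
    rw [e8] at e7
    have hkt : 0 ≤ k * t - 1 := by
      have q1 : k * 2 ≤ k * t := mul_le_mul_of_nonneg_left (by linarith) hk.le
      linarith [h.lo]
    have e9 : k * (t^(1 - ss k) - (n0:ℝ)^(1 - ss k)) ≤ w * (t+1)^(-ss k) := by
      have f1 : (k * t - 1) * (t^(-ss k) - ss k * (t^(-ss k) / t)) ≤ w * (t+1)^(-ss k) := by
        have g1 : t^(-ss k) - ss k * (t^(-ss k) / t) ≤ (t+1)^(-ss k) := by linarith
        have g2 : 0 < (t+1)^(-ss k) := Real.rpow_pos_of_pos (by linarith) _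
        calc (k * t - 1) * (t^(-ss k) - ss k * (t^(-ss k) / t)) ≤ (k * t - 1) * (t+1)^(-ss k) :=
              mul_le_mul_of_nonneg_left g1 hkt
          _ ≤ _ := mul_le_mul_of_nonneg_right (by linarith) g2.le
      refine le_trans ?_ f1
      rw [s1, s2]
      have f2 : (k * t - 1) * (t^(-ss k) - ss k * (t^(-ss k) / t))
          = k * (t * t^(-ss k)) - (1 + ss k * k) * t^(-ss k) + ss k * (t^(-ss k) / t) := by
        field_simp; ring
      rw [f2]
      have f3 : 0 ≤ ss k * (t^(-ss k) / t) := by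
        apply mul_nonneg (by linarith); positivity
      have f0 : 0 ≤ ss k * k := mul_nonneg (by linarith) hk.le
      have f4 : (1 + ss k * k) * t^(-ss k) ≤ (1 + ss k * k) * (n0:ℝ)^(-ss k) :=
        mul_le_mul_of_nonneg_left e6 (by linarith)
      have f5 : (1 + ss k * k) * (n0:ℝ)^(-ss k) ≤ (k * n0) * (n0:ℝ)^(-ss k) := by
        apply mul_le_mul_of_nonneg_right _ hns.le
        have q1 : ss k * k ≤ 1 * k := mul_le_mul_of_nonneg_right (by linarith) hk.le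
        have q2 : k * 2 ≤ k * n0 := mul_le_mul_of_nonneg_left hn' hk.le
        linarith [h.lo]
      linarith
    have e10 : (k/w) * (t^(1 - ss k) - (n0:ℝ)^(1 - ss k)) ≤ (t+1)^(-ss k) := by
      rw [div_mul_eq_mul_div, div_le_iff₀ hw]
      linarith
    linarith

lemma FF_nonneg' (h : KHyp k) (hn : 2 ≤ n0) {m j : ℕ} (hm : m ≤ j) : 0 ≤ FF (yy k n0) m j :=
  FF_nonneg (yy_hyp h n0) hm (FF_lower h hn j)

lemma sum_yF_Ico_le (h : KHyp k) (hn : 2 ≤ n0) {m M : ℕ} (hm : m ≤ M) :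
    ∑ l ∈ Finset.Ico m M, yy k n0 l * FF (yy k n0) 0 l
      ≤ CF k n0 / ss k * (((n0:ℝ)+m)^(-ss k) - ((n0:ℝ)+M)^(-ss k)) := by
  have hb := ss_bounds h
  have hs : 0 < ss k := by linarith
  induction M, hm using Nat.le_induction with
  | base => simp
  | succ n hmn ih =>
    rw [Finset.sum_Ico_succ_top hmn]
    have hn' : (2:ℝ) ≤ n0 := by exact_mod_cast hn
    have ht : 0 < (n0:ℝ) + n := by positivity
    have h1 := tele_neg_ge (t := (n0:ℝ)+n) (p := ss k) ht (by linarith)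
    have hw := tpos n0 n
    have e1 : (n0:ℝ) + n + 1 = (n0:ℝ)+1+n := by ring
    have e2 : (n0:ℝ) + ((n+1 : ℕ) : ℝ) = (n0:ℝ)+1+n := by push_cast; ring
    rw [e1] at h1
    rw [e2]
    have h2 := FF_upper (n0 := n0) h n
    have h3 : yy k n0 n * FF (yy k n0) 0 n ≤ CF k n0 * ((n0:ℝ)+1+n)^(-ss k - 1) := by
      calc yy k n0 n * FF (yy k n0) 0 n ≤ yy k n0 n * (CF k n0 / ((n0:ℝ)+1+n)) :=
            mul_le_mul_of_nonneg_left h2 (yy_pos n).le
        _ = _ := by rw [Real.rpow_sub_one hw.ne']; unfold yy; ring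
    have hCF := CF_pos (n0 := n0) h
    have h4 := mul_le_mul_of_nonneg_left h1 (show 0 ≤ CF k n0 / ss k by positivity)
    have h5 : CF k n0 / ss k * (ss k * ((n0:ℝ)+1+n)^(-ss k - 1)) = CF k n0 * ((n0:ℝ)+1+n)^(-ss k - 1) := by
      field_simp
    rw [h5] at h4
    linarith

/-- `p = 2 s - 1`. -/
lemma p_mul (h : KHyp k) : (2 * ss k - 1) * (k+1) = k - 1 := by
  have := ss_mul h
  linarith

lemma yy_sq (j : ℕ) : (yy k n0 j)^2 = ((n0:ℝ)+1+j)^(-(2 * ss k - 1) - 1) := by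
  unfold yy
  rw [← Real.rpow_natCast, ← Real.rpow_mul (tpos n0 j).le]
  congr 1
  push_cast; ring

lemma sum_sq_Ico_le (h : KHyp k) (hn : 2 ≤ n0) {m M : ℕ} (hm : m ≤ M) :
    (2 * ss k - 1) * ∑ l ∈ Finset.Ico m M, (yy k n0 l)^2
      ≤ ((n0:ℝ)+m)^(-(2 * ss k - 1)) - ((n0:ℝ)+M)^(-(2 * ss k - 1)) := by
  have hb := ss_bounds h
  induction M, hm using Nat.le_induction with
  | base => simp
  | succ n hmn ih =>
    rw [Finset.sum_Ico_succ_top hmn]
    have hn' : (2:ℝ) ≤ n0 := by exact_mod_cast hn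
    have ht : 0 < (n0:ℝ) + n := by positivity
    have h1 := tele_neg_ge (t := (n0:ℝ)+n) (p := 2 * ss k - 1) ht (by linarith)
    have e1 : (n0:ℝ) + n + 1 = (n0:ℝ)+1+n := by ring
    have e2 : (n0:ℝ) + ((n+1 : ℕ) : ℝ) = (n0:ℝ)+1+n := by push_cast; ring
    rw [e1] at h1
    rw [e2, yy_sq, mul_add]
    linarith

lemma sum_sq_Ico_ge (h : KHyp k) {m M : ℕ} (hm : m ≤ M) :
    ((n0:ℝ)+1+m)^(-(2 * ss k - 1)) - ((n0:ℝ)+1+M)^(-(2 * ss k - 1))
      ≤ (2 * ss k - 1) * ∑ l ∈ Finset.Ico m M, (yy k n0 l)^2 := by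
  have hb := ss_bounds h
  induction M, hm using Nat.le_induction with
  | base => simp
  | succ n hmn ih =>
    rw [Finset.sum_Ico_succ_top hmn]
    have h1 := tele_neg_le (t := (n0:ℝ)+1+n) (p := 2 * ss k - 1) (tpos n0 n) (by linarith)
    rw [cast_s, yy_sq, mul_add]
    linarith

lemma summable_sq (h : KHyp k) (hn : 2 ≤ n0) : Summable (fun j => (yy k n0 j)^2) := by
  have hb := ss_bounds h
  have hp : 0 < 2 * ss k - 1 := by linarith
  apply summable_of_sum_range_le (c := ((n0:ℝ))^(-(2 * ss k - 1)) / (2 * ss k - 1))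
  · intro n; positivity
  · intro n
    have h1 := sum_sq_Ico_le (n0 := n0) h hn (Nat.zero_le n)
    rw [Nat.Ico_zero_eq_range, Nat.cast_zero, add_zero] at h1
    rw [le_div_iff₀ hp]
    have h2 : 0 ≤ ((n0:ℝ)+n)^(-(2 * ss k - 1)) := Real.rpow_nonneg (by positivity) _
    linarith

variable (k n0) in
/-- The squared norm of the initial vector. -/
noncomputable def S0 : ℝ := ∑' j, (yy k n0 j)^2

lemma tendsto_shift (a : ℝ) {p : ℝ} (hp : 0 < p) : Tendsto (fun M : ℕ => (a + (M:ℝ))^(-p)) atTop (𝓝 0) := by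
  apply (tendsto_rpow_neg_atTop hp).comp
  exact tendsto_atTop_add_const_left _ _ tendsto_natCast_atTop_atTop

lemma S0_le (h : KHyp k) (hn : 2 ≤ n0) : (2 * ss k - 1) * S0 k n0 ≤ ((n0:ℝ))^(-(2 * ss k - 1)) := by
  have hb := ss_bounds h
  have hp : 0 < 2 * ss k - 1 := by linarith
  have hs := (summable_sq (n0 := n0) h hn).hasSum.tendsto_sum_nat
  apply le_of_tendsto (hs.const_mul (2 * ss k - 1))
  filter_upwards with n
  have h1 := sum_sq_Ico_le (n0 := n0) h hn (Nat.zero_le n)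
  rw [Nat.Ico_zero_eq_range, Nat.cast_zero, add_zero] at h1
  have h2 : 0 ≤ ((n0:ℝ)+n)^(-(2 * ss k - 1)) := Real.rpow_nonneg (by positivity) _
  linarith

lemma tail_ge (h : KHyp k) (hn : 2 ≤ n0) (m : ℕ) : ((n0:ℝ)+1+m)^(-(2 * ss k - 1))
    ≤ (2 * ss k - 1) * (S0 k n0 - ∑ l ∈ Finset.range m, (yy k n0 l)^2) := by
  have hb := ss_bounds h
  have hp : 0 < 2 * ss k - 1 := by linarith
  have hs := (summable_sq (n0 := n0) h hn).hasSum.tendsto_sum_nat
  have h1 : Tendsto (fun M : ℕ => ((n0:ℝ)+1+m)^(-(2 * ss k - 1)) - ((n0:ℝ)+1+M)^(-(2 * ss k - 1))) atTop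
      (𝓝 (((n0:ℝ)+1+m)^(-(2 * ss k - 1)) - 0)) := (tendsto_shift _ hp).const_sub _
  rw [sub_zero] at h1
  apply le_of_tendsto_of_tendsto h1 ((hs.sub_const (∑ l ∈ Finset.range m, (yy k n0 l)^2)).const_mul _)
  filter_upwards [eventually_ge_atTop m] with M hM
  have := sum_sq_Ico_ge (n0 := n0) h hM
  rw [Finset.sum_Ico_eq_sub _ hM] at this
  exact this

lemma S0_pos (h : KHyp k) (hn : 2 ≤ n0) : 0 < S0 k n0 := by
  have hb := ss_bounds h
  have hp : 0 < 2 * ss k - 1 := by linarith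
  have h1 := tail_ge (n0 := n0) h hn 0
  rw [Finset.sum_range_zero, sub_zero] at h1
  have h2 : 0 < ((n0:ℝ)+1+((0:ℕ):ℝ))^(-(2 * ss k - 1)) := Real.rpow_pos_of_pos (by positivity) _
  by_contra hc
  push Not at hc
  nlinarith

lemma y_tendsto (h : KHyp k) : Tendsto (yy k n0) atTop (𝓝 0) := by
  have hb := ss_bounds h
  exact tendsto_shift _ (by linarith)

lemma yB_tendsto (h : KHyp k) : Tendsto (fun m => yy k n0 m * BB (yy k n0) m) atTop (𝓝 0) := by
  have hb := ss_bounds h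
  have hk := h.pos
  have hp : 0 < 2 * ss k - 1 := by linarith
  have h1 : Tendsto (fun M : ℕ => (k+1) * ((n0:ℝ)+1+M)^(-(2 * ss k - 1))) atTop (𝓝 ((k+1) * 0)) :=
    (tendsto_shift _ hp).const_mul _
  rw [mul_zero] at h1
  refine squeeze_zero ?_ ?_ h1
  · intro m
    exact mul_nonneg (yy_pos m).le (Finset.sum_nonneg (fun j _ => (yy_pos j).le))
  · intro m
    have h2 := BB_le (n0 := n0) h (Nat.zero_le m)
    have hB0 : BB (yy k n0) 0 = 0 := by simp [BB]
    rw [hB0, sub_zero, Nat.cast_zero, add_zero] at h2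
    have h3 : 0 ≤ (n0:ℝ)^(1 - ss k) := Real.rpow_nonneg (by positivity) _
    have h4 : ((n0:ℝ)+m)^(1 - ss k) ≤ ((n0:ℝ)+1+m)^(1 - ss k) :=
      Real.rpow_le_rpow (by positivity) (by linarith) (by linarith)
    have h5 : BB (yy k n0) m ≤ (k+1) * ((n0:ℝ)+1+m)^(1 - ss k) := by nlinarith
    calc yy k n0 m * BB (yy k n0) m ≤ yy k n0 m * ((k+1) * ((n0:ℝ)+1+m)^(1 - ss k)) :=
          mul_le_mul_of_nonneg_left h5 (yy_pos m).le
      _ = (k+1) * (((n0:ℝ)+1+m)^(-ss k) * ((n0:ℝ)+1+m)^(1 - ss k)) := by unfold yy; ring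
      _ = _ := by
          rw [← Real.rpow_add (tpos n0 m)]
          congr 2; ring

lemma sum_yF_tendsto (h : KHyp k) (hn : 2 ≤ n0) :
    Tendsto (fun M : ℕ => ∑ l ∈ Finset.range M, yy k n0 l * FF (yy k n0) 0 l) atTop (𝓝 (S0 k n0)) := by
  have hy := yy_hyp h n0
  have hSy : Tendsto (fun T' : ℕ => ∑ i ∈ Finset.range T', yy k n0 i * SS (yy k n0) i T') atTop (𝓝 0) := by
    refine squeeze_zero ?_ ?_ (yB_tendsto (n0 := n0) h)
    · intro m
      exact Finset.sum_nonneg (fun i hi => mul_nonneg (yy_pos i).le (SS_nonneg hy (Finset.mem_range.mp hi)))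
    · intro m
      have : yy k n0 m * BB (yy k n0) m = ∑ i ∈ Finset.range m, yy k n0 i * yy k n0 m := by
        unfold BB; rw [Finset.mul_sum]; exact Finset.sum_congr rfl (fun i _ => mul_comm _ _)
      rw [this]
      exact Finset.sum_le_sum (fun i hi =>
        mul_le_mul_of_nonneg_left (SS_le hy (Finset.mem_range.mp hi)) (yy_pos i).le)
  have h1 := (summable_sq (n0 := n0) h hn).hasSum.tendsto_sum_nat.add hSy
  rw [add_zero] at h1
  refine h1.congr (fun M => ?_)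
  rw [sum_y_FF]

lemma tail_yF_le (h : KHyp k) (hn : 2 ≤ n0) (m : ℕ) :
    S0 k n0 - ∑ l ∈ Finset.range m, yy k n0 l * FF (yy k n0) 0 l
      ≤ CF k n0 / ss k * (1 + 1/n0) * yy k n0 m := by
  have hb := ss_bounds h
  have hs : 0 < ss k := by linarith
  have hn' : (2:ℝ) ≤ n0 := by exact_mod_cast hn
  have hCF := CF_pos (n0 := n0) h
  have h1 : S0 k n0 - ∑ l ∈ Finset.range m, yy k n0 l * FF (yy k n0) 0 l
      ≤ CF k n0 / ss k * ((n0:ℝ)+m)^(-ss k) := by
    apply le_of_tendsto ((sum_yF_tendsto h hn).sub_const _)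
    filter_upwards [eventually_ge_atTop m] with M hM
    rw [← Finset.sum_Ico_eq_sub _ hM]
    refine le_trans (sum_yF_Ico_le h hn hM) ?_
    apply mul_le_mul_of_nonneg_left _ (by positivity)
    have : 0 ≤ ((n0:ℝ)+M)^(-ss k) := Real.rpow_nonneg (by positivity) _
    linarith
  refine le_trans h1 ?_
  rw [mul_assoc]
  apply mul_le_mul_of_nonneg_left _ (by positivity)
  have ht : 0 < (n0:ℝ)+m := by positivity
  have h2 : ((n0:ℝ)+1+m)^(ss k) ≤ (1 + 1/n0) * ((n0:ℝ)+m)^(ss k) := by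
    have e1 : (n0:ℝ)+1+m = ((n0:ℝ)+m) * (1 + 1/((n0:ℝ)+m)) := by field_simp; ring
    rw [e1, Real.mul_rpow ht.le (by positivity)]
    have e2 : (1 + 1/((n0:ℝ)+m))^(ss k) ≤ 1 + 1/n0 := by
      calc (1 + 1/((n0:ℝ)+m))^(ss k) ≤ (1 + 1/((n0:ℝ)+m))^(1:ℝ) :=
            Real.rpow_le_rpow_of_exponent_le (by
              have : 0 < 1/((n0:ℝ)+m) := by positivity
              linarith) (by linarith)
        _ = 1 + 1/((n0:ℝ)+m) := Real.rpow_one _
        _ ≤ 1 + 1/n0 := by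
            have : 1/((n0:ℝ)+m) ≤ 1/n0 := by
              apply one_div_le_one_div_of_le (by linarith)
              linarith [show (0:ℝ) ≤ m from Nat.cast_nonneg _]
            linarith
    have e3 : 0 ≤ ((n0:ℝ)+m)^(ss k) := Real.rpow_nonneg ht.le _
    nlinarith
  unfold yy
  rw [Real.rpow_neg ht.le, Real.rpow_neg (tpos n0 m).le]
  have p1 : 0 < ((n0:ℝ)+m)^(ss k) := Real.rpow_pos_of_pos ht _
  have p2 : 0 < ((n0:ℝ)+1+m)^(ss k) := Real.rpow_pos_of_pos (tpos n0 m) _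
  rw [← div_eq_mul_inv, le_div_iff₀ p2, ← div_eq_inv_mul, div_le_iff₀ p1]
  exact h2

lemma tail_yF_nonneg (h : KHyp k) (hn : 2 ≤ n0) (m : ℕ) :
    0 ≤ S0 k n0 - ∑ l ∈ Finset.range m, yy k n0 l * FF (yy k n0) 0 l := by
  apply ge_of_tendsto ((sum_yF_tendsto h hn).sub_const _)
  filter_upwards [eventually_ge_atTop m] with M hM
  rw [← Finset.sum_Ico_eq_sub _ hM]
  exact Finset.sum_nonneg (fun i _ => mul_nonneg (yy_pos i).le (FF_lower h hn i))

end Asymp2

end Pool.Agent.MPd42a57.Exact
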