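import Pool.Agent.MPd42a57.Scalar

open Filter Topology Set

namespace Pool.Agent.MPd42a57

section Construction

variable {H : Type*} [NormedAddCommGroup H] [InnerProductSpace ℝ H]
variable {ι : Type*} (b : HilbertBasis ι ℝ H) (e : ℕ × Fin 4 ↪ ι)

/-- The sum of the four basis vectors of node `u`. -/
noncomputable def V (u : ℕ) : H := ∑ i : Fin 4, b (e (u, i))

/-- The residuals. -/
noncomputable def rr (m : ℕ) : H := ∑ w ∈ Finset.range (m+1), zz m w • V b e w

/-- The chosen elements. -/
noncomputable def ph (m : ℕ) : H := (1/4 : ℝ) • V b e (uu m) - hh • V b e (m+1)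

/-- The dictionary. -/
def DD : Set H := Set.range b ∪ Set.range (ph b e)

open Classical in
lemma inner_basis (i j : ι) : inner ℝ (b i) (b j) = if i = j then (1:ℝ) else 0 :=
  (orthonormal_iff_ite.mp b.orthonormal) i j

lemma inner_V_basis (u w : ℕ) (i : Fin 4) : inner ℝ (V b e u) (b (e (w, i))) = if u = w then (1:ℝ) else 0 := by
  unfold V
  rw [sum_inner]
  by_cases h : u = w
  · subst h
    rw [if_pos rfl, Finset.sum_eq_single i]
    · rw [inner_basis, if_pos rfl]
    · intro j _ hj
      rw [inner_basis, if_neg]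
      intro hc
      have := e.injective hc
      simp only [Prod.mk.injEq, true_and] at this
      exact hj this
    · intro hc
      exact absurd (Finset.mem_univ _) hc
  · rw [if_neg h]
    apply Finset.sum_eq_zero
    intro j _
    rw [inner_basis, if_neg]
    intro hc
    have := e.injective hc
    simp only [Prod.mk.injEq] at this
    exact h this.1

lemma inner_V_other (u : ℕ) {i : ι} (hi : i ∉ Set.range e) : inner ℝ (V b e u) (b i) = (0:ℝ) := by
  unfold V
  rw [sum_inner]
  apply Finset.sum_eq_zero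
  intro j _
  rw [inner_basis, if_neg]
  intro hc
  exact hi ⟨_, hc⟩

lemma inner_V_V (u w : ℕ) : inner ℝ (V b e u) (V b e w) = if u = w then (4:ℝ) else 0 := by
  have : V b e w = ∑ i : Fin 4, b (e (w, i)) := rfl
  rw [this, inner_sum]
  simp only [inner_V_basis]
  by_cases h : u = w
  · simp [h]
  · simp [h]

lemma inner_rr_basis (m w : ℕ) (i : Fin 4) : inner ℝ (rr b e m) (b (e (w, i))) = zz m w := by
  unfold rr
  rw [sum_inner]
  simp only [inner_smul_left, inner_V_basis]
  by_cases h : w ≤ m
  · rw [Finset.sum_eq_single w]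
    · simp
    · intro j _ hj
      rw [if_neg hj]; simp
    · intro hc
      exact absurd (Finset.mem_range.mpr (by omega)) hc
  · rw [zz_zero_of_gt (by omega)]
    apply Finset.sum_eq_zero
    intro j hj
    rw [Finset.mem_range] at hj
    rw [if_neg (by omega)]; simp

lemma inner_rr_other (m : ℕ) {i : ι} (hi : i ∉ Set.range e) : inner ℝ (rr b e m) (b i) = (0:ℝ) := by
  unfold rr
  rw [sum_inner]
  apply Finset.sum_eq_zero
  intro j _
  rw [inner_smul_left, inner_V_other b e j hi]; simp

lemma inner_rr_V (m w : ℕ) : inner ℝ (rr b e m) (V b e w) = 4 * zz m w := by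
  have : V b e w = ∑ i : Fin 4, b (e (w, i)) := rfl
  rw [this, inner_sum]
  simp only [inner_rr_basis]
  simp

lemma inner_rr_ph (m j : ℕ) : inner ℝ (rr b e m) (ph b e j) = zz m (uu j) - Real.sqrt 3 * zz m (j+1) := by
  unfold ph
  rw [inner_sub_right, inner_smul_right, inner_smul_right, inner_rr_V, inner_rr_V]
  unfold hh
  ring

lemma inner_rr_ph_self (m : ℕ) : inner ℝ (rr b e m) (ph b e m) = yy m := by
  rw [inner_rr_ph, zz_zero_of_gt (Nat.lt_succ_self m)]
  change zz m (uu m) - _ = zz m (uu m)
  ring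

lemma norm_V_sq (u : ℕ) : ‖V b e u‖ ^ 2 = 4 := by
  rw [← real_inner_self_eq_norm_sq, inner_V_V, if_pos rfl]

lemma norm_ph (m : ℕ) : ‖ph b e m‖ = 1 := by
  have h1 : ‖ph b e m‖ ^ 2 = 1 := by
    rw [← real_inner_self_eq_norm_sq]
    unfold ph
    have hne : uu m ≠ m + 1 := by have := uu_le m; omega
    rw [inner_sub_left, inner_sub_right, inner_sub_right]
    have e1 := inner_V_V b e (uu m) (uu m)
    have e2 := inner_V_V b e (uu m) (m+1)
    have e3 := inner_V_V b e (m+1) (uu m)
    have e4 := inner_V_V b e (m+1) (m+1)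
    rw [if_pos rfl] at e1 e4
    rw [if_neg hne] at e2
    rw [if_neg (Ne.symm hne)] at e3
    simp only [inner_smul_left, inner_smul_right, e1, e2, e3, e4, conj_trivial]
    have := hh_sq
    nlinarith
  have h2 := norm_nonneg (ph b e m)
  nlinarith

lemma rr_succ (m : ℕ) : rr b e (m+1) = rr b e m - yy m • ph b e m := by
  unfold rr ph
  rw [Finset.sum_range_succ, zz_new]
  have hu : uu m ∈ Finset.range (m+1) := by
    rw [Finset.mem_range]; have := uu_le m; omega
  rw [← Finset.add_sum_erase _ _ hu, ← Finset.add_sum_erase _ (fun w => zz m w • V b e w) hu, zz_old]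
  have h1 : ∑ w ∈ (Finset.range (m+1)).erase (uu m), zz (m+1) w • V b e w
      = ∑ w ∈ (Finset.range (m+1)).erase (uu m), zz m w • V b e w := by
    refine Finset.sum_congr rfl (fun w hw => ?_)
    rw [Finset.mem_erase, Finset.mem_range] at hw
    rw [zz_other (by omega) hw.1]
  rw [h1]
  have h2 : zz m (uu m) = yy m := rfl
  rw [h2]
  rw [smul_sub, smul_smul, smul_smul]
  have h3 : (3/4 * yy m) • V b e (uu m) = yy m • V b e (uu m) - (yy m * (1/4)) • V b e (uu m) := by
    rw [← sub_smul]; congr 1; ring
  rw [h3, mul_comm hh (yy m)]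
  abel

lemma norm_rr_sq (m : ℕ) : ‖rr b e m‖ ^ 2 = 4 * ∑ w ∈ Finset.range (m+1), zz m w ^ 2 := by
  rw [← real_inner_self_eq_norm_sq]
  have h : inner ℝ (rr b e m) (rr b e m) = inner ℝ (rr b e m) (∑ w ∈ Finset.range (m+1), zz m w • V b e w) := rfl
  rw [h, inner_sum, Finset.mul_sum]
  refine Finset.sum_congr rfl (fun w _ => ?_)
  rw [inner_smul_right, inner_rr_V]
  ring

lemma rr_zero : rr b e 0 = ∑ i : Fin 4, (1/4 : ℝ) • b (e (0, i)) := by
  unfold rr V
  rw [Finset.sum_range_one, Finset.smul_sum]
  rfl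

lemma rr_zero_mem : rr b e 0 ∈ A1 (DD b e) := by
  apply subset_closure
  rw [rr_zero]
  have hconv : Convex ℝ (convexHull ℝ (DD b e ∪ -(DD b e))) := convex_convexHull _ _
  refine hconv.sum_mem (fun _ _ => by norm_num) (by simp) (fun i _ => ?_)
  apply subset_convexHull
  left; left
  exact ⟨_, rfl⟩

lemma isDictionary : IsDictionary (DD b e) := by
  constructor
  · rintro g (⟨i, rfl⟩ | ⟨m, rfl⟩)
    · exact b.orthonormal.1 i
    · exact norm_ph b e m
  · have h1 : Dense (Submodule.span ℝ (Set.range b) : Set H) := by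
      have := b.dense_span
      rwa [← Submodule.dense_iff_topologicalClosure_eq_top] at this
    exact h1.mono (Submodule.span_mono Set.subset_union_left)

lemma isPGA : IsPGA (DD b e) (rr b e 0) (ph b e) (rr b e) := by
  refine ⟨rfl, fun m => ⟨Or.inr ⟨m, rfl⟩, ?_, ?_⟩⟩
  · have hy := yy_pos m
    rw [inner_rr_ph_self, abs_of_pos hy]
    rintro g (⟨i, rfl⟩ | ⟨j, rfl⟩)
    · by_cases hi : i ∈ Set.range e
      · obtain ⟨⟨w, k⟩, rfl⟩ := hi
        rw [inner_rr_basis, abs_of_nonneg (zz_nonneg m w)]
        exact zz_le_yy m w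
      · rw [inner_rr_other b e m hi, abs_zero]
        exact hy.le
    · rw [inner_rr_ph]
      have h3 : Real.sqrt 3 ≤ 7/4 := by
        have := sqrt3_sq
        by_contra hcon
        push Not at hcon
        nlinarith
      have h3p : 0 ≤ Real.sqrt 3 := Real.sqrt_nonneg 3
      rw [abs_le]
      rcases lt_or_ge j m with h | h
      · have h1 := processed h
        have h2 := zz_le_yy m (j+1)
        have h4 := zz_nonneg m (j+1)
        have h5 := zz_le_yy m (uu j)
        constructor
        · nlinarith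
        · nlinarith
      · rw [zz_zero_of_gt (show m < j + 1 by omega)]
        have h5 := zz_le_yy m (uu j)
        have h6 := zz_nonneg m (uu j)
        constructor
        · linarith
        · linarith
  · rw [inner_rr_ph_self]
    exact rr_succ b e m

end Construction

end Pool.Agent.MPd42a57
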