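import Mathlib

open Filter Topology Set

namespace Pool.Agent.MPd42a57

section Defs

variable {H : Type*} [NormedAddCommGroup H] [InnerProductSpace ℝ H]

/-- A dictionary: a set of unit vectors with dense linear span. -/
def IsDictionary (D : Set H) : Prop :=
  (∀ g ∈ D, ‖g‖ = 1) ∧ Dense (Submodule.span ℝ D : Set H)

/-- `A_1(D)`: the norm-closed convex hull of `D` and `-D`. -/
def A1 (D : Set H) : Set H := closure (convexHull ℝ (D ∪ -D))

/-- `D` is `lam`-quasi-orthogonal. -/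
def QuasiOrthogonal (lam : ℝ) (D : Set H) : Prop :=
  ∀ (n : ℕ) (g : Fin n → H), 1 ≤ n → (∀ i, g i ∈ D) →
    ∃ (M : ℕ) (φ : Fin M → H), (M : ℝ) ≤ lam * n ∧ (∀ j, φ j ∈ D) ∧
      (∀ i, g i ∈ Submodule.span ℝ (Set.range φ)) ∧
      ∀ f ∈ Submodule.span ℝ (Set.range φ), ∃ j, (lam * n) ^ (-(1/2) : ℝ) * ‖f‖ ≤ |inner ℝ f (φ j)|

/-- A realization of the pure greedy algorithm: `φ m` is the element chosen at step `m + 1` and
`r m` is the residual after `m` steps. -/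
def IsPGA (D : Set H) (f : H) (φ r : ℕ → H) : Prop :=
  r 0 = f ∧ ∀ m, φ m ∈ D ∧ (∀ g ∈ D, |inner ℝ (r m) g| ≤ |inner ℝ (r m) (φ m)|) ∧
    r (m + 1) = r m - (inner ℝ (r m) (φ m) : ℝ) • φ m

end Defs

/-- `γ(m, lam)`: the supremum of the error of the pure greedy algorithm after `m` steps. -/
noncomputable def gamma (H : Type*) [NormedAddCommGroup H] [InnerProductSpace ℝ H] (m : ℕ) (lam : ℝ) : ℝ :=
  sSup {x : ℝ | ∃ (D : Set H) (f : H) (φ r : ℕ → H), IsDictionary D ∧ QuasiOrthogonal lam D ∧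
    f ∈ A1 D ∧ IsPGA D f φ r ∧ x = ‖r m‖}

end Pool.Agent.MPd42a57
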