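import Pool.Agent.MPd42a57.Construction

open Filter Topology Set

namespace Pool.Agent.MPd42a57

section QO

variable {H : Type*} [NormedAddCommGroup H] [InnerProductSpace ℝ H]
variable {ι : Type*} (b : HilbertBasis ι ℝ H) (e : ℕ × Fin 4 ↪ ι)

lemma exists_support (g : H) (hg : g ∈ DD b e) :
    ∃ S : Finset ι, S.Nonempty ∧ S.card ≤ 8 ∧ g ∈ Submodule.span ℝ (b '' (S : Set ι)) := by
  classical
  rcases hg with ⟨i, rfl⟩ | ⟨m, rfl⟩
  · exact ⟨{i}, by simp, by simp, Submodule.subset_span ⟨i, by simp, rfl⟩⟩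
  · refine ⟨(Finset.univ.image (fun k : Fin 4 => e (uu m, k))) ∪
      (Finset.univ.image (fun k : Fin 4 => e (m+1, k))), ?_, ?_, ?_⟩
    · exact ⟨e (uu m, 0), by simp⟩
    · refine (Finset.card_union_le _ _).trans ?_
      have h1 := Finset.card_image_le (s := (Finset.univ : Finset (Fin 4))) (f := fun k : Fin 4 => e (uu m, k))
      have h2 := Finset.card_image_le (s := (Finset.univ : Finset (Fin 4))) (f := fun k : Fin 4 => e (m+1, k))
      simp only [Finset.card_univ, Fintype.card_fin] at h1 h2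
      omega
    · unfold ph V
      refine Submodule.sub_mem _ (Submodule.smul_mem _ _ (Submodule.sum_mem _ (fun k _ => ?_)))
        (Submodule.smul_mem _ _ (Submodule.sum_mem _ (fun k _ => ?_)))
      · apply Submodule.subset_span
        exact ⟨e (uu m, k), by simp, rfl⟩
      · apply Submodule.subset_span
        exact ⟨e (m+1, k), by simp, rfl⟩

lemma exists_large_coeff (S : Finset ι) (hS : S.Nonempty) (f : H)
    (hf : f ∈ Submodule.span ℝ (b '' (S : Set ι))) :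
    ∃ i ∈ S, ‖f‖ ^ 2 ≤ S.card * (inner ℝ f (b i)) ^ 2 := by
  classical
  rw [Submodule.mem_span_image_finset_iff_exists_fun'] at hf
  obtain ⟨c, hc⟩ := hf
  have h1 : ‖f‖ ^ 2 = ∑ i ∈ S, (c i) ^ 2 := by
    rw [← real_inner_self_eq_norm_sq, ← hc, b.orthonormal.inner_sum]
    refine Finset.sum_congr rfl (fun i _ => ?_)
    simp only [conj_trivial]
    ring
  have h2 : ∀ i ∈ S, inner ℝ f (b i) = c i := by
    intro i hi
    rw [← hc, b.orthonormal.inner_left_sum c hi]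
    simp
  obtain ⟨i, hi, hmax⟩ := Finset.exists_max_image S (fun i => (c i)^2) hS
  refine ⟨i, hi, ?_⟩
  rw [h1, h2 i hi, ← nsmul_eq_mul]
  exact Finset.sum_le_card_nsmul _ _ _ hmax

lemma quasiOrthogonal {lam : ℝ} (hlam : 8 ≤ lam) : QuasiOrthogonal lam (DD b e) := by
  classical
  intro n g hn hg
  choose S hSne hScard hSmem using fun i => exists_support b e (g i) (hg i)
  set T : Finset ι := Finset.univ.biUnion S with hT
  have hTne : T.Nonempty := by
    obtain ⟨x, hx⟩ := hSne ⟨0, by omega⟩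
    exact ⟨x, by rw [hT, Finset.mem_biUnion]; exact ⟨_, Finset.mem_univ _, hx⟩⟩
  have hTcard : T.card ≤ 8 * n := by
    refine Finset.card_biUnion_le.trans ?_
    refine (Finset.sum_le_card_nsmul _ _ 8 (fun i _ => hScard i)).trans ?_
    simp [mul_comm]
  have hn0 : (0:ℝ) < n := by exact_mod_cast (show 0 < n by omega)
  have hle : (T.card : ℝ) ≤ lam * n := by
    have : (T.card : ℝ) ≤ 8 * n := by exact_mod_cast hTcard
    nlinarith
  have hTpos : (0:ℝ) < T.card := by exact_mod_cast hTne.card_pos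
  have hrange : Set.range (fun j : Fin T.card => b (T.equivFin.symm j : ι)) = b '' (T : Set ι) := by
    ext x
    constructor
    · rintro ⟨j, rfl⟩
      exact ⟨_, (T.equivFin.symm j).2, rfl⟩
    · rintro ⟨i, hi, rfl⟩
      exact ⟨T.equivFin ⟨i, hi⟩, by simp⟩
  refine ⟨T.card, fun j => b (T.equivFin.symm j : ι), hle, fun j => Or.inl ⟨_, rfl⟩, ?_, ?_⟩
  · intro i
    rw [hrange]
    refine Submodule.span_mono ?_ (hSmem i)
    apply Set.image_mono
    intro x hx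
    rw [Finset.mem_coe, hT, Finset.mem_biUnion]
    exact ⟨i, Finset.mem_univ _, hx⟩
  · intro f hf
    rw [hrange] at hf
    obtain ⟨i, hi, hfi⟩ := exists_large_coeff b T hTne f hf
    refine ⟨T.equivFin ⟨i, hi⟩, ?_⟩
    simp only [Equiv.symm_apply_apply]
    have hN : (0:ℝ) < lam * n := lt_of_lt_of_le hTpos hle
    have h1 : ((lam * n) ^ (-(1/2) : ℝ)) ^ 2 = (lam * n)⁻¹ := by
      rw [← Real.rpow_natCast, ← Real.rpow_mul hN.le]
      have : (-(1/2) : ℝ) * ((2:ℕ):ℝ) = -1 := by norm_num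
      rw [this, Real.rpow_neg_one]
    apply abs_le_of_sq_le_sq' _ (abs_nonneg _) |>.2
    rw [mul_pow, h1, sq_abs, inv_mul_le_iff₀ hN]
    refine hfi.trans ?_
    exact mul_le_mul_of_nonneg_right hle (sq_nonneg _)

lemma norm_le_one_of_mem_A1 {D : Set H} (hD : IsDictionary D) {f : H} (hf : f ∈ A1 D) : ‖f‖ ≤ 1 := by
  have h1 : A1 D ⊆ Metric.closedBall (0:H) 1 := by
    unfold A1
    apply closure_minimal _ Metric.isClosed_closedBall
    apply convexHull_min _ (convex_closedBall _ _)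
    rintro x (hx | hx)
    · rw [mem_closedBall_zero_iff, hD.1 x hx]
    · rw [mem_closedBall_zero_iff, ← norm_neg, hD.1 (-x) hx]
  have := h1 hf
  rwa [mem_closedBall_zero_iff] at this

lemma norm_residual_le {D : Set H} (hD : IsDictionary D) {f : H} {φ r : ℕ → H} (h : IsPGA D f φ r) (m : ℕ) :
    ‖r m‖ ≤ ‖f‖ := by
  induction m with
  | zero => rw [h.1]
  | succ m ih =>
    refine le_trans ?_ ih
    obtain ⟨hm1, _, hm3⟩ := h.2 m
    have h1 : ‖r (m+1)‖ ^ 2 ≤ ‖r m‖ ^ 2 := by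
      rw [hm3, norm_sub_sq_real, norm_smul, inner_smul_right, hD.1 _ hm1, Real.norm_eq_abs, mul_one, sq_abs]
      nlinarith [sq_nonneg (inner ℝ (r m) (φ m))]
    exact abs_le_of_sq_le_sq' h1 (norm_nonneg _) |>.2

lemma bddAbove_gamma (m : ℕ) (lam : ℝ) : BddAbove {x : ℝ | ∃ (D : Set H) (f : H) (φ r : ℕ → H),
    IsDictionary D ∧ QuasiOrthogonal lam D ∧ f ∈ A1 D ∧ IsPGA D f φ r ∧ x = ‖r m‖} := by
  refine ⟨1, ?_⟩
  rintro x ⟨D, f, φ, r, h1, _, h3, h4, rfl⟩
  exact (norm_residual_le h1 h4 m).trans (norm_le_one_of_mem_A1 h1 h3)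

lemma norm_rr_lower {P : ℝ} (hP : 0 < P) (hP2 : P ≤ 2) (hkey : 1 ≤ (3/4 : ℝ) ^ P + (Real.sqrt 3 / 4) ^ P) (m : ℕ) :
    (3/16 : ℝ) * ((m:ℝ) + 1) ^ (-(1/P - 1/2) : ℝ) ≤ ‖rr b e m‖ := by
  have hm : (0:ℝ) < (m:ℝ) + 1 := by positivity
  have h1 := sq_lower hP hP2 hkey m
  have h2 := norm_rr_sq b e m
  have h3 : ((3/16 : ℝ) * ((m:ℝ) + 1) ^ (-(1/P - 1/2) : ℝ)) ^ 2 = 9/256 * ((m:ℝ) + 1) ^ (-(2/P - 1) : ℝ) := by
    rw [mul_pow, ← Real.rpow_natCast (((m:ℝ) + 1) ^ (-(1/P - 1/2) : ℝ)) 2, ← Real.rpow_mul hm.le]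
    have : (-(1/P - 1/2) : ℝ) * ((2:ℕ):ℝ) = -(2/P - 1) := by push_cast; ring
    rw [this]
    norm_num
  have h4 : ((3/16 : ℝ) * ((m:ℝ) + 1) ^ (-(1/P - 1/2) : ℝ)) ^ 2 ≤ ‖rr b e m‖ ^ 2 := by
    rw [h3, h2]
    linarith
  exact abs_le_of_sq_le_sq' h4 (norm_nonneg _) |>.2

end QO

/-- Existence of the basis and the embedding. -/
lemma exists_basis (H : Type*) [NormedAddCommGroup H] [InnerProductSpace ℝ H] [CompleteSpace H]
    (hH : ¬ FiniteDimensional ℝ H) :
    ∃ (w : Set H) (_ : HilbertBasis w ℝ H), Nonempty (ℕ × Fin 4 ↪ w) := by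
  obtain ⟨w, b, _⟩ := exists_hilbertBasis ℝ H
  refine ⟨w, b, ?_⟩
  have hinf : Infinite w := by
    rw [← not_finite_iff_infinite]
    intro hfin
    apply hH
    have := Fintype.ofFinite w
    exact Module.Finite.of_basis b.toOrthonormalBasis.toBasis
  obtain ⟨emb⟩ : Nonempty (ℕ ↪ w) := ⟨Infinite.natEmbedding w⟩
  exact ⟨(Function.Embedding.trans (⟨Encodable.encode, Encodable.encode_injective⟩ : ℕ × Fin 4 ↪ ℕ) emb)⟩

end Pool.Agent.MPd42a57
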