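import Pool.Agent.MPd42a57.QO2
import Pool.Agent.MPd42a57.QO

open Filter Topology Set

namespace Pool.Agent.MPd42a57.Exact

section Realize

variable {H : Type*} [NormedAddCommGroup H] [InnerProductSpace ℝ H]
variable {y : ℕ → ℝ} {c S : ℝ} {N T : ℕ} {β : ℝ}

lemma FF_split {m j : ℕ} (hm : m ≤ j) :
    FF y 0 j = FF y m j + ∑ l ∈ Finset.range m, y l * Gm y l j := by
  unfold FF
  rw [Nat.Ico_zero_eq_range, ← Finset.sum_range_add_sum_Ico _ hm]
  ring

lemma sum_GG {m j : ℕ} : FF y 0 j - ∑ l ∈ Finset.range m, y l * GG y l j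
    = if j < m then - SS y j m else FF y m j := by
  split_ifs with h
  · have h1 := row_sum (y := y) h
    have h2 : ∑ l ∈ Finset.range m, y l * GG y l j = ∑ l ∈ Finset.range m, y l * GG y j l := by
      apply Finset.sum_congr rfl; intro l _; rw [GG_symm]
    rw [h2, h1]; ring
  · push Not at h
    rw [FF_split h]
    have h2 : ∑ l ∈ Finset.range m, y l * GG y l j = ∑ l ∈ Finset.range m, y l * Gm y l j := by
      apply Finset.sum_congr rfl; intro l hl
      rw [Finset.mem_range] at hl
      unfold GG; rw [if_neg (by omega), if_pos (by omega)]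
    rw [h2]; ring

/-- Additional hypotheses for the greedy algorithm. -/
structure PHyp (y : ℕ → ℝ) (S : ℝ) (β : ℝ) : Prop where
  f0 : ∀ j, 0 ≤ FF y 0 j
  nn : ∀ m, 0 ≤ S - ∑ l ∈ Finset.range m, y l * FF y 0 l
  le : ∀ m, S - ∑ l ∈ Finset.range m, y l * FF y 0 l ≤ β * y m

variable (w : Fin N ⊕ Fin T → H)

/-- The initial vector. -/
noncomputable def ff : H := (1/(N:ℝ)) • ∑ a : Fin N, w (Sum.inl a)

/-- The chosen vectors. -/
noncomputable def pv (l : ℕ) : H := if h : l < T then w (Sum.inr ⟨l, h⟩) else 0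

variable (y β) in
/-- The residuals. -/
noncomputable def RR (m : ℕ) : H := ff w - ∑ l ∈ Finset.range m, (y l / β) • pv w l

variable {w}

lemma RR_succ (m : ℕ) : RR y β w (m+1) = RR y β w m - (y m / β) • pv w m := by
  unfold RR
  rw [Finset.sum_range_succ]; abel

lemma inner_RR_inl (h : GHyp y c S N β) (hw : ∀ i j, inner ℝ (w i) (w j) = GM y N T β i j) {m : ℕ}
    (hm : m ≤ T) (a : Fin N) :
    inner ℝ (RR y β w m) (w (Sum.inl a)) = (S - ∑ l ∈ Finset.range m, y l * FF y 0 l) / β^2 := by
  have hN : (0:ℝ) < N := by exact_mod_cast h.Npos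
  have hβ := h.bpos
  have hS := S_pos h
  have e1 : inner ℝ (ff w) (w (Sum.inl a)) = 1/(N:ℝ) := by
    unfold ff
    rw [inner_smul_left, sum_inner]
    simp only [hw, GM_ll]
    simp
  have e2 : ∑ l ∈ Finset.range m, inner ℝ ((y l / β) • pv w l) (w (Sum.inl a))
      = (∑ l ∈ Finset.range m, y l * FF y 0 l) / β^2 := by
    rw [Finset.sum_div]
    apply Finset.sum_congr rfl
    intro l hl
    rw [Finset.mem_range] at hl
    have hlT : l < T := by omega
    rw [inner_smul_left]
    unfold pv
    rw [dif_pos hlT, hw, GM_rl]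
    simp only [conj_trivial]
    field_simp
  unfold RR
  rw [inner_sub_left, sum_inner, e1, e2, h.beq, sub_div]
  congr 1
  field_simp

lemma inner_RR_inr (h : GHyp y c S N β) (hw : ∀ i j, inner ℝ (w i) (w j) = GM y N T β i j) {m : ℕ}
    (hm : m ≤ T) (j : Fin T) :
    inner ℝ (RR y β w m) (w (Sum.inr j)) = (if (j:ℕ) < m then - SS y j m else FF y m j) / β := by
  have hN : (0:ℝ) < N := by exact_mod_cast h.Npos
  have hβ := h.bpos
  have e1 : inner ℝ (ff w) (w (Sum.inr j)) = FF y 0 j / β := by
    unfold ff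
    rw [inner_smul_left, sum_inner]
    simp only [hw, GM_lr]
    simp only [conj_trivial, Finset.sum_const, Finset.card_univ, Fintype.card_fin, nsmul_eq_mul]
    field_simp
  have e2 : ∑ l ∈ Finset.range m, inner ℝ ((y l / β) • pv w l) (w (Sum.inr j))
      = (∑ l ∈ Finset.range m, y l * GG y l j) / β := by
    rw [Finset.sum_div]
    apply Finset.sum_congr rfl
    intro l hl
    rw [Finset.mem_range] at hl
    have hlT : l < T := by omega
    rw [inner_smul_left]
    unfold pv
    rw [dif_pos hlT, hw, GM_rr]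
    simp only [conj_trivial]
    ring
  unfold RR
  rw [inner_sub_left, sum_inner, e1, e2, ← sub_div, sum_GG]

lemma abs_inner_RR (h : GHyp y c S N β) (hP : PHyp y S β) (hw : ∀ i j, inner ℝ (w i) (w j) = GM y N T β i j)
    {m : ℕ} (hm : m ≤ T) (i : Fin N ⊕ Fin T) : |inner ℝ (RR y β w m) (w i)| ≤ y m / β := by
  have hβ := h.bpos
  have hy := h.hy
  rcases i with a | j
  · rw [inner_RR_inl h hw hm, abs_of_nonneg (div_nonneg (hP.nn m) (sq_nonneg _)),
      div_le_div_iff₀ (by positivity) hβ]
    have := mul_le_mul_of_nonneg_right (hP.le m) hβ.le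
    refine le_trans this (le_of_eq ?_)
    ring
  · rw [inner_RR_inr h hw hm, abs_div, abs_of_pos hβ]
    apply div_le_div_of_nonneg_right _ hβ.le
    split_ifs with hj
    · rw [abs_neg, abs_of_nonneg (SS_nonneg hy hj)]
      exact SS_le hy hj
    · push Not at hj
      rw [abs_of_nonneg (FF_nonneg hy hj (hP.f0 _))]
      exact FF_le hy hj

lemma inner_RR_self (h : GHyp y c S N β) (hw : ∀ i j, inner ℝ (w i) (w j) = GM y N T β i j)
    {m : ℕ} (hm : m < T) : inner ℝ (RR y β w m) (pv w m) = y m / β := by
  unfold pv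
  rw [dif_pos hm, inner_RR_inr h hw hm.le]
  simp only [lt_irrefl, if_false]
  rw [FF_self]

lemma norm_w (hw : ∀ i j, inner ℝ (w i) (w j) = GM y N T β i j) (i : Fin N ⊕ Fin T) : ‖w i‖ = 1 := by
  have h1 : ‖w i‖^2 = 1 := by
    rw [← real_inner_self_eq_norm_sq, hw]
    rcases i with a | j
    · rw [GM_ll, if_pos rfl]
    · rw [GM_rr]; unfold GG; rw [if_pos rfl]
  have h2 := norm_nonneg (w i)
  nlinarith

lemma norm_RR_sq (h : GHyp y c S N β) (hw : ∀ i j, inner ℝ (w i) (w j) = GM y N T β i j) {m : ℕ} (hm : m ≤ T) :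
    ‖RR y β w m‖^2 = (S - ∑ l ∈ Finset.range m, (y l)^2) / β^2 := by
  have hN : (0:ℝ) < N := by exact_mod_cast h.Npos
  have hβ := h.bpos
  have hS := S_pos h
  induction m with
  | zero =>
    rw [Finset.sum_range_zero, sub_zero]
    have e0 : RR y β w 0 = ff w := by unfold RR; simp
    rw [e0, ← real_inner_self_eq_norm_sq]
    have e1 : ∀ a : Fin N, inner ℝ (ff w) (w (Sum.inl a)) = 1/(N:ℝ) := by
      intro a
      unfold ff
      rw [inner_smul_left, sum_inner]
      simp only [hw, GM_ll]
      simp
    have e2 : inner ℝ (ff w) (ff w) = 1/(N:ℝ) * ∑ a : Fin N, inner ℝ (ff w) (w (Sum.inl a)) := by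
      conv_lhs => rhs; unfold ff
      rw [inner_smul_right, inner_sum]
    rw [e2]
    simp only [e1]
    rw [Finset.sum_const, Finset.card_univ, Fintype.card_fin, nsmul_eq_mul, h.beq]
    field_simp
  | succ n ih =>
    have hn : n < T := by omega
    rw [RR_succ, norm_sub_sq_real, inner_smul_right, inner_RR_self h hw hn, ih (by omega), norm_smul]
    have : ‖pv w n‖ = 1 := by
      unfold pv; rw [dif_pos hn]; exact norm_w hw _
    rw [this, Finset.sum_range_succ, Real.norm_eq_abs, mul_one, sq_abs]
    field_simp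
    ring

end Realize

section Main

variable {H : Type*} [NormedAddCommGroup H] [InnerProductSpace ℝ H] [CompleteSpace H]
variable {y : ℕ → ℝ} {c S : ℝ} {N : ℕ} {β : ℝ}

theorem exists_realization (hH : ¬ FiniteDimensional ℝ H) (h : GHyp y c S N β) (hP : PHyp y S β) {lam : ℝ}
    (hlam : 1 ≤ lam) (hnum : NumHyp y c S N β lam) (T : ℕ) :
    ∃ (D : Set H) (f : H) (φ r : ℕ → H), IsDictionary D ∧ QuasiOrthogonal lam D ∧ f ∈ A1 D ∧ IsPGA D f φ r ∧
      ∀ m ≤ T, ‖r m‖^2 = (S - ∑ l ∈ Finset.range m, (y l)^2) / β^2 := by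
  classical
  have hN : 0 < N := h.Npos
  have hNr : (0:ℝ) < N := by exact_mod_cast hN
  have hβ := h.bpos
  -- an orthonormal family
  obtain ⟨w0, b0, ⟨e0⟩⟩ := exists_basis H hH
  let e1 : Fin N ⊕ Fin T → H := fun i => b0 (e0 ((Sum.elim (fun a : Fin N => 2 * (a:ℕ)) (fun j : Fin T => 2 * (j:ℕ) + 1) i), 0))
  have he1 : Orthonormal ℝ e1 := by
    have hinj : Function.Injective (fun i : Fin N ⊕ Fin T =>
        e0 ((Sum.elim (fun a : Fin N => 2 * (a:ℕ)) (fun j : Fin T => 2 * (j:ℕ) + 1) i), 0)) := by
      intro i j hij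
      have := e0.injective hij
      simp only [Prod.mk.injEq, and_true] at this
      rcases i with a | a <;> rcases j with b | b
      · simp only [Sum.elim_inl] at this
        congr 1
        apply Fin.ext; omega
      · simp only [Sum.elim_inl, Sum.elim_inr] at this; omega
      · simp only [Sum.elim_inl, Sum.elim_inr] at this; omega
      · simp only [Sum.elim_inr] at this
        congr 1
        apply Fin.ext; omega
    exact b0.orthonormal.comp _ hinj
  obtain ⟨w, hw⟩ := exists_vectors (GM y N T β) (GM_psd h) e1 he1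
  set X : Submodule ℝ H := Submodule.span ℝ (Set.range w) with hX
  have : FiniteDimensional ℝ X := FiniteDimensional.span_of_finite ℝ (Set.finite_range w)
  obtain ⟨w2, b, -⟩ := exists_hilbertBasis ℝ Xᗮ
  set b' : w2 → H := fun i => ((b i : Xᗮ) : H) with hb'
  have hb'on : Orthonormal ℝ b' := by
    have := b.orthonormal.comp_linearIsometry (Xᗮ).subtypeₗᵢ
    exact this
  have hwX : ∀ i, w i ∈ X := fun i => Submodule.subset_span ⟨i, rfl⟩
  have horth : ∀ v ∈ X, ∀ j, inner ℝ v (b' j) = 0 := by
    intro v hv j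
    exact Submodule.inner_right_of_mem_orthogonal hv (b j).2
  have hQ : L1Crit lam (Sum.elim w b') := by
    apply L1Crit.sum hlam _ hb'on (fun i j => horth _ (hwX i) j)
    intro J cf
    exact key_l1 h hnum hw J cf
  set D : Set H := Set.range (Sum.elim w b') with hD
  have hwD : ∀ i, w i ∈ D := fun i => ⟨Sum.inl i, rfl⟩
  have hdict : IsDictionary D := by
    constructor
    · rintro g ⟨i, rfl⟩
      rcases i with i | i
      · exact norm_w hw i
      · exact hb'on.1 i
    · rw [Submodule.dense_iff_topologicalClosure_eq_top, eq_top_iff]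
      have hXle : X ≤ (Submodule.span ℝ D).topologicalClosure := by
        refine le_trans ?_ (Submodule.le_topologicalClosure _)
        apply Submodule.span_mono
        rintro x ⟨i, rfl⟩
        exact hwD i
      have hXo : Xᗮ ≤ (Submodule.span ℝ D).topologicalClosure := by
        intro v hv
        have hdense := b.dense_span
        have h1 : (⟨v, hv⟩ : Xᗮ) ∈ (Submodule.span ℝ (Set.range b)).topologicalClosure := by
          rw [hdense]; exact Submodule.mem_top
        have h2 : (⟨v, hv⟩ : Xᗮ) ∈ closure ((Submodule.span ℝ (Set.range b) : Submodule ℝ Xᗮ) : Set Xᗮ) := h1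
        have h3 : ((⟨v, hv⟩ : Xᗮ) : H) ∈ closure ((Submodule.span ℝ D : Submodule ℝ H) : Set H) := by
          have hmaps : Set.MapsTo (fun x : Xᗮ => (x : H)) ((Submodule.span ℝ (Set.range b) : Submodule ℝ Xᗮ) : Set Xᗮ)
              ((Submodule.span ℝ D : Submodule ℝ H) : Set H) := by
            intro x hx
            have : (x : H) ∈ (Submodule.span ℝ (Set.range b)).map (Xᗮ).subtype := ⟨x, hx, rfl⟩
            rw [Submodule.map_span] at this
            refine Submodule.span_mono ?_ this
            rintro z ⟨_, ⟨i, rfl⟩, rfl⟩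
            exact ⟨Sum.inr i, rfl⟩
          exact map_mem_closure continuous_subtype_val h2 hmaps
        exact h3
      rw [← Submodule.sup_orthogonal_of_hasOrthogonalProjection (K := X)]
      exact sup_le hXle hXo
  -- the greedy algorithm
  have hne : Nonempty (Fin N ⊕ Fin T) := ⟨Sum.inl ⟨0, hN⟩⟩
  have hpick : ∀ v : H, ∃ i, ∀ j, |inner ℝ v (w j)| ≤ |inner ℝ v (w i)| :=
    fun v => Finite.exists_max (fun i => |inner ℝ v (w i)|)
  choose pick hpick using hpick
  let ch : ℕ → H → H := fun m v => if m < T then pv w m else w (pick v)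
  let r : ℕ → H := fun m => Nat.rec (ff w) (fun m v => v - (inner ℝ v (ch m v) : ℝ) • ch m v) m
  have hr0 : r 0 = ff w := rfl
  have hrs : ∀ m, r (m+1) = r m - (inner ℝ (r m) (ch m (r m)) : ℝ) • ch m (r m) := fun m => rfl
  have hrR : ∀ m ≤ T, r m = RR y β w m := by
    intro m hm
    induction m with
    | zero => rw [hr0]; unfold RR; simp
    | succ n ih =>
      have hn : n < T := by omega
      rw [hrs, ih (by omega)]
      have hc : ch n (RR y β w n) = pv w n := by
        show (if n < T then pv w n else w (pick _)) = _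
        rw [if_pos hn]
      rw [hc, inner_RR_self h hw hn, RR_succ]
  have hchX : ∀ m v, ch m v ∈ X := by
    intro m v
    show (if m < T then pv w m else w (pick v)) ∈ X
    split_ifs with hm
    · unfold pv; rw [dif_pos hm]; exact hwX _
    · exact hwX _
  have hrX : ∀ m, r m ∈ X := by
    intro m
    induction m with
    | zero =>
      rw [hr0]; unfold ff
      exact Submodule.smul_mem _ _ (Submodule.sum_mem _ (fun a _ => hwX _))
    | succ n ih =>
      rw [hrs]
      exact Submodule.sub_mem _ ih (Submodule.smul_mem _ _ (hchX _ _))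
  have hchD : ∀ m v, ch m v ∈ D := by
    intro m v
    show (if m < T then pv w m else w (pick v)) ∈ D
    split_ifs with hm
    · unfold pv; rw [dif_pos hm]; exact hwD _
    · exact hwD _
  refine ⟨D, ff w, fun m => ch m (r m), r, hdict, hQ.quasiOrthogonal hlam, ?_, ⟨hr0, fun m => ⟨hchD _ _, ?_, hrs m⟩⟩, ?_⟩
  · apply subset_closure
    have hconv : Convex ℝ (convexHull ℝ (D ∪ -D)) := convex_convexHull _ _
    have e1 : ff w = ∑ a : Fin N, (1/(N:ℝ)) • w (Sum.inl a) := by unfold ff; rw [Finset.smul_sum]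
    rw [e1]
    refine hconv.sum_mem (fun _ _ => by positivity) ?_ (fun i _ => ?_)
    · simp only [Finset.sum_const, Finset.card_univ, Fintype.card_fin, nsmul_eq_mul]
      field_simp
    · apply subset_convexHull
      left
      exact hwD _
  · rintro g ⟨i, rfl⟩
    rcases i with i | j
    · simp only [Sum.elim_inl]
      by_cases hm : m < T
      · have hc : ch m (r m) = pv w m := by
          show (if m < T then pv w m else w (pick _)) = _
          rw [if_pos hm]
        rw [hc, hrR m hm.le, inner_RR_self h hw hm]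
        exact le_trans (abs_inner_RR h hP hw hm.le i) (le_abs_self _)
      · have hc : ch m (r m) = w (pick (r m)) := by
          show (if m < T then pv w m else w (pick _)) = _
          rw [if_neg hm]
        rw [hc]
        exact hpick _ _
    · simp only [Sum.elim_inr]
      rw [horth _ (hrX m) j, abs_zero]
      exact abs_nonneg _
  · intro m hm
    rw [hrR m hm]
    exact norm_RR_sq h hw hm

end Main

end Pool.Agent.MPd42a57.Exact
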