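import Pool.Agent.MPd42a57.UpperW
import Pool.Agent.MPd42a57.Defs

open Filter Topology Set MeasureTheory

namespace Pool.Agent.MPd42a57

section Decay

variable {a y b : ℕ → ℝ} {M : ℕ}

lemma SeqHyp.bmono (h : SeqHyp a y b M) : Monotone b := b_mono h.hy h.hb

lemma one_sub_rpow_neg {x e : ℝ} (hx1 : x < 1) (he : 0 < e) : 1 + e * x ≤ (1 - x) ^ (-e) := by
  have h1 : 1 - x ≤ Real.exp (-x) := by
    have := Real.add_one_le_exp (-x)
    linarith
  have h2 : (Real.exp (-x)) ^ (-e) ≤ (1 - x) ^ (-e) :=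
    Real.rpow_le_rpow_of_nonpos (by linarith) h1 (by linarith)
  refine le_trans ?_ h2
  rw [← Real.exp_mul]
  have := Real.add_one_le_exp (-x * -e)
  linarith

lemma decay_step {A A' B C mu : ℝ} (hA : 0 < A) (hA' : 0 < A') (hB : 0 < B) (hC : 0 < C) (hmu : 0 < mu)
    (h1 : B ^ mu * A ≤ C) (h2 : A' ≤ A - (A / B) ^ 2) :
    A ^ (-((mu + 2) / mu)) + ((mu + 2) / mu) * C ^ (-(2 / mu)) ≤ A' ^ (-((mu + 2) / mu)) := by
  set e := (mu + 2) / mu with he
  have he0 : 0 < e := by positivity
  have hee : e = 1 + 2 / mu := by rw [he]; field_simp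
  set c := C ^ (-(2 / mu)) with hc
  have hc0 : 0 < c := Real.rpow_pos_of_pos hC _
  -- lower bound of the decrement
  have h3 : c * A ^ e ≤ A / B ^ 2 := by
    rw [le_div_iff₀ (by positivity)]
    have h4 : B ^ 2 = (B ^ mu) ^ (2 / mu) := by
      rw [← Real.rpow_mul hB.le, mul_div_cancel₀ _ hmu.ne']
      norm_num
    have h5 : (B ^ mu) ^ (2 / mu) ≤ (C / A) ^ (2 / mu) :=
      Real.rpow_le_rpow (Real.rpow_nonneg hB.le _) (by rw [le_div_iff₀ hA]; exact h1) (by positivity)
    have h6 : (C / A) ^ (2 / mu) = C ^ (2 / mu) / A ^ (2 / mu) := Real.div_rpow hC.le hA.le _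
    have h7 : c * C ^ (2 / mu) = 1 := by
      rw [hc, ← Real.rpow_add hC]; simp
    have h8 : A ^ e = A * A ^ (2 / mu) := by
      rw [hee, Real.rpow_add hA, Real.rpow_one]
    have hA2 : 0 < A ^ (2 / mu) := Real.rpow_pos_of_pos hA _
    calc c * A ^ e * B ^ 2 ≤ c * A ^ e * (C ^ (2 / mu) / A ^ (2 / mu)) := by
          apply mul_le_mul_of_nonneg_left _ (by positivity)
          rw [h4, ← h6]; exact h5
      _ = (c * C ^ (2 / mu)) * A := by rw [h8]; field_simp
      _ = A := by rw [h7, one_mul]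
  have h9 : A' ≤ A * (1 - c * A ^ e) := by
    have : (A / B) ^ 2 = A * (A / B ^ 2) := by field_simp
    rw [this] at h2
    nlinarith
  have h10 : 0 < 1 - c * A ^ e := by
    by_contra hcon
    push Not at hcon
    nlinarith
  have h11 : (A * (1 - c * A ^ e)) ^ (-e) ≤ A' ^ (-e) :=
    Real.rpow_le_rpow_of_nonpos hA' h9 (by linarith)
  refine le_trans ?_ h11
  rw [Real.mul_rpow hA.le h10.le]
  have h12 := one_sub_rpow_neg (x := c * A ^ e) (by linarith) he0
  have h13 : 0 < A ^ (-e) := Real.rpow_pos_of_pos hA _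
  have h14 : A ^ (-e) * A ^ e = 1 := by rw [← Real.rpow_add hA]; simp
  calc A ^ (-e) + e * c = A ^ (-e) * (1 + e * (c * A ^ e)) := by
        rw [mul_add, mul_one]
        congr 1
        calc e * c = e * c * (A ^ (-e) * A ^ e) := by rw [h14, mul_one]
          _ = _ := by ring
    _ ≤ _ := mul_le_mul_of_nonneg_left h12 h13.le

lemma decay (h : SeqHyp a y b M) {mu C : ℝ} (hmu : 0 < mu) (hC : 0 < C)
    (hb : ∀ m ≤ M, (b m) ^ mu * a m ≤ C) (hM : 1 ≤ M) :
    a M ≤ (((mu + 2) / mu) * C ^ (-(2 / mu))) ^ (-(mu / (mu + 2))) * (M:ℝ) ^ (-(mu / (mu + 2))) := by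
  have hM0 : (0:ℝ) < M := by exact_mod_cast hM
  have hcc : 0 < ((mu + 2) / mu) * C ^ (-(2 / mu)) := by
    have := Real.rpow_pos_of_pos hC (-(2 / mu))
    positivity
  rcases (h.hpos M le_rfl).eq_or_lt with h0 | hpos
  · rw [← h0]; positivity
  have hposm : ∀ m ≤ M, 0 < a m := by
    intro m hm
    have hmono : ∀ d, m + d ≤ M → a (m + d) ≤ a m := by
      intro d
      induction d with
      | zero => intro _; simp
      | succ n ih =>
        intro hn
        rw [show m + (n+1) = m + n + 1 by ring, h.ha (m+n) (by omega)]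
        have := ih (by omega)
        nlinarith [sq_nonneg (y (m+n))]
    have := hmono (M - m) (by omega)
    rw [show m + (M - m) = M by omega] at this
    linarith
  have key : ∀ m ≤ M, (m:ℝ) * (((mu + 2) / mu) * C ^ (-(2 / mu))) ≤ (a m) ^ (-((mu + 2) / mu)) := by
    intro m
    induction m with
    | zero =>
      intro _
      simp only [Nat.cast_zero, zero_mul]
      exact Real.rpow_nonneg (hposm 0 (Nat.zero_le _)).le _
    | succ n ih =>
      intro hn
      have i1 := ih (by omega)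
      have hbn : 0 < b n := by linarith [one_le_b h n]
      have i2 : a n ≤ y n * b n := by
        have := h.hM n n le_rfl (by omega)
        linarith
      have i3 : a n / b n ≤ y n := by rw [div_le_iff₀ hbn]; exact i2
      have i4 := decay_step (hposm n (by omega)) (hposm (n+1) hn) hbn hC hmu (hb n (by omega))
        (by
          rw [h.ha n (by omega)]
          have : (a n / b n)^2 ≤ (y n)^2 :=
            pow_le_pow_left₀ (div_nonneg (hposm n (by omega)).le hbn.le) i3 2
          linarith)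
      push_cast
      linarith
  have h1 := key M le_rfl
  have h2 : (a M) = ((a M) ^ (-((mu + 2) / mu))) ^ (-(mu / (mu + 2))) := by
    rw [← Real.rpow_mul hpos.le]
    have : -((mu + 2) / mu) * -(mu / (mu + 2)) = 1 := by field_simp
    rw [this, Real.rpow_one]
  rw [h2, ← Real.mul_rpow hcc.le hM0.le]
  apply Real.rpow_le_rpow_of_nonpos (by positivity)
  · rw [mul_comm]; exact h1
  · have : 0 < mu / (mu + 2) := by positivity
    linarith

end Decay

section PGA

variable {H : Type*} [NormedAddCommGroup H] [InnerProductSpace ℝ H]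

lemma A1_inner_le {D : Set H} {f z : H} {Y : ℝ} (hf : f ∈ A1 D) (hz : ∀ g ∈ D, |inner ℝ z g| ≤ Y) :
    inner ℝ z f ≤ Y := by
  have hsub : A1 D ⊆ {w | inner ℝ z w ≤ Y} := by
    unfold A1
    apply closure_minimal
    · apply convexHull_min
      · rintro g (hg | hg)
        · exact (le_abs_self _).trans (hz g hg)
        · have := hz (-g) hg
          rw [inner_neg_right, abs_neg] at this
          exact (le_abs_self _).trans this
      · have : IsLinearMap ℝ (fun w : H => inner ℝ z w) :=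
          ⟨fun x y => inner_add_right z x y, fun c x => by rw [inner_smul_right]; rfl⟩
        exact convex_halfSpace_le this Y
    · exact isClosed_le (by fun_prop) continuous_const
  exact hsub hf

lemma A1_norm_le {D : Set H} (hD : ∀ g ∈ D, ‖g‖ = 1) {f : H} (hf : f ∈ A1 D) : ‖f‖ ≤ 1 := by
  have hsub : A1 D ⊆ Metric.closedBall (0:H) 1 := by
    unfold A1
    apply closure_minimal _ Metric.isClosed_closedBall
    apply convexHull_min _ (convex_closedBall _ _)
    rintro g (hg | hg)
    · simp [hD g hg]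
    · have := hD (-g) hg
      rw [norm_neg] at this
      simp [this]
  simpa using hsub hf

lemma seqHyp_of_PGA {D : Set H} (hD : ∀ g ∈ D, ‖g‖ = 1) {f : H} (hf : f ∈ A1 D) {φ r : ℕ → H}
    (h : IsPGA D f φ r) (M : ℕ) :
    SeqHyp (fun m => ‖r m‖ ^ 2) (fun m => |inner ℝ (r m) (φ m)|)
      (fun m => 1 + ∑ j ∈ Finset.range m, |inner ℝ (r j) (φ j)|) M := by
  obtain ⟨h0, hs⟩ := h
  refine ⟨fun m => abs_nonneg _, by simp, fun m => by rw [Finset.sum_range_succ]; ring, ?_, ?_,
    fun m _ => by positivity, ?_⟩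
  · intro m _
    obtain ⟨hφ, _, hr⟩ := hs m
    rw [hr, ← real_inner_self_eq_norm_sq, inner_sub_left, inner_sub_right, inner_sub_right,
      inner_smul_left, inner_smul_right, inner_smul_right, inner_smul_left,
      real_inner_self_eq_norm_sq, real_inner_self_eq_norm_sq, hD _ hφ, sq_abs,
      real_inner_comm (r m) (φ m)]
    simp only [conj_trivial]
    ring
  · rw [h0]
    have := A1_norm_le hD hf
    have h1 := norm_nonneg f
    nlinarith
  · intro l m hlm _
    set y : ℕ → ℝ := fun m => |inner ℝ (r m) (φ m)| with hy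
    have hb1 : ∀ l, ∀ z : H, ∀ Y : ℝ, (∀ g ∈ D, |inner ℝ z g| ≤ Y) →
        inner ℝ z (r l) ≤ Y * (1 + ∑ j ∈ Finset.range l, y j) := by
      intro l z Y hz
      induction l with
      | zero =>
        rw [h0]; simpa using A1_inner_le hf hz
      | succ n ih =>
        obtain ⟨hφ, _, hr⟩ := hs n
        rw [hr, inner_sub_right, inner_smul_right, Finset.sum_range_succ]
        have e1 := hz _ hφ
        have e2 : -(inner ℝ (r n) (φ n) * inner ℝ z (φ n)) ≤ y n * Y := by
          have := neg_abs_le (inner ℝ (r n) (φ n) * inner ℝ z (φ n))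
          rw [abs_mul] at this
          have h3 : |inner ℝ (r n) (φ n)| * |inner ℝ z (φ n)| ≤ y n * Y :=
            mul_le_mul_of_nonneg_left e1 (abs_nonneg _)
          linarith
        linarith
    have hb2 : ∀ d, ∀ z : H, ∀ Y : ℝ, (∀ g ∈ D, |inner ℝ z g| ≤ Y) →
        inner ℝ z (r l) - inner ℝ z (r (l + d)) ≤
          Y * (∑ j ∈ Finset.range (l + d), y j - ∑ j ∈ Finset.range l, y j) := by
      intro d z Y hz
      induction d with
      | zero => simp
      | succ n ih =>
        obtain ⟨hφ, _, hr⟩ := hs (l + n)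
        rw [show l + (n+1) = l + n + 1 by ring, hr, inner_sub_right, inner_smul_right,
          Finset.sum_range_succ]
        have e1 := hz _ hφ
        have e2 : (inner ℝ (r (l+n)) (φ (l+n)) * inner ℝ z (φ (l+n))) ≤ y (l+n) * Y := by
          have := le_abs_self (inner ℝ (r (l+n)) (φ (l+n)) * inner ℝ z (φ (l+n)))
          rw [abs_mul] at this
          have h3 : |inner ℝ (r (l+n)) (φ (l+n))| * |inner ℝ z (φ (l+n))| ≤ y (l+n) * Y :=
            mul_le_mul_of_nonneg_left e1 (abs_nonneg _)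
          linarith
        linarith
    have c1 := hb2 (m - l) (r l) (y l) (fun g hg => (hs l).2.1 g hg)
    have c2 := hb1 l (r m) (y m) (fun g hg => (hs m).2.1 g hg)
    rw [show l + (m - l) = m by omega, real_inner_self_eq_norm_sq] at c1
    rw [real_inner_comm] at c2
    have : y l * (1 + ∑ j ∈ Finset.range m, y j - (1 + ∑ j ∈ Finset.range l, y j))
      = y l * (∑ j ∈ Finset.range m, y j - ∑ j ∈ Finset.range l, y j) := by ring
    rw [this]
    linarith

end PGA

/-- Upper bound for the error of the pure greedy algorithm, every dictionary. -/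
theorem upper_bound {K mu q : ℝ} (hK : 1 < K) (hmu : 1 < mu) (hq : 0 < q)
    (h1 : (K - 1) * mu + mu * q = 1) (h2 : q * K ^ (mu + 1) = 1) (h3 : mu * Real.log K < 1) :
    ∃ C : ℝ, 0 < C ∧ ∀ (H : Type*) [NormedAddCommGroup H] [InnerProductSpace ℝ H] (D : Set H),
      (∀ g ∈ D, ‖g‖ = 1) → ∀ f ∈ A1 D, ∀ φ r : ℕ → H, IsPGA D f φ r → ∀ m : ℕ, 1 ≤ m →
        ‖r m‖ ≤ C * (m:ℝ) ^ (-(mu / (2 * (mu + 2)))) := by
  set C1 := max (K ^ mu) (((K - 1) + q * K ^ mu) / (q * (1 - mu * Real.log K))) with hC1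
  have hC1pos : 0 < C1 := lt_of_lt_of_le (Real.rpow_pos_of_pos (by linarith) _) (le_max_left _ _)
  set C2 := (((mu + 2) / mu) * C1 ^ (-(2 / mu))) ^ (-(mu / (mu + 2))) with hC2
  have hC2pos : 0 < C2 := by
    apply Real.rpow_pos_of_pos
    have := Real.rpow_pos_of_pos hC1pos (-(2 / mu))
    positivity
  refine ⟨Real.sqrt C2, Real.sqrt_pos.mpr hC2pos, ?_⟩
  intro H _ _ D hD f hf φ r hr m hm
  have hS := seqHyp_of_PGA hD hf hr m
  have hm0 : (0:ℝ) < m := by exact_mod_cast hm
  have hbm := hS.bmono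
  have hd := decay hS (show 0 < mu by linarith) hC1pos
    (fun j hj => by
      have := bdd hS hK hmu hq h1 h2 h3 _ (And.intro (one_le_b hS j) (hbm hj))
      rw [pw_b hS hj] at this
      exact this) hm
  rw [← hC2] at hd
  have h5 : Real.sqrt C2 * (m:ℝ) ^ (-(mu / (2 * (mu + 2)))) = Real.sqrt (C2 * (m:ℝ) ^ (-(mu / (mu + 2)))) := by
    rw [Real.sqrt_mul hC2pos.le]
    congr 1
    rw [Real.sqrt_eq_rpow, ← Real.rpow_mul hm0.le]
    congr 1
    field_simp
  rw [h5]
  exact Real.le_sqrt_of_sq_le hd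

end Pool.Agent.MPd42a57
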