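import Pool.Agent.MPd42a57.Num
import Pool.Agent.MPd42a57.Real
import Pool.Agent.MPd42a57.UpperDecay

open Filter Topology Set

universe u

namespace Pool.Agent.MPd42a57.Exact

variable {k : ℝ} {n0 : ℕ}

theorem pHyp (h : KHyp k) (hn : 10000 ≤ n0) : PHyp (yy k n0) (S0 k n0) (bb k n0) where
  f0 := fun j => FF_lower h (by omega) j
  nn := fun m => tail_yF_nonneg h (by omega) m
  le := fun m => by
    refine le_trans (tail_yF_le h (by omega) m) ?_
    exact mul_le_mul_of_nonneg_right (b0_le_bb h hn) (yy_pos m).le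

lemma log_le_one (h : KHyp k) : Real.log k ≤ 1 := by
  have hk := h.pos
  rw [Real.log_le_iff_le_exp hk]
  have := Real.exp_one_gt_d9
  have := h.hi
  linarith

/-- The upper bound. -/
theorem upper (h : KHyp k) : ∃ C > 0, ∀ (H : Type u) [NormedAddCommGroup H] [InnerProductSpace ℝ H],
    ∀ (lam : ℝ) (m : ℕ), 1 ≤ m → gamma H m lam ≤ C * (m:ℝ)^(-((k-1)/(2*(k+1)))) := by
  have hk := h.pos
  have hk1 := h.lo
  have hk2 := h.hi
  have hb := ss_bounds h
  have hksq := k_sq_gt h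
  have hK := k_rpow_one_sub h
  have hq := k_rpow_neg h
  have hs1 : 0 < 1 - ss k := by linarith
  have hKgt : 1 < k ^ (1 - ss k) := Real.one_lt_rpow (by linarith) hs1
  obtain ⟨C, hC, hub⟩ := upper_bound.{u} (K := k ^ (1 - ss k)) (mu := k - 1) (q := k ^ (- ss k)) hKgt
    (by linarith) (Real.rpow_pos_of_pos hk _)
    (by
      rw [hK, hq]
      have := hksq.ne'
      field_simp
      ring)
    (by
      rw [← Real.rpow_mul hk.le, ← Real.rpow_add hk]
      have : -ss k + (1 - ss k) * (k - 1 + 1) = 0 := by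
        have := k_one_sub h
        linarith
      rw [this, Real.rpow_zero])
    (by
      rw [Real.log_rpow hk]
      have h1 := log_le_one h
      have h2 : 0 ≤ Real.log k := Real.log_nonneg (by linarith)
      have h3 := one_sub_ss h
      have h4 : (k - 1) * ((1 - ss k) * Real.log k) ≤ (k - 1) * ((1 - ss k) * 1) := by
        apply mul_le_mul_of_nonneg_left _ (by linarith)
        exact mul_le_mul_of_nonneg_left h1 hs1.le
      have h5 : (k - 1) * (1 - ss k) < 1 := by nlinarith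
      linarith)
  refine ⟨C, hC, ?_⟩
  intro H _ _ lam m hm
  have e1 : (k - 1) / (2 * (k - 1 + 2)) = (k-1)/(2*(k+1)) := by
    congr 1; ring
  rw [e1] at hub
  unfold gamma
  apply Real.sSup_le
  · rintro x ⟨D, f, φ, r, hD, -, hf, hpga, rfl⟩
    exact hub H D hD.1 f hf φ r hpga m hm
  · positivity

/-- The lower bound. -/
theorem lower (h : KHyp k) : ∃ c > 0, ∀ (H : Type u) [NormedAddCommGroup H] [InnerProductSpace ℝ H]
    [CompleteSpace H], ¬ FiniteDimensional ℝ H → ∀ lam : ℝ, 12 ≤ lam → ∀ m : ℕ, 1 ≤ m →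
      c * (m:ℝ)^(-((k-1)/(2*(k+1)))) ≤ gamma H m lam := by
  have hk := h.pos
  have hk1 := h.lo
  have hb := ss_bounds h
  have hp : 0 < 2 * ss k - 1 := by linarith
  have hn : 10000 ≤ 10000 := le_rfl
  have hG := gHyp (n0 := 10000) h hn
  have hP := pHyp (n0 := 10000) h hn
  have hβ := hG.bpos
  have he : (k-1)/(2*(k+1)) = (2 * ss k - 1)/2 := by
    have := p_mul h
    have h3 : k + 1 ≠ 0 := by positivity
    rw [← this]
    field_simp
  have hr : 0 < (k-1)/(2*(k+1)) := by rw [he]; linarith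
  refine ⟨(1/(bb k 10000)) * (10002:ℝ)^(-((k-1)/(2*(k+1)))), by positivity, ?_⟩
  intro H _ _ _ hH lam hlam m hm
  obtain ⟨D, f, φ, r, h1, h2, h3, h4, h5⟩ := exists_realization hH hG hP (by linarith)
    (numHyp (n0 := 10000) h hn hlam) m
  have hle : ‖r m‖ ≤ gamma H m lam := by
    apply le_csSup (bddAbove_gamma m lam)
    exact ⟨D, f, φ, r, h1, h2, h3, h4, rfl⟩
  refine le_trans ?_ hle
  have hm1 : (1:ℝ) ≤ m := by exact_mod_cast hm
  have hm0 : (0:ℝ) < m := by linarith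
  have h6 := h5 m le_rfl
  have h7 := tail_ge (n0 := 10000) h (by norm_num) m
  set τ := S0 k 10000 - ∑ l ∈ Finset.range m, (yy k 10000 l)^2 with hτ
  have hτpos : 0 ≤ τ := tail_nonneg hG (Finset.range m)
  have h8 : (((10000:ℕ):ℝ)+1+m)^(-(2 * ss k - 1)) ≤ τ := by
    refine le_trans h7 ?_
    nlinarith
  have h9 : (10002 * (m:ℝ))^(-(2 * ss k - 1)) ≤ (((10000:ℕ):ℝ)+1+m)^(-(2 * ss k - 1)) := by
    apply Real.rpow_le_rpow_of_nonpos (by positivity) _ (by linarith)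
    push_cast
    linarith
  have h10 : ((1/(bb k 10000)) * (10002:ℝ)^(-((k-1)/(2*(k+1)))) * (m:ℝ)^(-((k-1)/(2*(k+1)))))^2 ≤ ‖r m‖^2 := by
    rw [h6, mul_assoc, ← Real.mul_rpow (by norm_num) hm0.le, mul_pow, ← Real.rpow_natCast
      ((10002 * (m:ℝ))^(-((k-1)/(2*(k+1))))), ← Real.rpow_mul (by positivity), he]
    have e1 : -((2 * ss k - 1)/2) * ((2:ℕ):ℝ) = -(2 * ss k - 1) := by push_cast; ring
    rw [e1, div_pow, one_pow, div_mul_eq_mul_div, one_mul]
    apply div_le_div_of_nonneg_right _ (sq_nonneg _)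
    linarith
  exact (abs_le_of_sq_le_sq' h10 (norm_nonneg _)).2

theorem exact_order : ∃ k : ℝ, 99/46 < k ∧ k < 127/59 ∧ k ^ ((2*k+1)/(k+1)) = k^2 - 1 ∧
    ∃ c C : ℝ, 0 < c ∧ 0 < C ∧
      (∀ (H : Type u) [NormedAddCommGroup H] [InnerProductSpace ℝ H] [CompleteSpace H],
        ∀ lam : ℝ, ∀ m : ℕ, 1 ≤ m → gamma H m lam ≤ C * (m:ℝ)^(-((k-1)/(2*(k+1))))) ∧
      (∀ (H : Type u) [NormedAddCommGroup H] [InnerProductSpace ℝ H] [CompleteSpace H],
        ¬ FiniteDimensional ℝ H → ∀ lam : ℝ, 12 ≤ lam → ∀ m : ℕ, 1 ≤ m →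
          c * (m:ℝ)^(-((k-1)/(2*(k+1)))) ≤ gamma H m lam) := by
  obtain ⟨k, h⟩ := exists_k
  obtain ⟨C, hC, hup⟩ := upper.{u} h
  obtain ⟨c, hc, hlo⟩ := lower.{u} h
  exact ⟨k, h.lo, h.hi, h.eq, c, C, hc, hC, fun H _ _ _ lam m hm => hup H lam m hm, hlo⟩

end Pool.Agent.MPd42a57.Exact
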