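import Pool.Agent.MPd42a57.Const

open MeasureTheory Set Filter Topology

namespace Pool.Agent.MPd42a57.Exact

/-- The kernel. -/
noncomputable def kap (s L τ : ℝ) : ℝ :=
  if |τ| < L then s * Real.exp (|τ|/2) else -(s * Real.exp (-(|τ|/2)))

lemma kap_measurable (s L : ℝ) : Measurable (kap s L) := by
  unfold kap
  apply Measurable.ite
  · exact measurableSet_lt measurable_id.abs measurable_const
  · fun_prop
  · fun_prop

lemma kap_abs_le {s L : ℝ} (hs : 0 ≤ s) (hL : 0 ≤ L) (τ : ℝ) :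
    |kap s L τ| ≤ s * Real.exp L * Real.exp (-(|τ|/2)) := by
  unfold kap
  split_ifs with h
  · rw [abs_of_nonneg (by positivity), mul_assoc, ← Real.exp_add]
    apply mul_le_mul_of_nonneg_left _ hs
    apply Real.exp_le_exp.mpr
    linarith
  · rw [abs_neg, abs_of_nonneg (by positivity), mul_assoc]
    apply mul_le_mul_of_nonneg_left _ hs
    have : 1 ≤ Real.exp L := Real.one_le_exp hL
    have h2 := Real.exp_pos (-(|τ|/2))
    nlinarith

lemma kap_abs_le' {s L : ℝ} (hs : 0 ≤ s) (τ : ℝ) : |kap s L τ| ≤ s * Real.exp (|τ|/2) := by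
  unfold kap
  split_ifs with h
  · rw [abs_of_nonneg (by positivity)]
  · rw [abs_neg, abs_of_nonneg (by positivity)]
    apply mul_le_mul_of_nonneg_left _ hs
    apply Real.exp_le_exp.mpr
    linarith [abs_nonneg τ]

lemma kap_abs_const {s L : ℝ} (hs : 0 ≤ s) (hL : 0 ≤ L) (τ : ℝ) : |kap s L τ| ≤ s * Real.exp L := by
  refine le_trans (kap_abs_le hs hL τ) ?_
  have h1 : Real.exp (-(|τ|/2)) ≤ 1 := by
    rw [Real.exp_le_one_iff]; linarith [abs_nonneg τ]
  have h2 : 0 ≤ s * Real.exp L := by positivity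
  nlinarith

lemma integrable_exp_half : Integrable (fun τ : ℝ => Real.exp (-(|τ|/2))) := by
  apply Integrable.mono' (integrable_inv_one_add_sq.const_mul 8)
  · exact (by fun_prop : Measurable (fun τ : ℝ => Real.exp (-(|τ|/2)))).aestronglyMeasurable
  · filter_upwards with τ
    rw [Real.norm_of_nonneg (Real.exp_pos _).le, Real.exp_neg, ← div_eq_mul_inv,
      inv_eq_one_div, div_le_div_iff₀ (Real.exp_pos _) (by positivity)]
    have h := Real.quadratic_le_exp_of_nonneg (show 0 ≤ |τ|/2 by positivity)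
    have h2 := sq_abs τ
    nlinarith [abs_nonneg τ]

lemma kap_integrable {s L : ℝ} (hs : 0 ≤ s) (hL : 0 ≤ L) : Integrable (kap s L) := by
  apply Integrable.mono' (integrable_exp_half.const_mul (s * Real.exp L))
  · exact (kap_measurable s L).aestronglyMeasurable
  · filter_upwards with τ
    rw [Real.norm_eq_abs]
    exact kap_abs_le hs hL τ

lemma hasDerivAt_near (ω x : ℝ) : HasDerivAt
    (fun x : ℝ => Real.exp (x/2) * (Real.cos (ω*x) / 2 + ω * Real.sin (ω*x)) / (1/4 + ω^2))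
    (Real.exp (x/2) * Real.cos (ω*x)) x := by
  have h1 : HasDerivAt (fun x : ℝ => x/2) (1/2) x := by
    simpa using (hasDerivAt_id x).div_const 2
  have h2 : HasDerivAt (fun x : ℝ => ω*x) ω x := by
    simpa using (hasDerivAt_id x).const_mul ω
  have h3 := h1.exp
  have h4 := h2.cos
  have h5 := h2.sin
  have h6 := (h3.mul ((h4.div_const 2).add (h5.const_mul ω))).div_const (1/4 + ω^2)
  refine h6.congr_deriv ?_
  have : (1/4 + ω^2 : ℝ) ≠ 0 := by positivity
  simp only [Pi.add_apply, Pi.neg_apply]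
  field_simp
  ring

lemma hasDerivAt_far (ω x : ℝ) : HasDerivAt
    (fun x : ℝ => Real.exp (-(x/2)) * (-(Real.cos (ω*x) / 2) + ω * Real.sin (ω*x)) / (1/4 + ω^2))
    (Real.exp (-(x/2)) * Real.cos (ω*x)) x := by
  have h1 : HasDerivAt (fun x : ℝ => -(x/2)) (-(1/2)) x := by
    simpa using ((hasDerivAt_id x).div_const 2).fun_neg
  have h2 : HasDerivAt (fun x : ℝ => ω*x) ω x := by
    simpa using (hasDerivAt_id x).const_mul ω
  have h3 := h1.exp
  have h4 := h2.cos
  have h5 := h2.sin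
  have h6 := (h3.mul (((h4.div_const 2).neg).add (h5.const_mul ω))).div_const (1/4 + ω^2)
  refine h6.congr_deriv ?_
  have : (1/4 + ω^2 : ℝ) ≠ 0 := by positivity
  simp only [Pi.add_apply, Pi.neg_apply]
  field_simp
  ring

lemma integral_near (ω L : ℝ) :
    ∫ x in (0:ℝ)..L, Real.exp (x/2) * Real.cos (ω*x)
      = (Real.exp (L/2) * (Real.cos (ω*L) / 2 + ω * Real.sin (ω*L)) - 1/2) / (1/4 + ω^2) := by
  rw [intervalIntegral.integral_eq_sub_of_hasDerivAt (fun x _ => hasDerivAt_near ω x)]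
  · simp; ring
  · apply Continuous.intervalIntegrable
    fun_prop

lemma tendsto_far (ω : ℝ) : Tendsto
    (fun x : ℝ => Real.exp (-(x/2)) * (-(Real.cos (ω*x) / 2) + ω * Real.sin (ω*x)) / (1/4 + ω^2))
    atTop (𝓝 0) := by
  have h1 : Tendsto (fun x : ℝ => Real.exp (-(x/2))) atTop (𝓝 0) := by
    apply Real.tendsto_exp_neg_atTop_nhds_zero.comp
    exact tendsto_id.atTop_div_const (by norm_num)
  have h2 : Tendsto (fun x : ℝ => (1/2 + |ω|) / (1/4 + ω^2) * Real.exp (-(x/2))) atTop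
      (𝓝 ((1/2 + |ω|) / (1/4 + ω^2) * 0)) := h1.const_mul _
  rw [mul_zero] at h2
  apply squeeze_zero_norm _ h2
  intro x
  rw [norm_div, norm_mul, Real.norm_of_nonneg (Real.exp_pos _).le,
    Real.norm_of_nonneg (show (0:ℝ) ≤ 1/4 + ω^2 by positivity), Real.norm_eq_abs]
  have h3 : |-(Real.cos (ω*x) / 2) + ω * Real.sin (ω*x)| ≤ 1/2 + |ω| := by
    refine le_trans (abs_add_le _ _) ?_
    rw [abs_neg, abs_div, abs_mul, abs_two]
    have h4 := Real.abs_cos_le_one (ω*x)
    have h5 := Real.abs_sin_le_one (ω*x)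
    have h6 := abs_nonneg ω
    nlinarith
  have h7 : (0:ℝ) < 1/4 + ω^2 := by positivity
  rw [div_le_iff₀ h7]
  have h8 : (1/2 + |ω|) / (1/4 + ω^2) * Real.exp (-(x/2)) * (1/4 + ω^2) = Real.exp (-(x/2)) * (1/2 + |ω|) := by
    field_simp
  rw [h8]
  exact mul_le_mul_of_nonneg_left h3 (Real.exp_pos _).le

lemma integrable_far (ω : ℝ) : Integrable (fun x : ℝ => Real.exp (-(|x|/2)) * Real.cos (ω*x)) := by
  apply Integrable.mono' integrable_exp_half
  · exact (by fun_prop : Measurable (fun x : ℝ => Real.exp (-(|x|/2)) * Real.cos (ω*x))).aestronglyMeasurable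
  · filter_upwards with x
    rw [norm_mul, Real.norm_of_nonneg (Real.exp_pos _).le, Real.norm_eq_abs]
    have h4 := Real.abs_cos_le_one (ω*x)
    have := Real.exp_pos (-(|x|/2))
    nlinarith

lemma integral_far (ω : ℝ) {L : ℝ} (hL : 0 ≤ L) :
    ∫ x in Ioi L, Real.exp (-(x/2)) * Real.cos (ω*x)
      = - (Real.exp (-(L/2)) * (-(Real.cos (ω*L) / 2) + ω * Real.sin (ω*L))) / (1/4 + ω^2) := by
  have hint : IntegrableOn (fun x : ℝ => Real.exp (-(x/2)) * Real.cos (ω*x)) (Ioi L) := by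
    apply (integrable_far ω).integrableOn.congr_fun _ measurableSet_Ioi
    intro x hx
    simp only
    rw [abs_of_nonneg (by linarith [hx.out])]
  rw [integral_Ioi_of_hasDerivAt_of_tendsto (hasDerivAt_far ω L).continuousAt.continuousWithinAt
    (fun x _ => hasDerivAt_far ω x) hint (tendsto_far ω)]
  ring

/-- The cosine transform of the kernel. -/
lemma kap_cos {s L : ℝ} (hs : 0 ≤ s) (hL : 0 ≤ L) (ω : ℝ) :
    ∫ τ, kap s L τ * Real.cos (ω * τ)
      = 2 * s * ((Real.exp (L/2) * (Real.cos (ω*L) / 2 + ω * Real.sin (ω*L)) - 1/2) / (1/4 + ω^2)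
        + (Real.exp (-(L/2)) * (-(Real.cos (ω*L) / 2) + ω * Real.sin (ω*L))) / (1/4 + ω^2)) := by
  set f : ℝ → ℝ := fun x => (if x < L then s * Real.exp (x/2) else -(s * Real.exp (-(x/2)))) * Real.cos (ω*x)
    with hf
  have e1 : ∀ τ, kap s L τ * Real.cos (ω * τ) = f |τ| := by
    intro τ
    rw [hf]
    unfold kap
    simp only
    congr 1
    rcases abs_choice τ with h | h
    · rw [h]
    · rw [h, mul_neg, Real.cos_neg]
  have hfint : Integrable (fun τ => f |τ|) := by
    simp_rw [← e1]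
    apply (kap_integrable hs hL).mono
    · exact ((kap_measurable s L).mul (by fun_prop)).aestronglyMeasurable
    · filter_upwards with x
      rw [norm_mul]
      have h4 := Real.abs_cos_le_one (ω*x)
      rw [← Real.norm_eq_abs] at h4
      have := norm_nonneg (kap s L x)
      nlinarith
  have hfOn : IntegrableOn f (Ioi 0) := by
    apply hfint.integrableOn.congr_fun _ measurableSet_Ioi
    intro x hx
    simp only
    rw [abs_of_nonneg hx.out.le]
  simp_rw [e1]
  rw [integral_comp_abs]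
  rw [← Ioc_union_Ioi_eq_Ioi hL, setIntegral_union (Ioc_disjoint_Ioi le_rfl) measurableSet_Ioi
    (hfOn.mono_set Ioc_subset_Ioi_self) (hfOn.mono_set (Ioi_subset_Ioi hL))]
  have e2 : ∫ x in Ioc 0 L, f x = s * ∫ x in (0:ℝ)..L, Real.exp (x/2) * Real.cos (ω*x) := by
    rw [integral_Ioc_eq_integral_Ioo, intervalIntegral.integral_of_le hL, integral_Ioc_eq_integral_Ioo,
      ← integral_const_mul]
    apply setIntegral_congr_fun measurableSet_Ioo
    intro x hx
    rw [hf]
    simp only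
    rw [if_pos hx.2]; ring
  have e3 : ∫ x in Ioi L, f x = -s * ∫ x in Ioi L, Real.exp (-(x/2)) * Real.cos (ω*x) := by
    rw [← integral_const_mul]
    apply setIntegral_congr_fun measurableSet_Ioi
    intro x hx
    rw [hf]
    simp only
    rw [if_neg (not_lt.mpr hx.out.le)]; ring
  rw [e2, e3, integral_near, integral_far ω hL]
  ring

/-- The lower bound for the symbol. -/
lemma symbol_nonneg {s L A B : ℝ} (hL0 : 0 < L) (hL : L ≤ 77/100) (hs : s ≤ 0.6828) (hA0 : 0.5329 ≤ A)
    (hA : A ≤ 0.5366) (_hsA : s - A ≤ 0.15) (hB0 : 0 ≤ B) (hB : B ≤ 2.935) {ω : ℝ} (hω : 0 ≤ ω) :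
    0 ≤ 0.6 * (ω^2 + 1/4) - s + A * Real.cos (ω*L) + B * (ω * Real.sin (ω*L)) := by
  set θ := ω * L with hθ
  have hθ0 : 0 ≤ θ := by positivity
  rcases le_total θ Real.pi with h1 | h1
  · have hsin : 0 ≤ Real.sin θ := Real.sin_nonneg_of_nonneg_of_le_pi hθ0 h1
    have hcos := Real.one_sub_sq_div_two_le_cos (x := θ)
    have h2 : 0 ≤ B * (ω * Real.sin θ) := by positivity
    have h3 : A * (1 - θ^2/2) ≤ A * Real.cos θ := mul_le_mul_of_nonneg_left hcos (by linarith)
    have h4 : θ^2 ≤ 0.6 * ω^2 := by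
      rw [hθ, mul_pow]
      have : L^2 ≤ 0.6 := by nlinarith
      nlinarith [sq_nonneg ω]
    have h5 : A * θ^2 ≤ 0.5366 * (0.6 * ω^2) := by
      apply mul_le_mul hA h4 (sq_nonneg _) (by norm_num)
    nlinarith [sq_nonneg ω]
  · have hcos := Real.neg_one_le_cos θ
    have h3 : -A ≤ A * Real.cos θ := by nlinarith
    have hL2 : 0 < L^2 := by positivity
    suffices hsuff : 0 ≤ (0.6 * (ω^2 + 1/4) - s - A + B * (ω * Real.sin θ)) * L^2 by
      have := nonneg_of_mul_nonneg_left hsuff hL2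
      linarith
    have hL2' : L^2 ≤ 0.593 := by nlinarith
    have e1 : (0.6 * (ω^2 + 1/4) - s - A + B * (ω * Real.sin θ)) * L^2
        = 0.6 * θ^2 + (0.15 - s - A) * L^2 + B * L * (θ * Real.sin θ) := by
      rw [hθ]; ring
    rw [e1]
    have e2 : -0.6346 ≤ (0.15 - s - A) * L^2 := by nlinarith
    have hBL : B * L ≤ 2.26 := by nlinarith
    have hBL0 : 0 ≤ B * L := by positivity
    have hpi := Real.pi_gt_d2
    rcases le_total θ 4.1 with h4 | h4
    · have h5 : -(θ - Real.pi) ≤ Real.sin θ := by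
        have h6 : Real.sin θ = - Real.sin (θ - Real.pi) := by
          rw [Real.sin_sub_pi, neg_neg]
        have h7 := Real.sin_le (show 0 ≤ θ - Real.pi by linarith)
        linarith
      have h5' : -(θ - 3.14) ≤ Real.sin θ := by linarith
      have h8 : θ * (-(θ - 3.14)) ≤ θ * Real.sin θ := mul_le_mul_of_nonneg_left h5' hθ0
      have h9 : -(2.26 * (θ * (θ - 3.14))) ≤ B * L * (θ * Real.sin θ) := by
        have h10 : B * L * (θ * (-(θ - 3.14))) ≤ B * L * (θ * Real.sin θ) :=
          mul_le_mul_of_nonneg_left h8 hBL0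
        have h11 : B * L * (θ * (θ - 3.14)) ≤ 2.26 * (θ * (θ - 3.14)) :=
          mul_le_mul_of_nonneg_right hBL (mul_nonneg hθ0 (by linarith))
        linarith
      nlinarith [mul_nonneg (show 0 ≤ θ - 3.14 by linarith) (show 0 ≤ 4.1 - θ by linarith)]
    · have h5 := Real.neg_one_le_sin θ
      have h8 : θ * (-1) ≤ θ * Real.sin θ := mul_le_mul_of_nonneg_left h5 hθ0
      have h10 : B * L * (θ * (-1)) ≤ B * L * (θ * Real.sin θ) :=
        mul_le_mul_of_nonneg_left h8 hBL0
      have h11 : B * L * θ ≤ 2.26 * θ := mul_le_mul_of_nonneg_right hBL hθ0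
      nlinarith

/-- `c = 0.4`: the cosine transform is at least `-0.6`. -/
lemma kap_cos_ge {k : ℝ} (h : KHyp k) (ω : ℝ) :
    -0.6 ≤ ∫ τ, kap (ss k) (Real.log k) τ * Real.cos (ω * τ) := by
  have hb := ss_bounds h
  have hk := h.pos
  have hk1 : 1 < k := by linarith [h.lo]
  have hL0 : 0 < Real.log k := Real.log_pos hk1
  wlog hω : 0 ≤ ω generalizing ω
  · have := this (-ω) (by linarith)
    simpa [neg_mul, Real.cos_neg] using this
  rw [kap_cos (by linarith) hL0.le]
  set E := Real.exp (Real.log k / 2) with hE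
  have hE2 : E^2 = k := by
    rw [hE, ← Real.exp_nat_mul]
    rw [show ((2:ℕ):ℝ) * (Real.log k / 2) = Real.log k by push_cast; ring, Real.exp_log hk]
  have hEpos : 0 < E := Real.exp_pos _
  have hEneg : Real.exp (-(Real.log k / 2)) = E⁻¹ := Real.exp_neg _
  rw [hEneg]
  have hElo : 1.467 ≤ E := by
    by_contra hc
    push Not at hc
    have := h.lo
    nlinarith
  have hEhi : E ≤ 1.4672 := by
    by_contra hc
    push Not at hc
    have := h.hi
    nlinarith
  have hL : Real.log k ≤ 77/100 := by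
    rw [Real.log_le_iff_le_exp hk]
    have h1 := Real.sum_le_exp_of_nonneg (show (0:ℝ) ≤ 77/100 by norm_num) 5
    refine le_trans ?_ h1
    simp only [Finset.sum_range_succ, Finset.sum_range_zero, Nat.factorial]
    have := h.hi
    norm_num at this ⊢
    linarith
  have hEi1 : E⁻¹ ≤ 0.6817 := by
    rw [inv_le_comm₀ hEpos (by norm_num)]
    refine le_trans ?_ hElo
    norm_num
  have hEi2 : 0.6815 ≤ E⁻¹ := by
    rw [le_inv_comm₀ (by norm_num) hEpos]
    refine le_trans hEhi ?_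
    norm_num
  have hA1 : 0.7853 ≤ E - E⁻¹ := by linarith
  have hA2 : E - E⁻¹ ≤ 0.7857 := by linarith
  have hs1 : 0.6827 < ss k := lt_trans (by norm_num) hb.1
  have hs2 : ss k < 0.6828 := lt_trans hb.2 (by norm_num)
  have key := symbol_nonneg (s := ss k) (L := Real.log k) (A := ss k * (E - E⁻¹)) (B := 2 * ss k * (E + E⁻¹))
    hL0 hL hs2.le (by nlinarith) (by nlinarith) (by nlinarith) (by positivity) (by nlinarith) hω
  have hden : 0 < 1/4 + ω^2 := by positivity
  have e1 : 2 * ss k * ((E * (Real.cos (ω*Real.log k) / 2 + ω * Real.sin (ω*Real.log k)) - 1/2) / (1/4 + ω^2)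
        + (E⁻¹ * (-(Real.cos (ω*Real.log k) / 2) + ω * Real.sin (ω*Real.log k))) / (1/4 + ω^2))
      = (ss k * (E - E⁻¹) * Real.cos (ω*Real.log k) + 2 * ss k * (E + E⁻¹) * (ω * Real.sin (ω*Real.log k)) - ss k)
        / (1/4 + ω^2) := by
    field_simp; ring
  rw [e1, le_div_iff₀ hden]
  linarith

end Pool.Agent.MPd42a57.Exact
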