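import Pool.Agent.MPd42a57.FourierA

open MeasureTheory Set Filter Topology
open scoped SchwartzMap FourierTransform InnerProductSpace

namespace Pool.Agent.MPd42a57.Exact

/-- Translation. -/
def trMap (τ : ℝ) : C(ℝ, ℝ) := ⟨fun x => x + τ, by fun_prop⟩

lemma trMap_mp (τ : ℝ) : MeasurePreserving (trMap τ) (volume : Measure ℝ) volume :=
  measurePreserving_add_right volume τ

/-- Translation on `L²`. -/
noncomputable def Tr (τ : ℝ) (v : Lp ℂ 2 (volume : Measure ℝ)) : Lp ℂ 2 (volume : Measure ℝ) :=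
  Lp.compMeasurePreserving (trMap τ) (trMap_mp τ) v

lemma Tr_norm (τ : ℝ) (v : Lp ℂ 2 (volume : Measure ℝ)) : ‖Tr τ v‖ = ‖v‖ :=
  Lp.norm_compMeasurePreserving _ _

lemma trMap_continuous : Continuous trMap := by
  apply ContinuousMap.continuous_of_continuous_uncurry
  show Continuous fun p : ℝ × ℝ => p.2 + p.1
  fun_prop

lemma Tr_continuous_left (v : Lp ℂ 2 (volume : Measure ℝ)) : Continuous (fun τ => Tr τ v) :=
  Continuous.compMeasurePreservingLp continuous_const trMap_continuous trMap_mp (by simp)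

lemma Tr_continuous_right (τ : ℝ) : Continuous (Tr τ) :=
  (Lp.isometry_compMeasurePreserving (trMap_mp τ)).continuous

lemma Tr_schwartz (τ : ℝ) (φ : 𝓢(ℝ, ℂ)) :
    Tr τ (φ.toLp 2) = (φ.compSubConstCLM ℂ (-τ)).toLp 2 := by
  apply Lp.ext
  have h1 := Lp.coeFn_compMeasurePreserving (φ.toLp 2) (trMap_mp τ)
  have h2 := SchwartzMap.coeFn_toLp (φ.compSubConstCLM ℂ (-τ)) 2 (volume : Measure ℝ)
  have h3 := (trMap_mp τ).quasiMeasurePreserving.ae_eq_comp (SchwartzMap.coeFn_toLp φ 2 (volume : Measure ℝ))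
  filter_upwards [h1, h2, h3] with x e1 e2 e3
  unfold Tr
  rw [e1, e3, e2]
  simp [trMap]

lemma fourier_translate (τ : ℝ) (φ : 𝓢(ℝ, ℂ)) (ξ : ℝ) :
    𝓕 (φ.compSubConstCLM ℂ (-τ)) ξ = (Real.fourierChar (τ * ξ) : ℂ) * 𝓕 φ ξ := by
  have h := VectorFourier.fourierIntegral_comp_add_right Real.fourierChar (volume : Measure ℝ)
    (innerₗ ℝ) (φ : ℝ → ℂ) τ
  have h2 := congrFun h ξ
  have e1 : (𝓕 (φ.compSubConstCLM ℂ (-τ)) : 𝓢(ℝ, ℂ)) ξ
      = VectorFourier.fourierIntegral Real.fourierChar (volume : Measure ℝ) (innerₗ ℝ)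
        ((φ : ℝ → ℂ) ∘ fun v => v + τ) ξ := by
    rw [SchwartzMap.fourier_coe]
    show VectorFourier.fourierIntegral Real.fourierChar (volume : Measure ℝ) (innerₗ ℝ)
      (φ.compSubConstCLM ℂ (-τ)) ξ = _
    congr 1
    ext x
    simp
  rw [e1, h2, Circle.smul_def, smul_eq_mul]
  congr 2
  simp only [innerₗ_apply_apply, RCLike.inner_apply, conj_trivial, mul_comm]
  try rfl

/-- The autocorrelation of a Schwartz function. -/
lemma inner_Tr_schwartz (τ : ℝ) (φ : 𝓢(ℝ, ℂ)) :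
    (⟪φ.toLp 2, Tr τ (φ.toLp 2)⟫_ℂ : ℂ).re = ∫ ξ, ‖(𝓕 φ : 𝓢(ℝ, ℂ)) ξ‖^2 * Real.cos (2 * Real.pi * ξ * τ) := by
  rw [Tr_schwartz, ← SchwartzMap.inner_fourier_toL2_eq, L2.inner_def]
  have e1 : ∫ ξ, ⟪((𝓕 φ : 𝓢(ℝ, ℂ)).toLp 2 : Lp ℂ 2 (volume : Measure ℝ)) ξ,
      ((𝓕 (φ.compSubConstCLM ℂ (-τ)) : 𝓢(ℝ, ℂ)).toLp 2 : Lp ℂ 2 (volume : Measure ℝ)) ξ⟫_ℂ
      = ∫ ξ, ⟪(𝓕 φ : 𝓢(ℝ, ℂ)) ξ, (𝓕 (φ.compSubConstCLM ℂ (-τ)) : 𝓢(ℝ, ℂ)) ξ⟫_ℂ := by
    apply integral_congr_ae
    filter_upwards [SchwartzMap.coeFn_toLp (𝓕 φ : 𝓢(ℝ, ℂ)) 2 (volume : Measure ℝ),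
      SchwartzMap.coeFn_toLp (𝓕 (φ.compSubConstCLM ℂ (-τ)) : 𝓢(ℝ, ℂ)) 2 (volume : Measure ℝ)] with x h1 h2
    rw [h1, h2]
  rw [e1]
  have hint : Integrable (fun ξ => ⟪(𝓕 φ : 𝓢(ℝ, ℂ)) ξ, (𝓕 (φ.compSubConstCLM ℂ (-τ)) : 𝓢(ℝ, ℂ)) ξ⟫_ℂ)
      (volume : Measure ℝ) := by
    have := L2.integrable_inner (𝕜 := ℂ) ((𝓕 φ : 𝓢(ℝ, ℂ)).toLp 2 : Lp ℂ 2 (volume : Measure ℝ))
      ((𝓕 (φ.compSubConstCLM ℂ (-τ)) : 𝓢(ℝ, ℂ)).toLp 2)
    apply this.congr
    filter_upwards [SchwartzMap.coeFn_toLp (𝓕 φ : 𝓢(ℝ, ℂ)) 2 (volume : Measure ℝ),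
      SchwartzMap.coeFn_toLp (𝓕 (φ.compSubConstCLM ℂ (-τ)) : 𝓢(ℝ, ℂ)) 2 (volume : Measure ℝ)] with x h1 h2
    rw [h1, h2]
  have e2 : (∫ ξ, ⟪(𝓕 φ : 𝓢(ℝ, ℂ)) ξ, (𝓕 (φ.compSubConstCLM ℂ (-τ)) : 𝓢(ℝ, ℂ)) ξ⟫_ℂ).re
      = ∫ ξ, (⟪(𝓕 φ : 𝓢(ℝ, ℂ)) ξ, (𝓕 (φ.compSubConstCLM ℂ (-τ)) : 𝓢(ℝ, ℂ)) ξ⟫_ℂ).re :=
    (integral_re hint).symm
  rw [e2]
  apply integral_congr_ae
  filter_upwards with ξ
  rw [fourier_translate]
  have e3 : ⟪(𝓕 φ : 𝓢(ℝ, ℂ)) ξ, (Real.fourierChar (τ * ξ) : ℂ) * (𝓕 φ : 𝓢(ℝ, ℂ)) ξ⟫_ℂ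
      = (Real.fourierChar (τ * ξ) : ℂ) * ((‖(𝓕 φ : 𝓢(ℝ, ℂ)) ξ‖^2 : ℝ) : ℂ) := by
    rw [← smul_eq_mul, inner_smul_right, inner_self_eq_norm_sq_to_K]
    norm_cast
  rw [e3, Complex.re_mul_ofReal, Real.fourierChar_apply, Complex.exp_ofReal_mul_I_re, mul_comm]
  congr 2
  ring

/-- The functional. -/
noncomputable def Gfun (s L : ℝ) (v : Lp ℂ 2 (volume : Measure ℝ)) : ℝ :=
  0.6 * ‖v‖^2 + ∫ τ, kap s L τ * (⟪v, Tr τ v⟫_ℂ : ℂ).re

lemma Gfun_continuous {s L : ℝ} (hs : 0 ≤ s) (hL : 0 ≤ L) : Continuous (Gfun s L) := by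
  unfold Gfun
  apply Continuous.add (by fun_prop)
  rw [continuous_iff_continuousAt]
  intro v0
  apply continuousAt_of_dominated (bound := fun τ => |kap s L τ| * (‖v0‖+1)^2)
  · filter_upwards with v
    apply (kap_measurable s L).aestronglyMeasurable.mul
    apply Continuous.aestronglyMeasurable
    exact Complex.continuous_re.comp (continuous_const.inner (Tr_continuous_left v))
  · have : ∀ᶠ v in 𝓝 v0, ‖v‖ < ‖v0‖ + 1 := by
      have := (continuous_norm.tendsto v0)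
      exact this.eventually_lt_const (by linarith)
    filter_upwards [this] with v hv
    filter_upwards with τ
    rw [norm_mul, Real.norm_eq_abs]
    apply mul_le_mul_of_nonneg_left _ (abs_nonneg _)
    rw [Real.norm_eq_abs]
    refine le_trans (Complex.abs_re_le_norm _) ?_
    refine le_trans (norm_inner_le_norm _ _) ?_
    rw [Tr_norm, ← pow_two]
    exact pow_le_pow_left₀ (norm_nonneg _) hv.le 2
  · exact (kap_integrable hs hL).abs.mul_const _
  · filter_upwards with τ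
    apply Continuous.continuousAt
    apply Continuous.mul continuous_const
    exact Complex.continuous_re.comp (continuous_id.inner (Tr_continuous_right τ))

lemma Gfun_schwartz {k : ℝ} (h : KHyp k) (φ : 𝓢(ℝ, ℂ)) : 0 ≤ Gfun (ss k) (Real.log k) (φ.toLp 2) := by
  have hb := ss_bounds h
  have hk := h.pos
  have hk1 : 1 < k := by linarith [h.lo]
  have hL0 : 0 < Real.log k := Real.log_pos hk1
  have hs : 0 ≤ ss k := by linarith
  unfold Gfun
  have hF : Integrable (fun ξ => ‖(𝓕 φ : 𝓢(ℝ, ℂ)) ξ‖^2) (volume : Measure ℝ) :=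
    ((𝓕 φ : 𝓢(ℝ, ℂ)).memLp 2 (volume : Measure ℝ)).integrable_norm_pow (by norm_num)
  have e1 : ‖(φ.toLp 2 : Lp ℂ 2 (volume : Measure ℝ))‖^2 = ∫ ξ, ‖(𝓕 φ : 𝓢(ℝ, ℂ)) ξ‖^2 := by
    have := inner_Tr_schwartz 0 φ
    simp only [mul_zero, Real.cos_zero, mul_one] at this
    rw [← this]
    have e2 : Tr 0 (φ.toLp 2) = φ.toLp 2 := by
      rw [Tr_schwartz]; simp
    rw [e2, inner_self_eq_norm_sq_to_K]
    norm_cast
  simp_rw [inner_Tr_schwartz]
  rw [e1]
  have hprod : Integrable (Function.uncurry (fun (τ ξ : ℝ) => kap (ss k) (Real.log k) τ *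
      (‖(𝓕 φ : 𝓢(ℝ, ℂ)) ξ‖^2 * Real.cos (2 * Real.pi * ξ * τ))))
      ((volume : Measure ℝ).prod (volume : Measure ℝ)) := by
    have h1 := (kap_integrable hs hL0.le).mul_prod hF
    apply h1.mono
    · apply AEStronglyMeasurable.mul
      · exact ((kap_measurable _ _).comp measurable_fst).aestronglyMeasurable
      · apply Measurable.aestronglyMeasurable
        apply Measurable.mul
        · have : Measurable (fun ξ => ‖(𝓕 φ : 𝓢(ℝ, ℂ)) ξ‖^2) :=
            ((𝓕 φ : 𝓢(ℝ, ℂ)).continuous.norm.pow 2).measurable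
          exact this.comp measurable_snd
        · fun_prop
    · filter_upwards with p
      simp only [Function.uncurry]
      rw [← mul_assoc, norm_mul]
      have h4 := Real.abs_cos_le_one (2 * Real.pi * p.2 * p.1)
      rw [← Real.norm_eq_abs] at h4
      have := norm_nonneg (kap (ss k) (Real.log k) p.1 * ‖(𝓕 φ : 𝓢(ℝ, ℂ)) p.2‖^2)
      nlinarith
  have e3 : ∫ τ, kap (ss k) (Real.log k) τ * ∫ ξ, ‖(𝓕 φ : 𝓢(ℝ, ℂ)) ξ‖^2 * Real.cos (2 * Real.pi * ξ * τ)
      = ∫ ξ, ‖(𝓕 φ : 𝓢(ℝ, ℂ)) ξ‖^2 * ∫ τ, kap (ss k) (Real.log k) τ * Real.cos (2 * Real.pi * ξ * τ) := by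
    simp_rw [← integral_const_mul]
    rw [integral_integral_swap hprod]
    congr 1
    ext ξ
    congr 1
    ext τ
    ring
  rw [e3, ← integral_const_mul, ← integral_add (hF.const_mul _)]
  · apply integral_nonneg
    intro ξ
    simp only [Pi.zero_apply]
    have h5 := kap_cos_ge h (2 * Real.pi * ξ)
    have h6 : 0 ≤ ‖(𝓕 φ : 𝓢(ℝ, ℂ)) ξ‖^2 := by positivity
    nlinarith
  · have := hprod.swap.integral_prod_left
    apply this.congr
    filter_upwards with ξ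
    rw [← integral_const_mul]
    congr 1
    ext τ
    simp only [Function.comp, Prod.swap, Function.uncurry]
    ring

lemma Gfun_nonneg {k : ℝ} (h : KHyp k) (v : Lp ℂ 2 (volume : Measure ℝ)) :
    0 ≤ Gfun (ss k) (Real.log k) v := by
  have hb := ss_bounds h
  have hL0 : 0 < Real.log k := Real.log_pos (by linarith [h.lo])
  apply DenseRange.induction_on (p := fun v => 0 ≤ Gfun (ss k) (Real.log k) v)
    (SchwartzMap.denseRange_toLpCLM (E := ℝ) (F := ℂ) (p := 2) ENNReal.ofNat_ne_top) v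
  · exact isClosed_le continuous_const (Gfun_continuous (by linarith) hL0.le)
  · intro φ
    exact Gfun_schwartz h φ

/-- Positivity for bounded integrable functions. -/
theorem form_nonneg {k : ℝ} (h : KHyp k) (v : ℝ → ℝ) (hm : Measurable v) (M : ℝ) (hb : ∀ u, |v u| ≤ M)
    (hi : Integrable v) :
    0 ≤ 0.6 * (∫ u, (v u)^2) + ∫ p : ℝ × ℝ, kap (ss k) (Real.log k) (p.2 - p.1) * (v p.1 * v p.2)
      ∂((volume : Measure ℝ).prod (volume : Measure ℝ)) := by
  have hsb := ss_bounds h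
  have hL0 : 0 < Real.log k := Real.log_pos (by linarith [h.lo])
  have hs : 0 ≤ ss k := by linarith
  have hM : 0 ≤ M := le_trans (abs_nonneg _) (hb 0)
  set V : ℝ → ℂ := fun u => (v u : ℂ) with hV
  have hV2 : MemLp V 2 (volume : Measure ℝ) := by
    rw [memLp_two_iff_integrable_sq_norm]
    · apply (hi.abs.const_mul M).mono'
      · exact (by fun_prop : Measurable (fun u => ‖V u‖^2)).aestronglyMeasurable
      · filter_upwards with u
        rw [Real.norm_of_nonneg (by positivity)]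
        simp only [hV, Complex.norm_real, Real.norm_eq_abs]
        nlinarith [hb u, abs_nonneg (v u)]
    · exact (by fun_prop : Measurable V).aestronglyMeasurable
  have key := Gfun_nonneg h (hV2.toLp V)
  unfold Gfun at key
  have hin : ∀ τ, (⟪hV2.toLp V, Tr τ (hV2.toLp V)⟫_ℂ : ℂ).re = ∫ u, v u * v (u + τ) := by
    intro τ
    rw [L2.inner_def]
    have e1 : ∫ u, ⟪(hV2.toLp V : Lp ℂ 2 (volume : Measure ℝ)) u, (Tr τ (hV2.toLp V) : Lp ℂ 2 (volume : Measure ℝ)) u⟫_ℂ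
        = ∫ u, ((v u * v (u + τ) : ℝ) : ℂ) := by
      apply integral_congr_ae
      have h1 := Lp.coeFn_compMeasurePreserving (hV2.toLp V) (trMap_mp τ)
      have h3 := (trMap_mp τ).quasiMeasurePreserving.ae_eq_comp hV2.coeFn_toLp
      filter_upwards [h1, h3, hV2.coeFn_toLp] with x a1 a2 a3
      unfold Tr
      rw [a1, a2, a3]
      simp [hV, trMap, mul_comm]
    rw [e1, integral_complex_ofReal, Complex.ofReal_re]
  have hnorm : ‖hV2.toLp V‖^2 = ∫ u, (v u)^2 := by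
    have := hin 0
    have e2 : Tr 0 (hV2.toLp V) = hV2.toLp V := by
      apply Lp.ext
      have h1 := Lp.coeFn_compMeasurePreserving (hV2.toLp V) (trMap_mp 0)
      filter_upwards [h1] with x a1
      unfold Tr
      rw [a1]
      simp [trMap]
    rw [e2, inner_self_eq_norm_sq_to_K] at this
    have e3 : ((‖hV2.toLp V‖ : ℂ)^2).re = ‖hV2.toLp V‖^2 := by norm_cast
    rw [← e3]
    refine this.trans ?_
    congr 1
    ext u
    rw [add_zero, pow_two]
  simp_rw [hin] at key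
  rw [hnorm] at key
  have hprod : Integrable (fun p : ℝ × ℝ => kap (ss k) (Real.log k) (p.2 - p.1) * (v p.1 * v p.2))
      ((volume : Measure ℝ).prod (volume : Measure ℝ)) := by
    have h1 := (hi.mul_prod hi).norm.const_mul (ss k * Real.exp (Real.log k))
    apply h1.mono'
    · apply AEStronglyMeasurable.mul
      · exact ((kap_measurable _ _).comp (measurable_snd.sub measurable_fst)).aestronglyMeasurable
      · exact ((hm.comp measurable_fst).mul (hm.comp measurable_snd)).aestronglyMeasurable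
    · filter_upwards with p
      rw [norm_mul]
      apply mul_le_mul_of_nonneg_right _ (norm_nonneg _)
      rw [Real.norm_eq_abs]
      exact kap_abs_const hs hL0.le _
  have hprod2 : Integrable (Function.uncurry (fun (τ u : ℝ) => kap (ss k) (Real.log k) τ * (v u * v (u + τ))))
      ((volume : Measure ℝ).prod (volume : Measure ℝ)) := by
    have h1 := ((kap_integrable (L := Real.log k) hs hL0.le).mul_prod hi).norm.mul_const M
    apply h1.mono'
    · apply AEStronglyMeasurable.mul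
      · exact ((kap_measurable _ _).comp measurable_fst).aestronglyMeasurable
      · exact ((hm.comp measurable_snd).mul
          (hm.comp (measurable_snd.add measurable_fst))).aestronglyMeasurable
    · filter_upwards with p
      simp only [Function.uncurry]
      rw [← mul_assoc, norm_mul]
      exact mul_le_mul_of_nonneg_left (by rw [Real.norm_eq_abs]; exact hb _) (norm_nonneg _)
  have e3 : ∫ τ, kap (ss k) (Real.log k) τ * ∫ u, v u * v (u + τ)
      = ∫ p : ℝ × ℝ, kap (ss k) (Real.log k) (p.2 - p.1) * (v p.1 * v p.2)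
      ∂((volume : Measure ℝ).prod (volume : Measure ℝ)) := by
    simp_rw [← integral_const_mul]
    rw [integral_integral_swap hprod2, integral_prod _ hprod]
    congr 1
    ext u
    rw [← integral_sub_right_eq_self (fun τ => kap (ss k) (Real.log k) τ * (v u * v (u + τ))) u]
    congr 1
    ext w
    simp
  rw [e3] at key
  exact key

end Pool.Agent.MPd42a57.Exact
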