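import Pool.Agent.MPd42a57.Scheme

open Filter Topology Set
open scoped MatrixOrder

namespace Pool.Agent.MPd42a57.Exact

section Gram

variable {H : Type*} [NormedAddCommGroup H] [InnerProductSpace ℝ H]

theorem exists_vectors {ι : Type*} [Fintype ι] (M : Matrix ι ι ℝ) (hM : M.PosSemidef) (e : ι → H)
    (he : Orthonormal ℝ e) : ∃ w : ι → H, ∀ i j, inner ℝ (w i) (w j) = M i j := by
  classical
  obtain ⟨B, hB⟩ := CStarAlgebra.nonneg_iff_eq_star_mul_self.mp hM.nonneg
  refine ⟨fun i => ∑ l, B l i • e l, fun i j => ?_⟩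
  rw [he.inner_sum, hB]
  simp [Matrix.mul_apply, Matrix.star_apply]

/-- The hypotheses on the sequence and the parameters. -/
structure GHyp (y : ℕ → ℝ) (c S : ℝ) (N : ℕ) (β : ℝ) : Prop where
  hy : YHyp y
  pos : PosHyp y c
  sum : HasSum (fun j => (y j)^2) S
  yB : Tendsto (fun m => y m * BB y m) atTop (𝓝 0)
  y0 : Tendsto y atTop (𝓝 0)
  Npos : 0 < N
  bpos : 0 < β
  beq : β^2 = N * S
  cpos : 0 < c

variable {y : ℕ → ℝ} {c S : ℝ} {N T : ℕ} {β : ℝ}

/-- Extension by zero. -/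
noncomputable def ext {T : ℕ} (x : Fin T → ℝ) (i : ℕ) : ℝ := if h : i < T then x ⟨i, h⟩ else 0

lemma ext_coe (x : Fin T → ℝ) (i : Fin T) : ext x i = x i := by simp [ext]

variable (y N T β) in
/-- The Gram matrix. -/
noncomputable def GM : Matrix (Fin N ⊕ Fin T) (Fin N ⊕ Fin T) ℝ :=
  Matrix.of fun u v => match u, v with
  | Sum.inl a, Sum.inl b => if a = b then 1 else 0
  | Sum.inl _, Sum.inr j => FF y 0 j / β
  | Sum.inr i, Sum.inl _ => FF y 0 i / β
  | Sum.inr i, Sum.inr j => GG y i j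

lemma GM_ll (a b : Fin N) : GM y N T β (Sum.inl a) (Sum.inl b) = if a = b then 1 else 0 := rfl
lemma GM_lr (a : Fin N) (j : Fin T) : GM y N T β (Sum.inl a) (Sum.inr j) = FF y 0 j / β := rfl
lemma GM_rl (i : Fin T) (b : Fin N) : GM y N T β (Sum.inr i) (Sum.inl b) = FF y 0 i / β := rfl
lemma GM_rr (i j : Fin T) : GM y N T β (Sum.inr i) (Sum.inr j) = GG y i j := rfl

theorem GM_form (u : Fin N ⊕ Fin T → ℝ) :
    ∑ i, ∑ j, u i * u j * GM y N T β i j = ∑ a, (u (Sum.inl a))^2
      + 2 * ((∑ a, u (Sum.inl a)) / β) * ∑ i ∈ Finset.range T, ext (fun j => u (Sum.inr j)) i * FF y 0 i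
      + ∑ i ∈ Finset.range T, ∑ j ∈ Finset.range T,
        ext (fun j => u (Sum.inr j)) i * ext (fun j => u (Sum.inr j)) j * GG y i j := by
  rw [Fintype.sum_sum_type]
  simp_rw [Fintype.sum_sum_type, GM_ll, GM_lr, GM_rl, GM_rr, Finset.sum_range, ext_coe,
    Finset.sum_add_distrib]
  have e1 : ∑ a : Fin N, ∑ b : Fin N, u (Sum.inl a) * u (Sum.inl b) * (if a = b then (1:ℝ) else 0)
      = ∑ a, (u (Sum.inl a))^2 := by
    apply Finset.sum_congr rfl
    intro a _
    simp [pow_two]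
  have e2 : ∑ a : Fin N, ∑ j : Fin T, u (Sum.inl a) * u (Sum.inr j) * (FF y 0 j / β)
      = ((∑ a, u (Sum.inl a)) / β) * ∑ i : Fin T, u (Sum.inr i) * FF y 0 i := by
    rw [Finset.sum_div, Finset.sum_mul_sum]
    apply Finset.sum_congr rfl; intro a _
    apply Finset.sum_congr rfl; intro j _
    ring
  have e3 : ∑ i : Fin T, ∑ b : Fin N, u (Sum.inr i) * u (Sum.inl b) * (FF y 0 i / β)
      = ((∑ a, u (Sum.inl a)) / β) * ∑ i : Fin T, u (Sum.inr i) * FF y 0 i := by
    rw [Finset.sum_comm, Finset.sum_div, Finset.sum_mul_sum]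
    apply Finset.sum_congr rfl; intro a _
    apply Finset.sum_congr rfl; intro j _
    ring
  rw [e1, e2, e3]
  ring

theorem GM_lower (h : GHyp y c S N β) (u : Fin N ⊕ Fin T → ℝ) {z : ℝ} (hz : z = (∑ a, u (Sum.inl a)) / β) :
    ∑ a, (u (Sum.inl a))^2 - z^2 * S
      + c * (∑ i ∈ Finset.range T, (ext (fun j => u (Sum.inr j)) i + z * y i)^2
        + z^2 * (S - ∑ i ∈ Finset.range T, (y i)^2))
      ≤ ∑ i, ∑ j, u i * u j * GM y N T β i j := by
  rw [GM_form, ← hz]
  have h1 := form_lower h.hy h.pos h.sum.summable h.yB h.y0 T (ext (fun j => u (Sum.inr j))) z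
  rw [h.sum.tsum_eq] at h1
  linarith

lemma tail_nonneg (h : GHyp y c S N β) (A : Finset ℕ) : 0 ≤ S - ∑ i ∈ A, (y i)^2 := by
  have := sum_le_hasSum A (fun i _ => sq_nonneg (y i)) h.sum
  linarith

lemma S_pos (h : GHyp y c S N β) : 0 < S := by
  have h1 := h.beq
  have h2 := h.bpos
  have h3 : (0:ℝ) < N := by exact_mod_cast h.Npos
  by_contra hc
  push Not at hc
  have : β^2 ≤ 0 := by
    rw [h1]
    exact mul_nonpos_of_nonneg_of_nonpos h3.le hc
  have h5 : 0 < β^2 := by positivity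
  linarith

lemma z_sq_le (h : GHyp y c S N β) (p : Fin N → ℝ) : ((∑ a, p a) / β)^2 * S ≤ ∑ a, (p a)^2 := by
  have h1 := h.beq
  have h2 := h.bpos
  have h3 : (0:ℝ) < N := by exact_mod_cast h.Npos
  have hS := S_pos h
  have h4 := sq_sum_le_card_mul_sum_sq (s := (Finset.univ : Finset (Fin N))) (f := p)
  rw [Finset.card_univ, Fintype.card_fin] at h4
  rw [div_pow, h1]
  have : (∑ a, p a)^2 / (N * S) * S = (∑ a, p a)^2 / N := by field_simp
  rw [this, div_le_iff₀ h3]
  linarith

theorem GM_psd (h : GHyp y c S N β) : (GM y N T β).PosSemidef := by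
  apply Matrix.PosSemidef.of_dotProduct_mulVec_nonneg
  · ext u v
    simp only [Matrix.conjTranspose_apply, star_trivial]
    rcases u with a | i <;> rcases v with b | j
    · rw [GM_ll, GM_ll]; simp [eq_comm]
    · rw [GM_rl, GM_lr]
    · rw [GM_rl, GM_lr]
    · rw [GM_rr, GM_rr, GG_symm]
  · intro u
    have h1 := GM_lower (T := T) h u rfl
    have e1 : star u ⬝ᵥ (GM y N T β).mulVec u = ∑ i, ∑ j, u i * u j * GM y N T β i j := by
      simp only [dotProduct, Matrix.mulVec, star_trivial]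
      apply Finset.sum_congr rfl; intro i _
      rw [Finset.mul_sum]
      apply Finset.sum_congr rfl; intro j _
      ring
    rw [e1]
    refine le_trans ?_ h1
    have h2 := z_sq_le h (fun a => u (Sum.inl a))
    have h3 := tail_nonneg h (Finset.range T)
    have h4 : 0 ≤ c * (∑ i ∈ Finset.range T, (ext (fun j => u (Sum.inr j)) i + (∑ a, u (Sum.inl a)) / β * y i)^2
        + ((∑ a, u (Sum.inl a)) / β)^2 * (S - ∑ i ∈ Finset.range T, (y i)^2)) := by
      apply mul_nonneg h.cpos.le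
      apply add_nonneg
      · exact Finset.sum_nonneg (fun _ _ => sq_nonneg _)
      · exact mul_nonneg (sq_nonneg _) h3
    linarith

/-- The norm of a combination of vectors with given Gram matrix. -/
lemma norm_sq_comb {ι : Type*} [Fintype ι] {M : Matrix ι ι ℝ} {w : ι → H}
    (hw : ∀ i j, inner ℝ (w i) (w j) = M i j) (u : ι → ℝ) :
    ‖∑ i, u i • w i‖^2 = ∑ i, ∑ j, u i * u j * M i j := by
  rw [← real_inner_self_eq_norm_sq, sum_inner]
  apply Finset.sum_congr rfl; intro i _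
  rw [inner_sum]
  apply Finset.sum_congr rfl; intro j _
  rw [inner_smul_left, inner_smul_right, hw]
  simp only [conj_trivial]
  ring

end Gram

section Rearr

lemma card_le_of_lt {A : Finset ℕ} {M : ℕ} (h : ∀ x ∈ A, x < M) : A.card ≤ M := by
  have : A ⊆ Finset.range M := fun x hx => Finset.mem_range.mpr (h x hx)
  have := Finset.card_le_card this
  rwa [Finset.card_range] at this

lemma sum_le_range {f : ℕ → ℝ} (hf : Antitone f) (A : Finset ℕ) :
    ∑ i ∈ A, f i ≤ ∑ i ∈ Finset.range A.card, f i := by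
  induction A using Finset.induction_on_max with
  | empty => simp
  | insert M A hA ih =>
    have hM : M ∉ A := fun hc => lt_irrefl _ (hA M hc)
    rw [Finset.sum_insert hM, Finset.card_insert_of_notMem hM, Finset.sum_range_succ]
    have := hf (card_le_of_lt hA)
    linarith

end Rearr

end Pool.Agent.MPd42a57.Exact
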