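import Pool.Agent.MPd42a57.FourierB

open MeasureTheory Set Filter Topology

namespace Pool.Agent.MPd42a57.Exact

/-- The logarithmic interval of the integer `n`. -/
def II (n : ℕ) : Set ℝ := Set.Ico (Real.log n) (Real.log (n+1))

/-- The test functions. -/
noncomputable def psi (n : ℕ) (u : ℝ) : ℝ := (II n).indicator (fun u => Real.exp (u/2)) u

lemma II_meas (n : ℕ) : MeasurableSet (II n) := measurableSet_Ico

lemma psi_meas (n : ℕ) : Measurable (psi n) := (by fun_prop : Measurable (fun u : ℝ => Real.exp (u/2))).indicator (II_meas n)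

lemma log_le_succ {n : ℕ} (hn : 0 < n) : Real.log n ≤ Real.log (n+1) := by
  have : (0:ℝ) < n := by exact_mod_cast hn
  exact Real.log_le_log this (by linarith)

lemma psi_nonneg (n : ℕ) (u : ℝ) : 0 ≤ psi n u := by
  unfold psi
  exact Set.indicator_nonneg (fun _ _ => (Real.exp_pos _).le) u

lemma psi_le (n : ℕ) (u : ℝ) : psi n u ≤ n + 1 := by
  unfold psi
  by_cases h : u ∈ II n
  · rw [Set.indicator_of_mem h]
    have h1 : u ≤ Real.log (n+1) := h.2.le
    have h0 : (0:ℝ) ≤ Real.log (n+1) := Real.log_nonneg (by linarith [show (0:ℝ) ≤ n from Nat.cast_nonneg _])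
    have h2 : Real.exp (u/2) ≤ Real.exp (Real.log (n+1)) := by
      apply Real.exp_le_exp.mpr
      linarith
    rwa [Real.exp_log (by positivity)] at h2
  · rw [Set.indicator_of_notMem h]; positivity

lemma integrableOn_II {f : ℝ → ℝ} (hf : Continuous f) (n : ℕ) : IntegrableOn f (II n) :=
  (hf.integrableOn_Icc (a := Real.log n) (b := Real.log (n+1))).mono_set Ico_subset_Icc_self

lemma psi_integrable (n : ℕ) : Integrable (psi n) :=
  (integrable_indicator_iff (II_meas n)).mpr (integrableOn_II (by fun_prop) n)

lemma integral_II_exp {n : ℕ} (hn : 0 < n) : ∫ u in II n, Real.exp u = 1 := by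
  unfold II
  rw [integral_Ico_eq_integral_Ioo, ← integral_Ioc_eq_integral_Ioo,
    ← intervalIntegral.integral_of_le (log_le_succ hn), integral_exp,
    Real.exp_log (by positivity), Real.exp_log (by exact_mod_cast hn)]
  ring

lemma integral_II_one {n : ℕ} (hn : 0 < n) : ∫ _u in II n, (1:ℝ) = Real.log (n+1) - Real.log n := by
  unfold II
  rw [integral_Ico_eq_integral_Ioo, ← integral_Ioc_eq_integral_Ioo,
    ← intervalIntegral.integral_of_le (log_le_succ hn)]
  simp

lemma psi_sq_integral {n : ℕ} (hn : 0 < n) : ∫ u, psi n u * psi n u = 1 := by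
  have : ∀ u, psi n u * psi n u = (II n).indicator (fun u => Real.exp u) u := by
    intro u
    unfold psi
    by_cases h : u ∈ II n
    · rw [Set.indicator_of_mem h, Set.indicator_of_mem h, ← Real.exp_add]; congr 1; ring
    · rw [Set.indicator_of_notMem h, Set.indicator_of_notMem h]; ring
  simp_rw [this]
  rw [integral_indicator (II_meas n), integral_II_exp hn]

lemma II_lt {a b : ℕ} (ha : 0 < a) (hab : a < b) {u w : ℝ} (hu : u ∈ II a) (hw : w ∈ II b) : u < w := by
  have h1 : u < Real.log (a+1) := hu.2
  have h2 : Real.log b ≤ w := hw.1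
  have h3 : Real.log (a+1) ≤ Real.log b := by
    apply Real.log_le_log (by positivity)
    exact_mod_cast hab
  linarith

lemma psi_mul_eq_zero {a b : ℕ} (ha : 0 < a) (hab : a < b) (u : ℝ) : psi a u * psi b u = 0 := by
  unfold psi
  by_cases h : u ∈ II a
  · by_cases h2 : u ∈ II b
    · exact absurd (II_lt ha hab h h2) (lt_irrefl _)
    · rw [Set.indicator_of_notMem h2, mul_zero]
  · rw [Set.indicator_of_notMem h, zero_mul]

/-- The discretised kernel. -/
noncomputable def KT (k : ℝ) (a b : ℕ) : ℝ :=
  ∫ p : ℝ × ℝ, kap (ss k) (Real.log k) (p.2 - p.1) * (psi a p.1 * psi b p.2)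
    ∂((volume : Measure ℝ).prod (volume : Measure ℝ))

lemma KT_symm (k : ℝ) (a b : ℕ) : KT k a b = KT k b a := by
  unfold KT
  rw [← integral_prod_swap]
  congr 1
  ext p
  simp only [Prod.fst_swap, Prod.snd_swap]
  have : kap (ss k) (Real.log k) (p.1 - p.2) = kap (ss k) (Real.log k) (p.2 - p.1) := by
    unfold kap; rw [abs_sub_comm]
  rw [this]; ring

section

variable {k : ℝ}

lemma logk_pos (h : KHyp k) : 0 < Real.log k := Real.log_pos (by linarith [h.lo])

lemma KT_integrable (h : KHyp k) (a b : ℕ) :
    Integrable (fun p : ℝ × ℝ => kap (ss k) (Real.log k) (p.2 - p.1) * (psi a p.1 * psi b p.2))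
      ((volume : Measure ℝ).prod (volume : Measure ℝ)) := by
  have hs : 0 ≤ ss k := by linarith [(ss_bounds h).1]
  have h1 := ((psi_integrable a).mul_prod (psi_integrable b)).norm.const_mul (ss k * Real.exp (Real.log k))
  apply h1.mono'
  · apply AEStronglyMeasurable.mul
    · exact ((kap_measurable _ _).comp (measurable_snd.sub measurable_fst)).aestronglyMeasurable
    · exact (((psi_meas a).comp measurable_fst).mul ((psi_meas b).comp measurable_snd)).aestronglyMeasurable
  · filter_upwards with p
    rw [norm_mul]
    apply mul_le_mul_of_nonneg_right _ (norm_nonneg _)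
    rw [Real.norm_eq_abs]
    exact kap_abs_const hs (logk_pos h).le _

lemma prod_int {f g : ℝ → ℝ} (a b : ℕ) :
    ∫ p : ℝ × ℝ, (II a).indicator f p.1 * (II b).indicator g p.2
      ∂((volume : Measure ℝ).prod (volume : Measure ℝ)) = (∫ u in II a, f u) * (∫ u in II b, g u) := by
  rw [integral_prod_mul, integral_indicator (II_meas a), integral_indicator (II_meas b)]

lemma KT_near (h : KHyp k) {a b : ℕ} (ha : 0 < a) (hab : a < b) (hk : (b:ℝ) + 1 ≤ k * a) :
    KT k a b = ss k * (Real.log (a+1) - Real.log a) := by
  have hb : 0 < b := by omega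
  have hL : Real.log (b+1) - Real.log a ≤ Real.log k := by
    have ha' : (0:ℝ) < a := by exact_mod_cast ha
    have := Real.log_le_log (by positivity) hk
    rw [Real.log_mul h.pos.ne' ha'.ne'] at this
    linarith
  have e1 : ∀ p : ℝ × ℝ, kap (ss k) (Real.log k) (p.2 - p.1) * (psi a p.1 * psi b p.2)
      = (II a).indicator (fun _ => ss k) p.1 * (II b).indicator (fun w => Real.exp w) p.2 := by
    intro p
    unfold psi
    by_cases h1 : p.1 ∈ II a
    · by_cases h2 : p.2 ∈ II b
      · simp only [Set.indicator_of_mem h1, Set.indicator_of_mem h2]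
        have h3 := II_lt ha hab h1 h2
        have h4 : |p.2 - p.1| = p.2 - p.1 := abs_of_pos (by linarith)
        have h5 : |p.2 - p.1| < Real.log k := by
          rw [h4]
          have := h1.1
          have := h2.2
          linarith
        unfold kap
        rw [if_pos h5, h4, mul_assoc, ← Real.exp_add, ← Real.exp_add]
        congr 2; ring
      · simp only [Set.indicator_of_notMem h2, mul_zero]
    · simp only [Set.indicator_of_notMem h1, zero_mul, mul_zero]
  unfold KT
  simp_rw [e1]
  rw [prod_int, integral_II_exp hb, mul_one]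
  have := integral_const_mul (μ := (volume : Measure ℝ).restrict (II a)) (ss k) (fun _ => (1:ℝ))
  simp only [mul_one] at this
  rw [this, integral_II_one ha]

lemma KT_far (h : KHyp k) {a b : ℕ} (ha : 0 < a) (hab : a < b) (hk : k * ((a:ℝ) + 1) ≤ b) :
    KT k a b = -(ss k * (Real.log (b+1) - Real.log b)) := by
  have hb : 0 < b := by omega
  have hL : Real.log k ≤ Real.log b - Real.log (a+1) := by
    have ha' : (0:ℝ) < (a:ℝ) + 1 := by positivity
    have := Real.log_le_log (mul_pos h.pos ha') hk
    rw [Real.log_mul h.pos.ne' ha'.ne'] at this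
    linarith
  have e1 : ∀ p : ℝ × ℝ, kap (ss k) (Real.log k) (p.2 - p.1) * (psi a p.1 * psi b p.2)
      = (II a).indicator (fun u => Real.exp u) p.1 * (II b).indicator (fun _ => -(ss k)) p.2 := by
    intro p
    unfold psi
    by_cases h1 : p.1 ∈ II a
    · by_cases h2 : p.2 ∈ II b
      · simp only [Set.indicator_of_mem h1, Set.indicator_of_mem h2]
        have h3 := II_lt ha hab h1 h2
        have h4 : |p.2 - p.1| = p.2 - p.1 := abs_of_pos (by linarith)
        have h5 : ¬ |p.2 - p.1| < Real.log k := by
          rw [h4, not_lt]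
          have := h1.2
          have := h2.1
          linarith
        unfold kap
        rw [if_neg h5, h4, ← Real.exp_add, neg_mul, mul_assoc, ← Real.exp_add, mul_neg, mul_comm (ss k)]
        congr 3; ring
      · simp only [Set.indicator_of_notMem h2, mul_zero]
    · simp only [Set.indicator_of_notMem h1, zero_mul, mul_zero]
  unfold KT
  simp_rw [e1]
  rw [prod_int, integral_II_exp ha, one_mul]
  have := integral_const_mul (μ := (volume : Measure ℝ).restrict (II b)) (-(ss k)) (fun _ => (1:ℝ))
  simp only [mul_one] at this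
  rw [this, integral_II_one hb]; ring

lemma KT_abs_le (h : KHyp k) {a b : ℕ} (ha : 0 < a) (hab : a < b) :
    |KT k a b| ≤ ss k * (Real.log (a+1) - Real.log a) := by
  have hs : 0 ≤ ss k := by linarith [(ss_bounds h).1]
  have hb : 0 < b := by omega
  have e0 : ss k * (Real.log (a+1) - Real.log a) = ∫ p : ℝ × ℝ,
      (II a).indicator (fun _ => ss k) p.1 * (II b).indicator (fun w => Real.exp w) p.2
      ∂((volume : Measure ℝ).prod (volume : Measure ℝ)) := by
    rw [prod_int, integral_II_exp hb, mul_one]
    have := integral_const_mul (μ := (volume : Measure ℝ).restrict (II a)) (ss k) (fun _ => (1:ℝ))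
    simp only [mul_one] at this
    rw [this, integral_II_one ha]
  rw [e0, ← Real.norm_eq_abs]
  unfold KT
  apply norm_integral_le_of_norm_le
  · apply Integrable.mul_prod
    · exact (integrable_indicator_iff (II_meas a)).mpr (integrableOn_II continuous_const a)
    · exact (integrable_indicator_iff (II_meas b)).mpr (integrableOn_II Real.continuous_exp b)
  · filter_upwards with p
    unfold psi
    by_cases h1 : p.1 ∈ II a
    · by_cases h2 : p.2 ∈ II b
      · simp only [Set.indicator_of_mem h1, Set.indicator_of_mem h2]
        have h3 := II_lt ha hab h1 h2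
        have h4 : |p.2 - p.1| = p.2 - p.1 := abs_of_pos (by linarith)
        rw [norm_mul, Real.norm_eq_abs, Real.norm_of_nonneg (by positivity)]
        have h5 := kap_abs_le' (L := Real.log k) hs (p.2 - p.1)
        rw [h4] at h5
        have h6 : 0 ≤ Real.exp (p.1/2) * Real.exp (p.2/2) := by positivity
        refine le_trans (mul_le_mul_of_nonneg_right h5 h6) (le_of_eq ?_)
        rw [mul_assoc, ← Real.exp_add, ← Real.exp_add]
        congr 2; ring
      · simp only [Set.indicator_of_notMem h2, mul_zero, norm_zero, le_refl]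
    · simp only [Set.indicator_of_notMem h1, zero_mul, mul_zero, norm_zero, le_refl]

lemma KT_diag_le (h : KHyp k) {a : ℕ} (ha : 0 < a) :
    |KT k a a| ≤ 2 * (ss k * (Real.log (a+1) - Real.log a)) := by
  have hs : 0 ≤ ss k := by linarith [(ss_bounds h).1]
  have i1 : Integrable (fun p : ℝ × ℝ => (II a).indicator (fun _ => ss k) p.1 *
      (II a).indicator (fun w => Real.exp w) p.2) ((volume : Measure ℝ).prod (volume : Measure ℝ)) := by
    apply Integrable.mul_prod
    · exact (integrable_indicator_iff (II_meas a)).mpr (integrableOn_II continuous_const a)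
    · exact (integrable_indicator_iff (II_meas a)).mpr (integrableOn_II Real.continuous_exp a)
  have i2 : Integrable (fun p : ℝ × ℝ => (II a).indicator (fun w => Real.exp w) p.1 *
      (II a).indicator (fun _ => ss k) p.2) ((volume : Measure ℝ).prod (volume : Measure ℝ)) := by
    apply Integrable.mul_prod
    · exact (integrable_indicator_iff (II_meas a)).mpr (integrableOn_II Real.continuous_exp a)
    · exact (integrable_indicator_iff (II_meas a)).mpr (integrableOn_II continuous_const a)
  have e0 : 2 * (ss k * (Real.log (a+1) - Real.log a)) = ∫ p : ℝ × ℝ,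
      ((II a).indicator (fun _ => ss k) p.1 * (II a).indicator (fun w => Real.exp w) p.2
      + (II a).indicator (fun w => Real.exp w) p.1 * (II a).indicator (fun _ => ss k) p.2)
      ∂((volume : Measure ℝ).prod (volume : Measure ℝ)) := by
    rw [integral_add i1 i2, prod_int, prod_int, integral_II_exp ha, mul_one, one_mul]
    have := integral_const_mul (μ := (volume : Measure ℝ).restrict (II a)) (ss k) (fun _ => (1:ℝ))
    simp only [mul_one] at this
    rw [this, integral_II_one ha]; ring
  rw [e0, ← Real.norm_eq_abs]
  unfold KT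
  apply norm_integral_le_of_norm_le (i1.add i2)
  filter_upwards with p
  rw [Pi.add_apply]
  unfold psi
  by_cases h1 : p.1 ∈ II a
  · by_cases h2 : p.2 ∈ II a
    · simp only [Set.indicator_of_mem h1, Set.indicator_of_mem h2]
      rw [norm_mul, Real.norm_eq_abs, Real.norm_of_nonneg (by positivity)]
      have h5 := kap_abs_le' (L := Real.log k) hs (p.2 - p.1)
      have h6 : 0 ≤ Real.exp (p.1/2) * Real.exp (p.2/2) := by positivity
      refine le_trans (mul_le_mul_of_nonneg_right h5 h6) ?_
      rw [mul_assoc, ← Real.exp_add, ← Real.exp_add]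
      have h7 := Real.exp_pos p.1
      have h8 := Real.exp_pos p.2
      rcases le_total p.1 p.2 with h3 | h3
      · rw [abs_of_nonneg (by linarith), show (p.2 - p.1)/2 + (p.1/2 + p.2/2) = p.2 by ring]
        nlinarith [mul_nonneg hs h7.le]
      · rw [abs_of_nonpos (by linarith), show -(p.2 - p.1)/2 + (p.1/2 + p.2/2) = p.1 by ring]
        nlinarith [mul_nonneg hs h8.le]
    · simp only [Set.indicator_of_notMem h2, mul_zero, norm_zero, add_zero, le_refl]
  · simp only [Set.indicator_of_notMem h1, zero_mul, mul_zero, norm_zero, add_zero, le_refl]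

/-- The form with the discretised kernel. -/
theorem KT_form (h : KHyp k) (n0 T : ℕ) (x : ℕ → ℝ) :
    0 ≤ 0.6 * ∑ i ∈ Finset.range T, (x i)^2
      + ∑ i ∈ Finset.range T, ∑ j ∈ Finset.range T, x i * x j * KT k (n0+1+i) (n0+1+j) := by
  set v : ℝ → ℝ := fun u => ∑ i ∈ Finset.range T, x i * psi (n0+1+i) u with hv
  have hm : Measurable v := by
    rw [hv]
    exact Finset.measurable_fun_sum _ (fun i _ => (psi_meas _).const_mul _)
  have hint : Integrable v := by
    rw [hv]
    exact integrable_finsetSum _ (fun i _ => (psi_integrable _).const_mul _)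
  have hbd : ∀ u, |v u| ≤ ∑ i ∈ Finset.range T, |x i| * ((n0+1+i : ℕ) + 1) := by
    intro u
    refine le_trans (Finset.abs_sum_le_sum_abs _ _) (Finset.sum_le_sum (fun i _ => ?_))
    rw [abs_mul, abs_of_nonneg (psi_nonneg _ _)]
    exact mul_le_mul_of_nonneg_left (psi_le _ _) (abs_nonneg _)
  have key := form_nonneg h v hm _ hbd hint
  have e1 : ∫ u, (v u)^2 = ∑ i ∈ Finset.range T, (x i)^2 := by
    have e2 : ∀ u, (v u)^2 = ∑ i ∈ Finset.range T, (x i)^2 * (psi (n0+1+i) u * psi (n0+1+i) u) := by
      intro u
      rw [pow_two, hv]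
      simp only
      rw [Finset.sum_mul]
      apply Finset.sum_congr rfl
      intro i hi
      rw [Finset.mul_sum]
      rw [Finset.sum_eq_single i]
      · ring
      · intro j _ hj
        have : psi (n0+1+i) u * psi (n0+1+j) u = 0 := by
          rcases lt_or_gt_of_ne hj with hlt | hgt
          · rw [mul_comm]; exact psi_mul_eq_zero (by omega) (by omega) u
          · exact psi_mul_eq_zero (by omega) (by omega) u
        calc x i * psi (n0+1+i) u * (x j * psi (n0+1+j) u)
            = x i * x j * (psi (n0+1+i) u * psi (n0+1+j) u) := by ring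
          _ = 0 := by rw [this, mul_zero]
      · intro hni; exact absurd hi hni
    simp_rw [e2]
    rw [integral_finsetSum]
    · apply Finset.sum_congr rfl
      intro i _
      rw [integral_const_mul, psi_sq_integral (by omega), mul_one]
    · intro i _
      apply Integrable.const_mul
      have : ∀ u, psi (n0+1+i) u * psi (n0+1+i) u = (II (n0+1+i)).indicator (fun u => Real.exp u) u := by
        intro u
        unfold psi
        by_cases h : u ∈ II (n0+1+i)
        · rw [Set.indicator_of_mem h, Set.indicator_of_mem h, ← Real.exp_add]; congr 1; ring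
        · rw [Set.indicator_of_notMem h, Set.indicator_of_notMem h]; ring
      simp_rw [this]
      exact (integrable_indicator_iff (II_meas _)).mpr (integrableOn_II Real.continuous_exp _)
  have e3 : ∫ p : ℝ × ℝ, kap (ss k) (Real.log k) (p.2 - p.1) * (v p.1 * v p.2)
      ∂((volume : Measure ℝ).prod (volume : Measure ℝ))
      = ∑ i ∈ Finset.range T, ∑ j ∈ Finset.range T, x i * x j * KT k (n0+1+i) (n0+1+j) := by
    have e4 : ∀ p : ℝ × ℝ, kap (ss k) (Real.log k) (p.2 - p.1) * (v p.1 * v p.2)
        = ∑ i ∈ Finset.range T, ∑ j ∈ Finset.range T, x i * x j *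
          (kap (ss k) (Real.log k) (p.2 - p.1) * (psi (n0+1+i) p.1 * psi (n0+1+j) p.2)) := by
      intro p
      rw [hv]
      simp only
      rw [Finset.sum_mul_sum, Finset.mul_sum]
      apply Finset.sum_congr rfl
      intro i _
      rw [Finset.mul_sum]
      apply Finset.sum_congr rfl
      intro j _
      ring
    simp_rw [e4]
    rw [integral_finsetSum]
    · apply Finset.sum_congr rfl
      intro i _
      rw [integral_finsetSum]
      · apply Finset.sum_congr rfl
        intro j _
        rw [integral_const_mul]; rfl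
      · intro j _
        exact (KT_integrable h _ _).const_mul _
    · intro i _
      exact integrable_finsetSum _ (fun j _ => (KT_integrable h _ _).const_mul _)
  rw [e1, e3] at key
  exact key

end

end Pool.Agent.MPd42a57.Exact
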