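import Pool.Agent.MPd42a57.QO

open Filter Topology Set

universe u

namespace Pool.Agent.MPd42a57

lemma key_numeric : 1 < (3/4 : ℝ) ^ (27/20 : ℝ) + (Real.sqrt 3 / 4) ^ (27/20 : ℝ) := by
  have hA : (678 / 1000 : ℝ) ≤ (3/4 : ℝ) ^ (27/20 : ℝ) := by
    have h1 : (678/1000 : ℝ) = ((678/1000 : ℝ) ^ (20:ℕ)) ^ (1/20 : ℝ) := by
      rw [← Real.rpow_natCast, ← Real.rpow_mul (by norm_num)]
      norm_num
    have h2 : (3/4 : ℝ) ^ (27/20 : ℝ) = ((3/4 : ℝ) ^ (27:ℕ)) ^ (1/20 : ℝ) := by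
      rw [← Real.rpow_natCast, ← Real.rpow_mul (by norm_num)]
      norm_num
    rw [h1, h2]
    exact Real.rpow_le_rpow (by norm_num) (by norm_num) (by norm_num)
  have hB : (323 / 1000 : ℝ) ≤ (Real.sqrt 3 / 4) ^ (27/20 : ℝ) := by
    have h0 : (Real.sqrt 3 / 4) = (3/16 : ℝ) ^ (1/2 : ℝ) := by
      rw [← Real.sqrt_eq_rpow, Real.sqrt_div (by norm_num)]
      congr 1
      rw [show (16:ℝ) = 4 ^ 2 by norm_num, Real.sqrt_sq (by norm_num)]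
    have h1 : (323/1000 : ℝ) = ((323/1000 : ℝ) ^ (40:ℕ)) ^ (1/40 : ℝ) := by
      rw [← Real.rpow_natCast, ← Real.rpow_mul (by norm_num)]
      norm_num
    have h2 : (Real.sqrt 3 / 4) ^ (27/20 : ℝ) = ((3/16 : ℝ) ^ (27:ℕ)) ^ (1/40 : ℝ) := by
      rw [h0, ← Real.rpow_mul (by norm_num), ← Real.rpow_natCast, ← Real.rpow_mul (by norm_num)]
      norm_num
    rw [h1, h2]
    exact Real.rpow_le_rpow (by norm_num) (by norm_num) (by norm_num)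
  linarith

lemma exists_P : ∃ P : ℝ, 27/20 < P ∧ P < 2 ∧ (3/4 : ℝ) ^ P + (Real.sqrt 3 / 4) ^ P = 1 := by
  have h3 : 0 < Real.sqrt 3 / 4 := by positivity
  have hcont : ContinuousOn (fun P : ℝ => (3/4 : ℝ) ^ P + (Real.sqrt 3 / 4) ^ P) (Set.Icc (27/20) 2) := by
    apply Continuous.continuousOn
    exact (Real.continuous_const_rpow (by norm_num)).add (Real.continuous_const_rpow h3.ne')
  have hend : (3/4 : ℝ) ^ (2:ℝ) + (Real.sqrt 3 / 4) ^ (2:ℝ) < 1 := by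
    rw [Real.rpow_two, Real.rpow_two, div_pow (Real.sqrt 3), Real.sq_sqrt (by norm_num)]
    norm_num
  have := intermediate_value_Ioo' (show (27/20 : ℝ) ≤ 2 by norm_num) hcont
  obtain ⟨P, hP, hP2⟩ := this ⟨hend, key_numeric⟩
  exact ⟨P, hP.1, hP.2, hP2⟩

theorem main : ∃ P : ℝ, 27/20 < P ∧ P < 2 ∧ (3/4 : ℝ) ^ P + (Real.sqrt 3 / 4) ^ P = 1 ∧
    ∀ (H : Type u) [NormedAddCommGroup H] [InnerProductSpace ℝ H] [CompleteSpace H],
      ¬ FiniteDimensional ℝ H → ∀ lam : ℝ, 8 ≤ lam → ∀ m : ℕ, 1 ≤ m →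
        (3/20 : ℝ) * (m:ℝ) ^ (-(1/P - 1/2) : ℝ) ≤ gamma H m lam := by
  obtain ⟨P, hP1, hP2, hP⟩ := exists_P
  refine ⟨P, hP1, hP2, hP, ?_⟩
  intro H _ _ _ hH lam hlam m hm
  obtain ⟨w, b, ⟨e⟩⟩ := exists_basis H hH
  have h1 := norm_rr_lower b e (by linarith) hP2.le hP.ge m
  have h2 : ‖rr b e m‖ ≤ gamma H m lam := by
    apply le_csSup (bddAbove_gamma m lam)
    exact ⟨DD b e, rr b e 0, ph b e, rr b e, isDictionary b e, quasiOrthogonal b e hlam, rr_zero_mem b e,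
      isPGA b e, rfl⟩
  refine le_trans ?_ (h1.trans h2)
  have hm0 : (1:ℝ) ≤ m := by exact_mod_cast hm
  have hb0 : 0 ≤ 1/P - 1/2 := by
    have : 1/2 ≤ 1/P := one_div_le_one_div_of_le (by linarith) hP2.le
    linarith
  have hb1 : 1/P - 1/2 ≤ 1/4 := by
    have : 1/P ≤ 1/(27/20) := one_div_le_one_div_of_le (by norm_num) hP1.le
    norm_num at this ⊢
    linarith
  have h4 : (2 * (m:ℝ)) ^ (-(1/P - 1/2) : ℝ) ≤ ((m:ℝ) + 1) ^ (-(1/P - 1/2) : ℝ) := by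
    apply Real.rpow_le_rpow_of_nonpos (by linarith) (by linarith) (by linarith)
  have h5 : (4/5 : ℝ) ≤ (2:ℝ) ^ (-(1/P - 1/2) : ℝ) := by
    have h6 : (2:ℝ) ^ (-(1/4) : ℝ) ≤ (2:ℝ) ^ (-(1/P - 1/2) : ℝ) :=
      Real.rpow_le_rpow_of_exponent_le (by norm_num) (by linarith)
    refine le_trans ?_ h6
    rw [Real.rpow_neg (by norm_num)]
    rw [le_inv_comm₀ (by norm_num) (by positivity)]
    have h7 : (2:ℝ) ^ (1/4 : ℝ) ≤ (((5/4 : ℝ)) ^ (4:ℕ)) ^ (1/4 : ℝ) :=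
      Real.rpow_le_rpow (by norm_num) (by norm_num) (by norm_num)
    refine h7.trans ?_
    rw [← Real.rpow_natCast, ← Real.rpow_mul (by norm_num)]
    norm_num
  rw [Real.mul_rpow (by norm_num) (by linarith)] at h4
  have h8 : 0 ≤ (m:ℝ) ^ (-(1/P - 1/2) : ℝ) := by positivity
  nlinarith

end Pool.Agent.MPd42a57
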