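import Pool.Agent.MPd42a57.Kernel
import Pool.Agent.MPd42a57.Asymp2

open Filter Topology Set

namespace Pool.Agent.MPd42a57.Exact

section Pos

variable {k : ℝ} {n0 : ℕ}

lemma log_diff_le {a : ℕ} (ha : 0 < a) : Real.log ((a:ℝ)+1) - Real.log a ≤ 1 / a := by
  have ha' : (0:ℝ) < a := by exact_mod_cast ha
  rw [← Real.log_div (by positivity) ha'.ne']
  have := Real.log_le_sub_one_of_pos (show (0:ℝ) < ((a:ℝ)+1)/a by positivity)
  refine le_trans this (le_of_eq ?_)
  field_simp; ring

lemma log_diff_ge {a : ℕ} (ha : 0 < a) : 1 / ((a:ℝ)+1) ≤ Real.log ((a:ℝ)+1) - Real.log a := by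
  have ha' : (0:ℝ) < a := by exact_mod_cast ha
  have h1 := Real.log_le_sub_one_of_pos (show (0:ℝ) < (a:ℝ)/(a+1) by positivity)
  rw [Real.log_div ha'.ne' (by positivity)] at h1
  have h2 : (a:ℝ)/(a+1) - 1 = -(1/((a:ℝ)+1)) := by field_simp; ring
  rw [h2] at h1
  linarith

/-- The boundary relation. -/
def bdry (k : ℝ) (n0 i j : ℕ) : Prop :=
  k * ((n0:ℝ)+1+i) - 1 < (n0:ℝ)+1+j ∧ (n0:ℝ)+1+j ≤ k * ((n0:ℝ)+1+i+1)

open Classical in
/-- The error bound. -/
noncomputable def eb (k : ℝ) (n0 i j : ℕ) : ℝ :=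
  ss k * k^2 / ((n0:ℝ)+1+j)^2 + (if bdry k n0 i j then 2 * ss k / ((n0:ℝ)+1+i) else 0)

lemma cast_a (n0 i : ℕ) : (((n0+1+i : ℕ)) : ℝ) = (n0:ℝ)+1+i := by push_cast; ring

lemma D_le (h : KHyp k) {i j : ℕ} (hij : i < j) :
    |Gm (yy k n0) i j - KT k (n0+1+i) (n0+1+j)| ≤ eb k n0 i j := by
  have hy := yy_hyp h n0
  have hb := ss_bounds h
  have hk := h.pos
  have hk1 : 1 < k := by linarith [h.lo]
  have hs : 0 < ss k := by linarith
  have hai := tpos n0 i
  have haj := tpos n0 j
  have hJ1 := JJ_gt (n0 := n0) h i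
  have hJ2 := JJ_le_k (n0 := n0) h i
  have hterm : 0 ≤ ss k * k^2 / ((n0:ℝ)+1+j)^2 := by positivity
  unfold eb
  by_cases hbd : bdry k n0 i j
  · rw [if_pos hbd]
    have e1 := abs_Gm_le hy hij.le
    have e2 := gr_le (n0 := n0) h i
    have e3 := KT_abs_le h (show 0 < n0+1+i by omega) (show n0+1+i < n0+1+j by omega)
    have e4 := log_diff_le (show 0 < n0+1+i by omega)
    rw [cast_a] at e3 e4
    have e5 := mul_le_mul_of_nonneg_left e4 hs.le
    have e6 := abs_sub (Gm (yy k n0) i j) (KT k (n0+1+i) (n0+1+j))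
    have e7 : 2 * ss k / ((n0:ℝ)+1+i) = ss k / ((n0:ℝ)+1+i) + ss k * (1 / ((n0:ℝ)+1+i)) := by ring
    linarith
  · rw [if_neg hbd, add_zero]
    rcases le_or_gt ((n0:ℝ)+1+j) (k * ((n0:ℝ)+1+i) - 1) with hnear | hfar
    · have hjJ : j < JJ (yy k n0) i := by
        have : (j:ℝ) < JJ (yy k n0) i := by linarith
        exact_mod_cast this
      have eG : Gm (yy k n0) i j = gr (yy k n0) i := by unfold Gm; rw [if_pos hjJ]
      have eK := KT_near h (show 0 < n0+1+i by omega) (show n0+1+i < n0+1+j by omega)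
        (by rw [cast_a, cast_a]; linarith)
      rw [eG, eK]
      have e1 := log_diff_le (show 0 < n0+1+i by omega)
      have e2 := log_diff_ge (show 0 < n0+1+i by omega)
      rw [cast_a] at e1 e2 ⊢
      have e3 := mul_le_mul_of_nonneg_left e1 hs.le
      have e4 := mul_le_mul_of_nonneg_left e2 hs.le
      have e5 := gr_le (n0 := n0) h i
      have e6 := gr_ge (n0 := n0) h i
      set t := (n0:ℝ)+1+i with ht
      set w := (n0:ℝ)+1+j with hw
      have e7 : ss k / t - ss k / (t+1) ≤ ss k * k^2 / w^2 := by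
        have : ss k / t - ss k / (t+1) = ss k / (t*(t+1)) := by field_simp; ring
        rw [this, div_le_div_iff₀ (by positivity) (by positivity)]
        have h1 : w^2 ≤ (k*t)^2 := pow_le_pow_left₀ haj.le (by linarith) 2
        have h2 : ss k * w^2 ≤ ss k * (k*t)^2 := mul_le_mul_of_nonneg_left h1 hs.le
        have h3 : 0 ≤ ss k * k^2 * t := by positivity
        nlinarith
      have e8 : ss k * (1/t) = ss k / t := by ring
      have e9 : ss k * (1/(t+1)) = ss k / (t+1) := by ring
      rw [e8] at e3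
      rw [e9] at e4
      rw [abs_le]
      constructor <;> linarith
    · have hfar' : k * ((n0:ℝ)+1+i+1) < (n0:ℝ)+1+j := by
        by_contra hc
        push Not at hc
        exact hbd ⟨hfar, hc⟩
      have hjJ : JJ (yy k n0) i < j := by
        have : (JJ (yy k n0) i : ℝ) < j := by linarith
        exact_mod_cast this
      have eG : Gm (yy k n0) i j = - gr (yy k n0) j := by
        unfold Gm; rw [if_neg (by omega), if_neg (by omega)]
      have eK := KT_far h (show 0 < n0+1+i by omega) (show n0+1+i < n0+1+j by omega)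
        (by rw [cast_a, cast_a]; linarith)
      rw [eG, eK]
      have e1 := log_diff_le (show 0 < n0+1+j by omega)
      have e2 := log_diff_ge (show 0 < n0+1+j by omega)
      rw [cast_a] at e1 e2 ⊢
      have e3 := mul_le_mul_of_nonneg_left e1 hs.le
      have e4 := mul_le_mul_of_nonneg_left e2 hs.le
      have e5 := gr_le (n0 := n0) h j
      have e6 := gr_ge (n0 := n0) h j
      set w := (n0:ℝ)+1+j with hw
      have e7 : ss k / w - ss k / (w+1) ≤ ss k * k^2 / w^2 := by
        have : ss k / w - ss k / (w+1) = ss k / (w*(w+1)) := by field_simp; ring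
        rw [this, div_le_div_iff₀ (by positivity) (by positivity)]
        have h1 : 1 ≤ k^2 := one_le_pow₀ hk1.le
        have h2 : ss k * w^2 * 1 ≤ ss k * w^2 * k^2 := mul_le_mul_of_nonneg_left h1 (by positivity)
        have h3 : 0 ≤ ss k * k^2 * w := by positivity
        nlinarith
      have e8 : ss k * (1/w) = ss k / w := by ring
      have e9 : ss k * (1/(w+1)) = ss k / (w+1) := by ring
      rw [e8] at e3
      rw [e9] at e4
      rw [abs_le]
      constructor <;> linarith

lemma card_le_of_diam (A : Finset ℕ) {l : ℝ} (hl : 0 ≤ l) (hA : ∀ a ∈ A, ∀ b ∈ A, (b:ℝ) - a ≤ l) :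
    (A.card : ℝ) ≤ l + 1 := by
  rcases A.eq_empty_or_nonempty with rfl | hne
  · simp; linarith
  · have h1 := hA _ (A.min'_mem hne) _ (A.max'_mem hne)
    have h2 : A ⊆ Finset.Icc (A.min' hne) (A.max' hne) := by
      intro a ha
      rw [Finset.mem_Icc]
      exact ⟨A.min'_le a ha, A.le_max' a ha⟩
    have h3 := Finset.card_le_card h2
    rw [Nat.card_Icc] at h3
    have h4 : A.min' hne ≤ A.max' hne := A.min'_le_max' hne
    have h5 : ((A.max' hne + 1 - A.min' hne : ℕ) : ℝ) = (A.max' hne : ℝ) + 1 - A.min' hne := by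
      rw [Nat.cast_sub (by omega)]; push_cast; ring
    have h6 : (A.card : ℝ) ≤ ((A.max' hne + 1 - A.min' hne : ℕ) : ℝ) := by exact_mod_cast h3
    rw [h5] at h6
    linarith

lemma sum_inv_sq (n0 i T : ℕ) :
    ∑ j ∈ Finset.range T, (if i < j then 1 / ((n0:ℝ)+1+j)^2 else 0) ≤ 1 / ((n0:ℝ)+1+i) := by
  have key : ∀ T, i + 1 ≤ T → ∑ j ∈ Finset.range T, (if i < j then 1 / ((n0:ℝ)+1+j)^2 else 0)
      ≤ 1 / ((n0:ℝ)+1+i) - 1 / ((n0:ℝ)+T) := by
    intro T hT
    induction T, hT using Nat.le_induction with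
    | base =>
      have e1 : ∑ j ∈ Finset.range (i+1), (if i < j then 1 / ((n0:ℝ)+1+j)^2 else 0) = 0 := by
        apply Finset.sum_eq_zero
        intro j hj
        rw [Finset.mem_range] at hj
        rw [if_neg (by omega)]
      rw [e1]
      have e2 : (n0:ℝ) + ((i+1 : ℕ) : ℝ) = (n0:ℝ)+1+i := by push_cast; ring
      rw [e2, sub_self]
    | succ n hn ih =>
      rw [Finset.sum_range_succ, if_pos (by omega)]
      have e2 : (n0:ℝ) + ((n+1 : ℕ) : ℝ) = (n0:ℝ)+1+n := by push_cast; ring
      rw [e2]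
      have hnpos : (0:ℝ) < (n0:ℝ) + n := by
        have : (0:ℝ) < n := by exact_mod_cast (by omega : 0 < n)
        positivity
      have hw := tpos n0 n
      have e3 : 1 / ((n0:ℝ)+1+n)^2 ≤ 1 / ((n0:ℝ)+n) - 1 / ((n0:ℝ)+1+n) := by
        have : 1 / ((n0:ℝ)+n) - 1 / ((n0:ℝ)+1+n) = 1 / (((n0:ℝ)+n) * ((n0:ℝ)+1+n)) := by
          field_simp; ring
        rw [this]
        apply one_div_le_one_div_of_le (by positivity)
        nlinarith
      linarith
  rcases Nat.lt_or_ge i T with hlt | hge
  · refine le_trans (key T hlt) ?_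
    have : 0 ≤ 1 / ((n0:ℝ)+T) := by positivity
    linarith
  · have e1 : ∑ j ∈ Finset.range T, (if i < j then 1 / ((n0:ℝ)+1+j)^2 else 0) = 0 := by
      apply Finset.sum_eq_zero
      intro j hj
      rw [Finset.mem_range] at hj
      rw [if_neg (by omega)]
    rw [e1]
    have := tpos n0 i
    positivity

open Classical in
/-- The symmetric error matrix. -/
noncomputable def EE (k : ℝ) (n0 i j : ℕ) : ℝ :=
  if i = j then 2 * ss k / ((n0:ℝ)+1+i) else if i < j then eb k n0 i j else eb k n0 j i

lemma EE_symm (i j : ℕ) : EE k n0 i j = EE k n0 j i := by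
  unfold EE
  rcases lt_trichotomy i j with h | h | h
  · rw [if_neg (by omega), if_pos h, if_neg (by omega), if_neg (by omega)]
  · subst h; rfl
  · rw [if_neg (by omega), if_neg (by omega), if_neg (by omega), if_pos h]

lemma DD_le (h : KHyp k) (i j : ℕ) :
    |GG (yy k n0) i j - KT k (n0+1+i) (n0+1+j) - (if i = j then 1 else 0)| ≤ EE k n0 i j := by
  have hs : 0 < ss k := by linarith [(ss_bounds h).1]
  unfold GG EE
  rcases lt_trichotomy i j with hlt | heq | hgt
  · rw [if_neg (by omega), if_pos hlt, if_neg (by omega), if_neg (by omega), if_pos hlt, sub_zero]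
    exact D_le h hlt
  · subst heq
    rw [if_pos rfl, if_pos rfl, if_pos rfl]
    have e1 := KT_diag_le h (show 0 < n0+1+i by omega)
    have e2 := log_diff_le (show 0 < n0+1+i by omega)
    rw [cast_a] at e1 e2
    have e3 := mul_le_mul_of_nonneg_left e2 hs.le
    have e4 : (1:ℝ) - KT k (n0+1+i) (n0+1+i) - 1 = -(KT k (n0+1+i) (n0+1+i)) := by ring
    rw [e4, abs_neg]
    have e5 : 2 * ss k / ((n0:ℝ)+1+i) = 2 * (ss k * (1 / ((n0:ℝ)+1+i))) := by ring
    rw [e5]
    linarith
  · rw [if_neg (by omega), if_neg (by omega), if_neg (by omega), if_neg (by omega), if_neg (by omega), sub_zero,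
      KT_symm]
    exact D_le h hgt

lemma row_EE (h : KHyp k) (hn : 10000 ≤ n0) {i T : ℕ} :
    ∑ j ∈ Finset.range T, EE k n0 i j ≤ 0.01 := by
  classical
  have hb := ss_bounds h
  have hk := h.pos
  have hk2 := h.hi
  have hk1 := h.lo
  have hs : 0 < ss k := by linarith
  have hai := tpos n0 i
  have hn' : (10000:ℝ) ≤ n0 := by exact_mod_cast hn
  have hai2 : (10001:ℝ) ≤ (n0:ℝ)+1+i := by linarith [show (0:ℝ) ≤ i from Nat.cast_nonneg _]
  set t := (n0:ℝ)+1+i with ht
  have hsplit : ∀ j ∈ Finset.range T, EE k n0 i j ≤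
      (if i < j then ss k * k^2 / ((n0:ℝ)+1+j)^2 else 0)
      + (if j < i then ss k * k^2 / t^2 else 0)
      + (if i < j ∧ bdry k n0 i j then 2 * ss k / t else 0)
      + (if j < i ∧ bdry k n0 j i then 6 * ss k / t else 0)
      + (if i = j then 2 * ss k / t else 0) := by
    intro j _
    unfold EE eb
    rcases lt_trichotomy i j with hlt | heq | hgt
    · rw [if_neg (by omega), if_pos hlt, if_pos hlt, if_neg (by omega : ¬ j < i),
        if_neg (by omega : ¬ (j < i ∧ bdry k n0 j i)), if_neg (by omega : ¬ i = j)]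
      by_cases hbd : bdry k n0 i j
      · rw [if_pos hbd, if_pos ⟨hlt, hbd⟩]; linarith
      · rw [if_neg hbd, if_neg (fun hh => hbd hh.2)]; linarith
    · subst heq
      simp only [lt_irrefl, false_and, if_false, if_true, zero_add]
      exact le_rfl
    · rw [if_neg (by omega), if_neg (by omega), if_neg (by omega : ¬ i < j), if_pos hgt,
        if_neg (by omega : ¬ (i < j ∧ bdry k n0 i j)), if_neg (by omega : ¬ i = j)]
      by_cases hbd : bdry k n0 j i
      · rw [if_pos hbd, if_pos ⟨hgt, hbd⟩]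
        have haj := tpos n0 j
        have h2 : t ≤ k * ((n0:ℝ)+1+j+1) := hbd.2
        have h3 : t ≤ 3 * ((n0:ℝ)+1+j) := by nlinarith
        have h4 : 2 * ss k / ((n0:ℝ)+1+j) ≤ 6 * ss k / t := by
          rw [div_le_div_iff₀ haj hai]
          nlinarith
        linarith
      · rw [if_neg hbd, if_neg (fun hh => hbd hh.2)]; linarith
  refine le_trans (Finset.sum_le_sum hsplit) ?_
  rw [Finset.sum_add_distrib, Finset.sum_add_distrib, Finset.sum_add_distrib, Finset.sum_add_distrib]
  have s1 : ∑ j ∈ Finset.range T, (if i < j then ss k * k^2 / ((n0:ℝ)+1+j)^2 else 0) ≤ ss k * k^2 / t := by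
    have := mul_le_mul_of_nonneg_left (sum_inv_sq n0 i T) (show 0 ≤ ss k * k^2 by positivity)
    rw [Finset.mul_sum] at this
    refine le_trans (le_of_eq ?_) (le_trans this (le_of_eq ?_))
    · apply Finset.sum_congr rfl
      intro j _
      split_ifs <;> ring
    · rw [← ht]; ring
  have s2 : ∑ j ∈ Finset.range T, (if j < i then ss k * k^2 / t^2 else 0) ≤ ss k * k^2 / t := by
    rw [← Finset.sum_filter, Finset.sum_const, nsmul_eq_mul]
    have hc : ((Finset.filter (fun j => j < i) (Finset.range T)).card : ℝ) ≤ i := by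
      have : Finset.filter (fun j => j < i) (Finset.range T) ⊆ Finset.range i := by
        intro j hj
        rw [Finset.mem_filter] at hj
        exact Finset.mem_range.mpr hj.2
      have := Finset.card_le_card this
      rw [Finset.card_range] at this
      exact_mod_cast this
    have hc2 : ((Finset.filter (fun j => j < i) (Finset.range T)).card : ℝ) ≤ t := by
      rw [ht]; linarith
    calc ((Finset.filter (fun j => j < i) (Finset.range T)).card : ℝ) * (ss k * k^2 / t^2)
        ≤ t * (ss k * k^2 / t^2) := mul_le_mul_of_nonneg_right hc2 (by positivity)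
      _ = ss k * k^2 / t := by field_simp
  have s3 : ∑ j ∈ Finset.range T, (if i < j ∧ bdry k n0 i j then 2 * ss k / t else 0) ≤ (k + 2) * (2 * ss k / t) := by
    rw [← Finset.sum_filter, Finset.sum_const, nsmul_eq_mul]
    apply mul_le_mul_of_nonneg_right _ (by positivity)
    have := card_le_of_diam (Finset.filter (fun j => i < j ∧ bdry k n0 i j) (Finset.range T)) (l := k + 1)
      (by linarith) (by
        intro a ha b hb
        rw [Finset.mem_filter] at ha hb
        have h1 := ha.2.2.1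
        have h2 := hb.2.2.2
        linarith)
    linarith
  have s4 : ∑ j ∈ Finset.range T, (if j < i ∧ bdry k n0 j i then 6 * ss k / t else 0) ≤ 3 * (6 * ss k / t) := by
    rw [← Finset.sum_filter, Finset.sum_const, nsmul_eq_mul]
    apply mul_le_mul_of_nonneg_right _ (by positivity)
    have := card_le_of_diam (Finset.filter (fun j => j < i ∧ bdry k n0 j i) (Finset.range T)) (l := 2)
      (by norm_num) (by
        intro a ha b hb
        rw [Finset.mem_filter] at ha hb
        have h1 := ha.2.2.2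
        have h2 := hb.2.2.1
        by_contra hc
        push Not at hc
        nlinarith)
    linarith
  have s5 : ∑ j ∈ Finset.range T, (if i = j then 2 * ss k / t else 0) ≤ 2 * ss k / t := by
    rw [Finset.sum_ite_eq]
    split_ifs
    · exact le_rfl
    · positivity
  have tot : ss k * k^2 / t + ss k * k^2 / t + (k + 2) * (2 * ss k / t) + 3 * (6 * ss k / t) + 2 * ss k / t
      = ss k * (2 * k^2 + 2 * k + 24) / t := by ring
  have fin : ss k * (2 * k^2 + 2 * k + 24) / t ≤ 0.01 := by
    rw [div_le_iff₀ hai]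
    have h1 : 2 * k^2 + 2 * k + 24 ≤ 40 := by nlinarith
    have h2 : ss k * (2 * k^2 + 2 * k + 24) ≤ ss k * 40 := mul_le_mul_of_nonneg_left h1 hs.le
    nlinarith
  linarith

theorem posHyp (h : KHyp k) (hn : 10000 ≤ n0) : PosHyp (yy k n0) 0.39 := by
  intro T x
  have h1 := KT_form h n0 T x
  have hE : ∑ i ∈ Finset.range T, ∑ j ∈ Finset.range T, |x i| * |x j| * EE k n0 i j
      ≤ 0.01 * ∑ i ∈ Finset.range T, (x i)^2 := by
    have hs : 0 < ss k := by linarith [(ss_bounds h).1]
    have hEnn : ∀ i j, 0 ≤ EE k n0 i j := fun i j => le_trans (abs_nonneg _) (DD_le h i j)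
    have e1 : ∑ i ∈ Finset.range T, ∑ j ∈ Finset.range T, |x i| * |x j| * EE k n0 i j
        ≤ ∑ i ∈ Finset.range T, ∑ j ∈ Finset.range T, ((x i)^2/2 * EE k n0 i j + (x j)^2/2 * EE k n0 j i) := by
      apply Finset.sum_le_sum; intro i _
      apply Finset.sum_le_sum; intro j _
      rw [EE_symm j i, ← add_mul]
      apply mul_le_mul_of_nonneg_right _ (hEnn i j)
      have := sq_nonneg (|x i| - |x j|)
      have h3 := sq_abs (x i)
      have h4 := sq_abs (x j)
      nlinarith
    refine le_trans e1 ?_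
    simp only [Finset.sum_add_distrib]
    rw [Finset.sum_comm (f := fun i j => (x j)^2/2 * EE k n0 j i)]
    simp only [← Finset.mul_sum]
    have e2 : ∑ i ∈ Finset.range T, (x i)^2/2 * ∑ j ∈ Finset.range T, EE k n0 i j
        ≤ ∑ i ∈ Finset.range T, (x i)^2/2 * 0.01 := by
      apply Finset.sum_le_sum; intro i _
      exact mul_le_mul_of_nonneg_left (row_EE h hn) (by positivity)
    have e3 : ∑ i ∈ Finset.range T, (x i)^2/2 * 0.01 = 0.01/2 * ∑ i ∈ Finset.range T, (x i)^2 := by
      rw [Finset.mul_sum]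
      apply Finset.sum_congr rfl; intro i _; ring
    linarith
  have hD : -(∑ i ∈ Finset.range T, ∑ j ∈ Finset.range T, |x i| * |x j| * EE k n0 i j)
      ≤ ∑ i ∈ Finset.range T, ∑ j ∈ Finset.range T, x i * x j *
        (GG (yy k n0) i j - KT k (n0+1+i) (n0+1+j) - (if i = j then 1 else 0)) := by
    rw [← Finset.sum_neg_distrib]
    apply Finset.sum_le_sum; intro i _
    rw [← Finset.sum_neg_distrib]
    apply Finset.sum_le_sum; intro j _
    have := DD_le (n0 := n0) h i j
    have h2 : |x i * x j * (GG (yy k n0) i j - KT k (n0+1+i) (n0+1+j) - (if i = j then 1 else 0))|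
        ≤ |x i| * |x j| * EE k n0 i j := by
      rw [abs_mul, abs_mul]
      exact mul_le_mul_of_nonneg_left this (by positivity)
    exact (abs_le.mp h2).1
  have hexp : ∑ i ∈ Finset.range T, ∑ j ∈ Finset.range T, x i * x j *
        (GG (yy k n0) i j - KT k (n0+1+i) (n0+1+j) - (if i = j then 1 else 0))
      = ∑ i ∈ Finset.range T, ∑ j ∈ Finset.range T, x i * x j * GG (yy k n0) i j
        - ∑ i ∈ Finset.range T, ∑ j ∈ Finset.range T, x i * x j * KT k (n0+1+i) (n0+1+j)
        - ∑ i ∈ Finset.range T, (x i)^2 := by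
    have e1 : ∀ i ∈ Finset.range T, ∑ j ∈ Finset.range T, x i * x j * (if i = j then (1:ℝ) else 0) = (x i)^2 := by
      intro i hi
      simp only [mul_ite, mul_one, mul_zero]
      rw [Finset.sum_ite_eq, if_pos hi]; ring
    rw [← Finset.sum_congr rfl e1, ← Finset.sum_sub_distrib, ← Finset.sum_sub_distrib]
    apply Finset.sum_congr rfl; intro i _
    rw [← Finset.sum_sub_distrib, ← Finset.sum_sub_distrib]
    apply Finset.sum_congr rfl; intro j _
    ring
  rw [hexp] at hD
  linarith

end Pos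

end Pool.Agent.MPd42a57.Exact
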