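import Pool.Agent.MPd42a57.QO2
import Pool.Agent.MPd42a57.Pos

open Filter Topology Set

namespace Pool.Agent.MPd42a57.Exact

section Num

variable {k : ℝ} {n0 : ℕ}

variable (k n0) in
/-- The minimal `β`. -/
noncomputable def b0 : ℝ := CF k n0 / ss k * (1 + 1/n0)

variable (k n0) in
/-- The number of orthonormal vectors. -/
noncomputable def NN : ℕ := ⌈(b0 k n0)^2 / S0 k n0⌉₊

variable (k n0) in
/-- The parameter `β`. -/
noncomputable def bb : ℝ := Real.sqrt (NN k n0 * S0 k n0)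

lemma b0_bounds (h : KHyp k) (hn : 10000 ≤ n0) :
    (k+1) * (n0:ℝ)^(1 - ss k) ≤ b0 k n0 ∧ b0 k n0 ≤ 1.0004 * ((k+1) * (n0:ℝ)^(1 - ss k)) := by
  have hb := ss_bounds h
  have hk := h.pos
  have hk1 := h.lo
  have hs : 0 < ss k := by linarith
  have hn' : (10000:ℝ) ≤ n0 := by exact_mod_cast hn
  have hn0 : (0:ℝ) < n0 := by linarith
  have hn1 : (0:ℝ) < (n0:ℝ)+1 := by linarith
  set V := (n0:ℝ)^(1 - ss k) with hV
  have hVpos : 0 < V := Real.rpow_pos_of_pos hn0 _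
  set V' := ((n0:ℝ)+1)^(1 - ss k) with hV'
  have hVV : V ≤ V' := Real.rpow_le_rpow hn0.le (by linarith) (by linarith)
  have hinv : 1/(n0:ℝ) ≤ 0.0001 := by
    rw [div_le_iff₀ hn0]; linarith
  have hinv0 : 0 < 1/(n0:ℝ) := by positivity
  have hV'V : V' ≤ 1.0001 * V := by
    have e1 : (n0:ℝ)+1 = n0 * (1 + 1/n0) := by field_simp
    have e2 : (1 + 1/(n0:ℝ))^(1 - ss k) ≤ 1 + 1/n0 := by
      calc (1 + 1/(n0:ℝ))^(1 - ss k) ≤ (1 + 1/(n0:ℝ))^(1:ℝ) :=
            Real.rpow_le_rpow_of_exponent_le (by linarith) (by linarith)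
        _ = _ := Real.rpow_one _
    rw [hV', e1, Real.mul_rpow hn0.le (by linarith), ← hV]
    nlinarith
  have hsplit : ((n0:ℝ)+1)^(-ss k) = V' / ((n0:ℝ)+1) := by
    rw [eq_div_iff hn1.ne', hV', rpow_split hn1]; ring
  have hCF : CF k n0 / ss k = (k+1) * V' * (1 + ((k+1)/k) / ((n0:ℝ)+1)) := by
    unfold CF
    rw [hsplit, ← hV']
    unfold ss
    field_simp
  have hr : (k+1)/k ≤ 1.5 := by
    rw [div_le_iff₀ hk]; linarith
  have hr0 : 0 < (k+1)/k := by positivity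
  have hr2 : ((k+1)/k) / ((n0:ℝ)+1) ≤ 0.00015 := by
    rw [div_le_iff₀ hn1]; nlinarith
  have hr3 : 0 < ((k+1)/k) / ((n0:ℝ)+1) := by positivity
  unfold b0
  rw [hCF]
  constructor
  · have h1 : (k+1) * V ≤ (k+1) * V' := mul_le_mul_of_nonneg_left hVV (by linarith)
    have h2 : 0 < (k+1) * V' := by positivity
    have h3 : (k+1) * V' * 1 ≤ (k+1) * V' * (1 + ((k+1)/k) / ((n0:ℝ)+1)) :=
      mul_le_mul_of_nonneg_left (by linarith) h2.le
    have h4 : 0 < (k+1) * V' * (1 + ((k+1)/k) / ((n0:ℝ)+1)) := by positivity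
    nlinarith
  · have h1 : (k+1) * V' ≤ (k+1) * (1.0001 * V) := mul_le_mul_of_nonneg_left hV'V (by linarith)
    have h2 : (k+1) * V' * (1 + ((k+1)/k) / ((n0:ℝ)+1)) ≤ ((k+1) * (1.0001 * V)) * 1.00015 :=
      mul_le_mul h1 (by linarith) (by positivity) (by positivity)
    have h3 : (k+1) * V' * (1 + ((k+1)/k) / ((n0:ℝ)+1)) * (1 + 1/n0)
        ≤ (((k+1) * (1.0001 * V)) * 1.00015) * 1.0001 :=
      mul_le_mul h2 (by linarith) (by positivity) (by positivity)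
    have h4 : 0 < (k+1) * V := by positivity
    nlinarith

lemma S0_V (h : KHyp k) (hn : 10000 ≤ n0) : (k-1) * S0 k n0 * n0 ≤ (k+1) * ((n0:ℝ)^(1 - ss k))^2 := by
  have hk := h.pos
  have hn' : (10000:ℝ) ≤ n0 := by exact_mod_cast hn
  have hn0 : (0:ℝ) < n0 := by linarith
  have h1 := S0_le (n0 := n0) h (by omega)
  have h2 := p_mul h
  have e1 : ((n0:ℝ)^(1 - ss k))^2 = (n0:ℝ)^(-(2 * ss k - 1)) * n0 := by
    rw [← Real.rpow_natCast, ← Real.rpow_mul hn0.le]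
    nth_rewrite 3 [← Real.rpow_one (n0:ℝ)]
    rw [← Real.rpow_add hn0]
    congr 1; push_cast; ring
  rw [e1]
  have h3 := mul_le_mul_of_nonneg_left h1 (show 0 ≤ (k+1) * n0 by positivity)
  calc (k-1) * S0 k n0 * n0 = (k+1) * n0 * ((2 * ss k - 1) * S0 k n0) := by rw [← h2]; ring
    _ ≤ _ := h3
    _ = _ := by ring

lemma NN_bounds (h : KHyp k) (hn : 10000 ≤ n0) :
    (b0 k n0)^2 ≤ NN k n0 * S0 k n0 ∧ NN k n0 * S0 k n0 ≤ (b0 k n0)^2 + S0 k n0 ∧ 0 < NN k n0 := by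
  have hS := S0_pos (n0 := n0) h (by omega)
  have hb := (b0_bounds h hn).1
  have hn' : (10000:ℝ) ≤ n0 := by exact_mod_cast hn
  have hn0 : (0:ℝ) < n0 := by linarith
  have hV : 0 < (n0:ℝ)^(1 - ss k) := Real.rpow_pos_of_pos hn0 _
  have hk := h.pos
  have hbpos : 0 < b0 k n0 := lt_of_lt_of_le (by positivity) hb
  refine ⟨?_, ?_, ?_⟩
  · have := Nat.le_ceil ((b0 k n0)^2 / S0 k n0)
    rw [div_le_iff₀ hS] at this
    exact this
  · have := (Nat.ceil_lt_add_one (show 0 ≤ (b0 k n0)^2 / S0 k n0 by positivity)).le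
    have h2 := mul_le_mul_of_nonneg_right this hS.le
    refine le_trans h2 (le_of_eq ?_)
    field_simp
  · exact Nat.ceil_pos.mpr (by positivity)

lemma bb_sq (h : KHyp k) (hn : 10000 ≤ n0) : (bb k n0)^2 = NN k n0 * S0 k n0 := by
  unfold bb
  have hS := S0_pos (n0 := n0) h (by omega)
  rw [Real.sq_sqrt (by positivity)]

lemma bb_nonneg : 0 ≤ bb k n0 := Real.sqrt_nonneg _

lemma b0_le_bb (h : KHyp k) (hn : 10000 ≤ n0) : b0 k n0 ≤ bb k n0 := by
  have h1 := (NN_bounds h hn).1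
  rw [← bb_sq h hn] at h1
  exact (abs_le_of_sq_le_sq' h1 bb_nonneg).2

lemma bb_le (h : KHyp k) (hn : 10000 ≤ n0) : bb k n0 ≤ 1.0005 * ((k+1) * (n0:ℝ)^(1 - ss k)) := by
  have hk := h.pos
  have hk1 := h.lo
  have hn' : (10000:ℝ) ≤ n0 := by exact_mod_cast hn
  have hn0 : (0:ℝ) < n0 := by linarith
  have hV : 0 < (n0:ℝ)^(1 - ss k) := Real.rpow_pos_of_pos hn0 _
  obtain ⟨hb1, hb2⟩ := b0_bounds h hn
  have h2 := (NN_bounds h hn).2.1
  rw [← bb_sq h hn] at h2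
  have h3 := S0_V h hn
  have hS := S0_pos (n0 := n0) h (by omega)
  set V := (n0:ℝ)^(1 - ss k) with hVd
  have h4 : S0 k n0 ≤ 0.0001 * ((k+1) * V)^2 := by
    have e1 : (k-1) * n0 * S0 k n0 ≤ (k-1) * n0 * (0.0001 * ((k+1) * V)^2) := by
      have e2 : (k+1) * V^2 ≤ (k-1) * n0 * (0.0001 * ((k+1) * V)^2) := by
        have e3 : 1 ≤ (k-1) * n0 * 0.0001 * (k+1) := by
          have q1 : (1:ℝ) ≤ (k-1) * (k+1) := by nlinarith
          have q2 : (1:ℝ) ≤ n0 * 0.0001 := by linarith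
          have q3 : (1:ℝ) * 1 ≤ ((k-1) * (k+1)) * (n0 * 0.0001) := mul_le_mul q1 q2 (by norm_num) (by linarith)
          linarith
        have e4 : 0 ≤ (k+1) * V^2 := by positivity
        calc (k+1) * V^2 = (k+1) * V^2 * 1 := by ring
          _ ≤ (k+1) * V^2 * ((k-1) * n0 * 0.0001 * (k+1)) := mul_le_mul_of_nonneg_left e3 e4
          _ = _ := by ring
      linarith
    have e5 : 0 < (k-1) * n0 := mul_pos (by linarith) hn0
    exact le_of_mul_le_mul_left e1 e5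
  have hb0 : 0 ≤ b0 k n0 := le_trans (by positivity) hb1
  have h5 : (b0 k n0)^2 ≤ (1.0004 * ((k+1) * V))^2 := pow_le_pow_left₀ hb0 hb2 2
  have h6 : (bb k n0)^2 ≤ (1.0005 * ((k+1) * V))^2 := by nlinarith [sq_nonneg ((k+1) * V)]
  exact (abs_le_of_sq_le_sq' h6 (by positivity)).2

lemma NN_ge (h : KHyp k) (hn : 10000 ≤ n0) : (k^2 - 1) * n0 ≤ NN k n0 := by
  have hk := h.pos
  have hk1 := h.lo
  have hn' : (10000:ℝ) ≤ n0 := by exact_mod_cast hn
  have hn0 : (0:ℝ) < n0 := by linarith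
  have hV : 0 < (n0:ℝ)^(1 - ss k) := Real.rpow_pos_of_pos hn0 _
  obtain ⟨hb1, hb2⟩ := b0_bounds h hn
  have h2 := (NN_bounds h hn).1
  have h3 := S0_V h hn
  have hS := S0_pos (n0 := n0) h (by omega)
  set V := (n0:ℝ)^(1 - ss k) with hVd
  have h4 : ((k+1) * V)^2 ≤ (b0 k n0)^2 := pow_le_pow_left₀ (by positivity) hb1 2
  have h5 : (k^2 - 1) * n0 * S0 k n0 ≤ NN k n0 * S0 k n0 := by
    have h6 := mul_le_mul_of_nonneg_left h3 (show 0 ≤ k + 1 by linarith)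
    nlinarith
  exact le_of_mul_le_mul_right h5 hS

lemma core_ineq {n n0 A1 U V δ : ℝ} (hA : 0 ≤ A1) (hV : 0 ≤ V) (hUV : V ≤ U) (h1 : A1 * U^2 = n)
    (h2 : n0 ≤ A1 * V^2) (hδ0 : 0 ≤ δ) (hδ1 : δ ≤ 1) :
    A1 * (U - δ*V)^2 ≤ (n - n0) + (1 - δ)^2 * n0 := by
  have h3 : A1 * V^2 ≤ A1 * (U * V) := by
    apply mul_le_mul_of_nonneg_left _ hA
    nlinarith
  have h4 : δ^2 * (A1 * V^2 - n0) ≤ δ * (A1 * V^2 - n0) := by
    apply mul_le_mul_of_nonneg_right _ (by linarith)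
    nlinarith
  have h5 : δ * (A1 * V^2 - n0) ≤ δ * (A1 * (U*V) - n0) := mul_le_mul_of_nonneg_left (by linarith) hδ0
  have h6 : 0 ≤ δ * (A1 * (U*V) - n0) := mul_nonneg hδ0 (by linarith)
  have e : A1 * (U - δ*V)^2 = A1 * U^2 - 2 * (δ * (A1 * (U*V))) + δ^2 * (A1 * V^2) := by ring
  rw [e, h1]
  nlinarith

theorem numHyp (h : KHyp k) (hn : 10000 ≤ n0) {lam : ℝ} (hlam : 12 ≤ lam) :
    NumHyp (yy k n0) 0.39 (S0 k n0) (NN k n0) (bb k n0) lam := by
  intro P a hPN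
  have hb := ss_bounds h
  have hk := h.pos
  have hk1 := h.lo
  have hk2 := h.hi
  have hksq : 0 ≤ k^2 - 1 := (k_sq_gt h).le
  have hk3 : k^2 - 1 ≤ 3.634 := by nlinarith
  have hs : 0 < ss k := by linarith
  have hp : 0 < 2 * ss k - 1 := by linarith
  have hn' : (10000:ℝ) ≤ n0 := by exact_mod_cast hn
  have hn0 : (0:ℝ) < n0 := by linarith
  have ha0 : (0:ℝ) ≤ a := Nat.cast_nonneg _
  have htail := tail_ge (n0 := n0) h (by omega) a
  set τ := S0 k n0 - ∑ l ∈ Finset.range a, (yy k n0 l)^2 with hτ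
  set n : ℝ := (n0:ℝ) + a with hnd
  have hnpos : 0 < n := by linarith
  have hn1 : (n0:ℝ)+1+a = n + 1 := by rw [hnd]; ring
  rw [hn1] at htail
  set A1 := n^(2 * ss k - 1) with hA1
  have hA1pos : 0 < A1 := Real.rpow_pos_of_pos hnpos _
  have hA1' : (n+1)^(2 * ss k - 1) ≤ 1.0001 * A1 := by
    have e1 : n + 1 = n * (1 + 1/n) := by field_simp
    have hinv : 1/n ≤ 0.0001 := by
      rw [div_le_iff₀ hnpos]; linarith
    have hinv0 : 0 < 1/n := by positivity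
    have e2 : (1 + 1/n)^(2 * ss k - 1) ≤ 1 + 1/n := by
      calc (1 + 1/n)^(2 * ss k - 1) ≤ (1 + 1/n)^(1:ℝ) :=
            Real.rpow_le_rpow_of_exponent_le (by linarith) (by linarith)
        _ = _ := Real.rpow_one _
    rw [e1, Real.mul_rpow hnpos.le (by linarith), ← hA1]
    nlinarith
  have hA2pos : 0 < (n+1)^(2 * ss k - 1) := Real.rpow_pos_of_pos (by linarith) _
  have hτge : 1 ≤ 1.0001 * A1 * ((2 * ss k - 1) * τ) := by
    rw [Real.rpow_neg (by linarith)] at htail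
    have h1 : ((n+1)^(2 * ss k - 1))⁻¹ * (n+1)^(2 * ss k - 1) ≤ ((2 * ss k - 1) * τ) * (n+1)^(2 * ss k - 1) :=
      mul_le_mul_of_nonneg_right htail hA2pos.le
    rw [inv_mul_cancel₀ hA2pos.ne'] at h1
    have hpos : 0 < (2 * ss k - 1) * τ := lt_of_lt_of_le (by positivity) htail
    refine le_trans h1 ?_
    rw [mul_comm]
    exact mul_le_mul_of_nonneg_right hA1' hpos.le
  have hτpos : 0 < τ := by
    by_contra hc
    push Not at hc
    have : 1.0001 * A1 * ((2 * ss k - 1) * τ) ≤ 0 := by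
      apply mul_nonpos_of_nonneg_of_nonpos (by positivity)
      exact mul_nonpos_of_nonneg_of_nonpos hp.le hc
    linarith
  refine ⟨hτpos, ?_⟩
  set V := (n0:ℝ)^(1 - ss k) with hV
  set U := n^(1 - ss k) with hU
  have hVpos : 0 < V := Real.rpow_pos_of_pos hn0 _
  have hUV : V ≤ U := Real.rpow_le_rpow hn0.le (by linarith) (by linarith)
  have hNpos : (0:ℝ) < NN k n0 := by exact_mod_cast (NN_bounds h hn).2.2
  have hNge := NN_ge h hn
  have hBB : BB (yy k n0) a ≤ (k+1) * (U - V) := by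
    have := BB_le (n0 := n0) h (Nat.zero_le a)
    have hB0 : BB (yy k n0) 0 = 0 := by simp [BB]
    rw [hB0, sub_zero, Nat.cast_zero, add_zero] at this
    exact this
  have hBB0 : 0 ≤ BB (yy k n0) a := Finset.sum_nonneg (fun j _ => (yy_pos j).le)
  have hbb := bb_le h hn
  rw [← hV] at hbb
  set ρ : ℝ := (P:ℝ) / NN k n0 with hρ
  have hPN' : (P:ℝ) ≤ NN k n0 := by exact_mod_cast hPN
  have hρ0 : 0 ≤ ρ := by positivity
  have hρ1 : ρ ≤ 1 := by rw [hρ, div_le_one hNpos]; exact hPN'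
  have hW : (P:ℝ) * (bb k n0 / NN k n0) + BB (yy k n0) a ≤ 1.0005 * ((k+1) * (U - (1-ρ)*V)) := by
    have e1 : (P:ℝ) * (bb k n0 / NN k n0) = ρ * bb k n0 := by rw [hρ]; ring
    rw [e1]
    have e2 := mul_le_mul_of_nonneg_left hbb hρ0
    have e3 : 0 ≤ (k+1) * (U - V) := mul_nonneg (by linarith) (by linarith)
    have e4 : 1.0005 * ((k+1) * (U - (1-ρ)*V)) = 1.0005 * ((k+1) * (U - V)) + ρ * (1.0005 * ((k+1) * V)) := by ring
    rw [e4]
    linarith
  have hW0 : 0 ≤ (P:ℝ) * (bb k n0 / NN k n0) + BB (yy k n0) a := by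
    have : 0 ≤ (P:ℝ) * (bb k n0 / NN k n0) :=
      mul_nonneg (Nat.cast_nonneg _) (div_nonneg bb_nonneg hNpos.le)
    linarith
  have hcore := core_ineq (n := n) (n0 := n0) (A1 := A1) (U := U) (V := V) (δ := 1 - ρ) hA1pos.le hVpos.le hUV
    (by
      rw [hA1, hU, ← Real.rpow_natCast, ← Real.rpow_mul hnpos.le, ← Real.rpow_add hnpos]
      nth_rewrite 2 [← Real.rpow_one n]
      congr 1; push_cast; ring)
    (by
      have e1 : (n0:ℝ) = (n0:ℝ)^(2 * ss k - 1) * V^2 := by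
        rw [hV, ← Real.rpow_natCast, ← Real.rpow_mul hn0.le, ← Real.rpow_add hn0]
        nth_rewrite 1 [← Real.rpow_one (n0:ℝ)]
        congr 1; push_cast; ring
      rw [e1]
      apply mul_le_mul_of_nonneg_right _ (sq_nonneg _)
      exact Real.rpow_le_rpow hn0.le (by linarith) hp.le)
    (by linarith) (by linarith)
  have hcore' : A1 * (U - (1-ρ)*V)^2 ≤ a + ρ^2 * n0 := by
    refine le_trans hcore (le_of_eq ?_)
    rw [hnd]; ring
  set X := (U - (1-ρ)*V)^2 with hX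
  have hX0 : 0 ≤ X := sq_nonneg _
  have hXle : X ≤ 1.0001 * ((2 * ss k - 1) * τ) * (a + ρ^2 * n0) := by
    have hpτ : 0 ≤ 1.0001 * ((2 * ss k - 1) * τ) := by positivity
    calc X = X * 1 := by ring
      _ ≤ X * (1.0001 * A1 * ((2 * ss k - 1) * τ)) := mul_le_mul_of_nonneg_left hτge hX0
      _ = 1.0001 * ((2 * ss k - 1) * τ) * (A1 * X) := by ring
      _ ≤ _ := mul_le_mul_of_nonneg_left hcore' hpτ
  have hWsq : ((P:ℝ) * (bb k n0 / NN k n0) + BB (yy k n0) a)^2 ≤ 1.0005^2 * ((k+1)^2 * X) := by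
    refine le_trans (pow_le_pow_left₀ hW0 hW 2) (le_of_eq ?_)
    rw [hX]; ring
  have hpm := p_mul h
  have hρP : (k^2 - 1) * (ρ^2 * n0) ≤ P := by
    have e1 : ρ^2 ≤ ρ := by
      rw [pow_two]; exact mul_le_of_le_one_right hρ0 hρ1
    have e2 : 0 ≤ (k^2 - 1) * n0 := mul_nonneg hksq hn0.le
    calc (k^2 - 1) * (ρ^2 * n0) = ((k^2 - 1) * n0) * ρ^2 := by ring
      _ ≤ ((k^2 - 1) * n0) * ρ := mul_le_mul_of_nonneg_left e1 e2
      _ ≤ NN k n0 * ρ := mul_le_mul_of_nonneg_right hNge hρ0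
      _ = P := by rw [hρ]; field_simp
  have hfin : ((P:ℝ) * (bb k n0 / NN k n0) + BB (yy k n0) a)^2
      ≤ τ * (1.0005^2 * 1.0001 * ((k^2 - 1) * a + P)) := by
    refine le_trans hWsq ?_
    have e1 : (k+1)^2 * X ≤ (k+1)^2 * (1.0001 * ((2 * ss k - 1) * τ) * (a + ρ^2 * n0)) :=
      mul_le_mul_of_nonneg_left hXle (sq_nonneg _)
    have e2 : (k+1)^2 * (1.0001 * ((2 * ss k - 1) * τ) * (a + ρ^2 * n0))
        = 1.0001 * τ * ((k^2 - 1) * a + (k^2-1) * (ρ^2 * n0)) := by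
      have e3 : (k+1)^2 * (2 * ss k - 1) = k^2 - 1 := by
        calc (k+1)^2 * (2 * ss k - 1) = (k+1) * ((2 * ss k - 1) * (k+1)) := by ring
          _ = (k+1) * (k-1) := by rw [hpm]
          _ = _ := by ring
      calc (k+1)^2 * (1.0001 * ((2 * ss k - 1) * τ) * (a + ρ^2 * n0))
          = 1.0001 * τ * (((k+1)^2 * (2 * ss k - 1)) * (a + ρ^2 * n0)) := by ring
        _ = _ := by rw [e3]; ring
    rw [e2] at e1
    have e4 : 1.0001 * τ * ((k^2 - 1) * a + (k^2-1) * (ρ^2 * n0)) ≤ 1.0001 * τ * ((k^2 - 1) * a + P) :=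
      mul_le_mul_of_nonneg_left (by linarith) (by positivity)
    have e5 := mul_le_mul_of_nonneg_left (le_trans e1 e4) (show (0:ℝ) ≤ 1.0005^2 by norm_num)
    refine le_trans e5 (le_of_eq ?_)
    ring
  refine le_trans hfin ?_
  apply mul_le_mul_of_nonneg_left _ hτpos.le
  have hP0 : (0:ℝ) ≤ P := Nat.cast_nonneg _
  have e1 : (k^2 - 1) * a ≤ 3.634 * a := mul_le_mul_of_nonneg_right hk3 ha0
  have e2 : 12 * 0.39 * ((P:ℝ) + a) ≤ lam * 0.39 * (P + a) := by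
    apply mul_le_mul_of_nonneg_right _ (by linarith)
    linarith
  have e3 : (1.0005:ℝ)^2 * 1.0001 * ((k^2 - 1) * a + P) ≤ 1.0012 * (3.634 * a + P) := by
    apply mul_le_mul (by norm_num) (by linarith) _ (by norm_num)
    have : 0 ≤ (k^2 - 1) * a := mul_nonneg hksq ha0
    linarith
  linarith

theorem gHyp (h : KHyp k) (hn : 10000 ≤ n0) : GHyp (yy k n0) 0.39 (S0 k n0) (NN k n0) (bb k n0) where
  hy := yy_hyp h n0
  pos := posHyp h hn
  sum := (summable_sq h (by omega)).hasSum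
  yB := yB_tendsto h
  y0 := y_tendsto h
  Npos := (NN_bounds h hn).2.2
  bpos := by
    have h1 := b0_le_bb h hn
    have h2 := (b0_bounds h hn).1
    have hn' : (10000:ℝ) ≤ n0 := by exact_mod_cast hn
    have hV : 0 < (n0:ℝ)^(1 - ss k) := Real.rpow_pos_of_pos (by linarith) _
    have hk := h.pos
    have : 0 < (k+1) * (n0:ℝ)^(1 - ss k) := by positivity
    linarith
  beq := bb_sq h hn
  cpos := by norm_num

end Num

end Pool.Agent.MPd42a57.Exact
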