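import Pool.Agent.MPd42a57.Gram
import Pool.Agent.MPd42a57.Defs

open Filter Topology Set

namespace Pool.Agent.MPd42a57.Exact

lemma cs2 {a1 a2 s1 s2 t1 t2 : ℝ} (hs1 : 0 ≤ s1) (hs2 : 0 ≤ s2) (ht1 : 0 ≤ t1) (ht2 : 0 ≤ t2)
    (h1 : a1^2 ≤ s1*t1) (h2 : a2^2 ≤ s2*t2) : (a1+a2)^2 ≤ (s1+s2)*(t1+t2) := by
  have h3 : (2*a1*a2)^2 ≤ (s1*t2+s2*t1)^2 := by
    have e1 : a1^2 * a2^2 ≤ (s1*t1) * (s2*t2) :=
      mul_le_mul h1 h2 (sq_nonneg _) (mul_nonneg hs1 ht1)
    nlinarith [sq_nonneg (s1*t2 - s2*t1)]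
  have h4 : 2*a1*a2 ≤ s1*t2+s2*t1 := by
    have h5 : 0 ≤ s1*t2+s2*t1 := add_nonneg (mul_nonneg hs1 ht2) (mul_nonneg hs2 ht1)
    exact (abs_le_of_sq_le_sq' h3 h5).2
  nlinarith

lemma key_real {lam c P a W τ z V1 V2 X1 X2 tot Q : ℝ} (hc : 0 < c) (hτ : 0 < τ) (hP : 0 ≤ P) (ha : 0 ≤ a)
    (hV1 : 0 ≤ V1) (hV2 : 0 ≤ V2) (hW : W^2 ≤ τ * (lam * c * (P + a) - c * P - a))
    (hc1 : X1^2 ≤ P * V1) (hc2 : X2^2 ≤ a * V2) (htot : tot ≤ X1 + X2 + |z| * W) (htot0 : 0 ≤ tot)
    (hQ : V1 + c * (V2 + z^2 * τ) ≤ Q) : tot^2 ≤ lam * (P + a) * Q := by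
  have hc2' : X2^2 ≤ (a / c) * (c * V2) := by
    refine le_trans hc2 (le_of_eq ?_)
    field_simp
  have hc3 : (|z| * W)^2 ≤ (W^2 / (c * τ)) * (c * τ * z^2) := by
    rw [mul_pow, sq_abs]
    apply le_of_eq
    field_simp
  have hcs := cs2 (by positivity) (by positivity) (by positivity) (by positivity)
    (cs2 hP (by positivity) hV1 (by positivity) hc1 hc2') hc3
  have hsq : tot^2 ≤ (P + a/c + W^2/(c*τ)) * (V1 + c*V2 + c*τ*z^2) :=
    le_trans (pow_le_pow_left₀ htot0 htot 2) hcs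
  refine le_trans hsq ?_
  have hfac : P + a/c + W^2/(c*τ) ≤ lam * (P + a) := by
    have h1 : W^2/(c*τ) ≤ (lam * c * (P + a) - c * P - a) / c := by
      rw [div_le_div_iff₀ (by positivity) hc]
      calc W^2 * c ≤ (τ * (lam * c * (P + a) - c * P - a)) * c :=
            mul_le_mul_of_nonneg_right hW hc.le
        _ = _ := by ring
    have h2 : (lam * c * (P + a) - c * P - a) / c = lam * (P + a) - P - a/c := by
      field_simp
    rw [h2] at h1
    linarith
  have hfac0 : 0 ≤ P + a/c + W^2/(c*τ) := by positivity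
  have hV : V1 + c*V2 + c*τ*z^2 ≤ Q := by
    refine le_trans (le_of_eq ?_) hQ
    ring
  have hVnn : 0 ≤ V1 + c*V2 + c*τ*z^2 := by positivity
  exact mul_le_mul hfac hV hVnn (le_trans hfac0 hfac)

section Key

variable {H : Type*} [NormedAddCommGroup H] [InnerProductSpace ℝ H]
variable {y : ℕ → ℝ} {c S : ℝ} {N T : ℕ} {β : ℝ}

/-- The numerical hypothesis. -/
def NumHyp (y : ℕ → ℝ) (c S : ℝ) (N : ℕ) (β lam : ℝ) : Prop := ∀ P a : ℕ, P ≤ N →
  0 < S - ∑ l ∈ Finset.range a, (y l)^2 ∧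
  ((P:ℝ) * (β/N) + BB y a)^2 ≤ (S - ∑ l ∈ Finset.range a, (y l)^2) * (lam * c * (P + a) - c * P - a)

theorem key_l1 (h : GHyp y c S N β) {lam : ℝ} (hnum : NumHyp y c S N β lam) {w : Fin N ⊕ Fin T → H}
    (hw : ∀ i j, inner ℝ (w i) (w j) = GM y N T β i j) (J : Finset (Fin N ⊕ Fin T)) (cf : Fin N ⊕ Fin T → ℝ) :
    (∑ i ∈ J, |cf i|)^2 ≤ lam * J.card * ‖∑ i ∈ J, cf i • w i‖^2 := by
  classical
  set u : Fin N ⊕ Fin T → ℝ := fun i => if i ∈ J then cf i else 0 with hu
  have e0 : ∑ i ∈ J, cf i • w i = ∑ i, u i • w i := by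
    rw [hu]
    simp only [ite_smul, zero_smul]
    rw [Finset.sum_ite_mem, Finset.univ_inter]
  have e0' : ∑ i ∈ J, |cf i| = ∑ i ∈ J, |u i| := by
    apply Finset.sum_congr rfl
    intro i hi
    rw [hu]; simp only; rw [if_pos hi]
  rw [e0, e0', norm_sq_comb hw]
  set G' := J.toLeft with hG'
  set A' := J.toRight with hA'
  set A : Finset ℕ := A'.map Fin.valEmbedding with hA
  have hcard : (J.card : ℝ) = G'.card + A.card := by
    rw [hA, Finset.card_map, hG', hA', ← Finset.card_toLeft_add_card_toRight (u := J)]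
    push_cast; ring
  have hJ : J = G'.disjSum A' := (Finset.toLeft_disjSum_toRight).symm
  set p : Fin N → ℝ := fun a => u (Sum.inl a) with hp
  set x : ℕ → ℝ := ext (fun j => u (Sum.inr j)) with hx
  have hp0 : ∀ a, a ∉ G' → p a = 0 := by
    intro a ha
    rw [hp, hu]; simp only
    rw [if_neg]
    intro hc
    exact ha (Finset.mem_toLeft.mpr hc)
  have hx0 : ∀ i, i ∉ A → x i = 0 := by
    intro i hi
    rw [hx]; unfold ext
    split_ifs with hiT
    · rw [hu]; simp only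
      rw [if_neg]
      intro hc
      apply hi
      rw [hA, Finset.mem_map]
      exact ⟨⟨i, hiT⟩, Finset.mem_toRight.mpr hc, rfl⟩
    · rfl
  have hsum1 : ∑ i ∈ J, |u i| = ∑ a ∈ G', |p a| + ∑ i ∈ A, |x i| := by
    conv_lhs => rw [hJ]
    rw [Finset.sum_disjSum, hA, Finset.sum_map]
    congr 1
    apply Finset.sum_congr rfl
    intro j _
    rw [hx]
    simp only [Fin.valEmbedding_apply]
    rw [ext_coe]
  set z : ℝ := (∑ a, p a) / β with hz
  have hlow := GM_lower (T := T) h u (z := z) hz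
  refine le_trans ?_ (mul_le_mul_of_nonneg_left hlow ?_)
  swap
  · -- nonnegativity of lam * card
    rcases Nat.eq_zero_or_pos J.card with h0 | hpos
    · rw [h0]; simp
    · have h1 := hnum G'.card A.card (by
        have := Finset.card_le_univ G'
        rwa [Fintype.card_fin] at this)
      have hτ := h1.1
      have h2 : 0 ≤ lam * c * ((G'.card : ℝ) + A.card) - c * G'.card - A.card := by
        by_contra hc
        push Not at hc
        have h3 := h1.2
        have h4 := mul_neg_of_pos_of_neg hτ hc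
        have h5 := sq_nonneg ((G'.card : ℝ) * (β/N) + BB y A.card)
        linarith
      have h3 : 0 ≤ lam * c * (J.card : ℝ) := by
        rw [hcard]
        have h4 : 0 ≤ c * (G'.card : ℝ) := mul_nonneg h.cpos.le (Nat.cast_nonneg _)
        have h5 : 0 ≤ (A.card : ℝ) := Nat.cast_nonneg _
        linarith
      have h4 : 0 ≤ c * (lam * J.card) := by linarith [mul_comm (lam * c) (J.card : ℝ), mul_comm c (lam * J.card),
        show lam * c * (J.card:ℝ) = c * (lam * J.card) by ring]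
      exact nonneg_of_mul_nonneg_right h4 h.cpos
  have hN : (0:ℝ) < N := by exact_mod_cast h.Npos
  have hβ := h.bpos
  have hβ2 := h.beq
  have hS := S_pos h
  have hc := h.cpos
  set P : ℝ := (G'.card : ℝ) with hP
  set a : ℝ := (A.card : ℝ) with ha
  have hP0 : 0 ≤ P := Nat.cast_nonneg _
  have ha0 : 0 ≤ a := Nat.cast_nonneg _
  have hPN : G'.card ≤ N := by
    have := Finset.card_le_univ G'
    rwa [Fintype.card_fin] at this
  have hPN' : P ≤ N := by rw [hP]; exact_mod_cast hPN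
  obtain ⟨hτ, hnumPa⟩ := hnum G'.card A.card hPN
  set τ := S - ∑ l ∈ Finset.range A.card, (y l)^2 with hτdef
  set pm : ℝ := z * (β / N) with hpm
  set V1 : ℝ := ∑ a ∈ G', (p a - pm)^2 with hV1
  set V2 : ℝ := ∑ i ∈ A, (x i + z * y i)^2 with hV2
  have hsump : ∑ a ∈ G', p a = ∑ a, p a := by
    apply Finset.sum_subset (Finset.subset_univ _)
    intro a _ hna
    exact hp0 a hna
  have hsump2 : ∑ a ∈ G', (p a)^2 = ∑ a, (p a)^2 := by
    apply Finset.sum_subset (Finset.subset_univ _)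
    intro a _ hna
    rw [hp0 a hna]; ring
  have hzβ : ∑ a, p a = z * β := by rw [hz]; field_simp
  have hV1le : V1 ≤ ∑ a, (p a)^2 - z^2 * S := by
    have e1 : V1 = ∑ a ∈ G', (p a)^2 - 2 * pm * ∑ a ∈ G', p a + P * pm^2 := by
      rw [hV1, hP, Finset.mul_sum, ← Finset.sum_sub_distrib, ← nsmul_eq_mul, ← Finset.sum_const,
        ← Finset.sum_add_distrib]
      apply Finset.sum_congr rfl
      intro a _
      ring
    have e2 : pm * (z * β) = z^2 * S := by
      rw [hpm]
      have : z * (β / N) * (z * β) = z^2 * β^2 / N := by field_simp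
      rw [this, hβ2]; field_simp
    have e3 : N * pm^2 = z^2 * S := by
      rw [hpm]
      have : (N:ℝ) * (z * (β / N))^2 = z^2 * β^2 / N := by field_simp
      rw [this, hβ2]; field_simp
    have e4 : P * pm^2 ≤ N * pm^2 := mul_le_mul_of_nonneg_right hPN' (sq_nonneg _)
    rw [e1, hsump, hsump2, hzβ]
    linarith
  have hAsub : A ⊆ Finset.range T := by
    intro i hi
    rw [hA, Finset.mem_map] at hi
    obtain ⟨j, _, rfl⟩ := hi
    exact Finset.mem_range.mpr j.2
  have hV2le : V2 + z^2 * τ ≤ ∑ i ∈ Finset.range T, (x i + z * y i)^2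
      + z^2 * (S - ∑ i ∈ Finset.range T, (y i)^2) := by
    have e1 := Finset.sum_sdiff hAsub (f := fun i => (x i + z * y i)^2)
    have e2 := Finset.sum_sdiff hAsub (f := fun i => (y i)^2)
    have e3 : ∑ i ∈ Finset.range T \ A, (x i + z * y i)^2 = z^2 * ∑ i ∈ Finset.range T \ A, (y i)^2 := by
      rw [Finset.mul_sum]
      apply Finset.sum_congr rfl
      intro i hi
      rw [Finset.mem_sdiff] at hi
      rw [hx0 i hi.2]; ring
    have e4 : ∑ i ∈ A, (y i)^2 ≤ ∑ i ∈ Finset.range A.card, (y i)^2 := by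
      apply sum_le_range
      intro i j hij
      exact pow_le_pow_left₀ (h.hy.pos j).le (y_anti h.hy hij) 2
    have e5 : z^2 * ∑ i ∈ A, (y i)^2 ≤ z^2 * ∑ i ∈ Finset.range A.card, (y i)^2 :=
      mul_le_mul_of_nonneg_left e4 (sq_nonneg _)
    rw [← e1, ← e2, e3, hV2, hτdef]
    linarith
  have hV1nn : 0 ≤ V1 := Finset.sum_nonneg (fun _ _ => sq_nonneg _)
  have hV2nn : 0 ≤ V2 := Finset.sum_nonneg (fun _ _ => sq_nonneg _)
  -- the l1 bounds
  have hl1 : ∑ a ∈ G', |p a| ≤ ∑ a ∈ G', |p a - pm| + |z| * (P * (β/N)) := by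
    have e1 : ∀ a ∈ G', |p a| ≤ |p a - pm| + |pm| := by
      intro a _
      have := abs_add_le (p a - pm) pm
      simpa using this
    refine le_trans (Finset.sum_le_sum e1) ?_
    rw [Finset.sum_add_distrib, Finset.sum_const, nsmul_eq_mul, ← hP]
    have : |pm| = |z| * (β/N) := by rw [hpm, abs_mul, abs_of_pos (div_pos hβ hN)]
    rw [this]
    linarith [show P * (|z| * (β/N)) = |z| * (P * (β/N)) by ring]
  have hl2 : ∑ i ∈ A, |x i| ≤ ∑ i ∈ A, |x i + z * y i| + |z| * BB y A.card := by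
    have e1 : ∀ i ∈ A, |x i| ≤ |x i + z * y i| + |z| * y i := by
      intro i _
      have := abs_sub (x i + z * y i) (z * y i)
      rw [add_sub_cancel_right, abs_mul z, abs_of_pos (h.hy.pos i)] at this
      exact this
    refine le_trans (Finset.sum_le_sum e1) ?_
    rw [Finset.sum_add_distrib, ← Finset.mul_sum]
    have := sum_le_range (y_anti h.hy) A
    have := mul_le_mul_of_nonneg_left this (abs_nonneg z)
    unfold BB
    linarith
  have hc1 : (∑ a ∈ G', |p a - pm|)^2 ≤ P * V1 := by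
    have := sq_sum_le_card_mul_sum_sq (s := G') (f := fun a => |p a - pm|)
    simpa only [sq_abs] using this
  have hc2 : (∑ i ∈ A, |x i + z * y i|)^2 ≤ a * V2 := by
    have := sq_sum_le_card_mul_sum_sq (s := A) (f := fun i => |x i + z * y i|)
    simpa only [sq_abs] using this
  have htot : ∑ i ∈ J, |u i| ≤ ∑ a ∈ G', |p a - pm| + ∑ i ∈ A, |x i + z * y i|
      + |z| * (P * (β/N) + BB y A.card) := by
    rw [hsum1]
    linarith [show |z| * (P * (β/N) + BB y A.card) = |z| * (P * (β/N)) + |z| * BB y A.card by ring]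
  have htot0 : 0 ≤ ∑ i ∈ J, |u i| := Finset.sum_nonneg (fun _ _ => abs_nonneg _)
  rw [hcard]
  apply key_real hc hτ hP0 ha0 hV1nn hV2nn hnumPa hc1 hc2 htot htot0
  have := mul_le_mul_of_nonneg_left hV2le hc.le
  linarith

end Key

section Crit

variable {H : Type*} [NormedAddCommGroup H] [InnerProductSpace ℝ H]

/-- The `l1` criterion. -/
def L1Crit {κ : Type*} (lam : ℝ) (W : κ → H) : Prop :=
  ∀ (J : Finset κ) (cf : κ → ℝ), (∑ i ∈ J, |cf i|)^2 ≤ lam * J.card * ‖∑ i ∈ J, cf i • W i‖^2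

theorem L1Crit.sum {ι κ : Type*} {lam : ℝ} (hlam : 1 ≤ lam) {w : ι → H} {b : κ → H} (hw : L1Crit lam w)
    (hb : Orthonormal ℝ b) (hwb : ∀ i j, inner ℝ (w i) (b j) = 0) : L1Crit lam (Sum.elim w b) := by
  classical
  intro J cf
  have hJ : J = J.toLeft.disjSum J.toRight := (Finset.toLeft_disjSum_toRight).symm
  have hcard : (J.card : ℝ) = J.toLeft.card + J.toRight.card := by
    rw [← Finset.card_toLeft_add_card_toRight (u := J)]
    push_cast; ring
  have e1 : ∑ i ∈ J, |cf i| = ∑ i ∈ J.toLeft, |cf (Sum.inl i)| + ∑ i ∈ J.toRight, |cf (Sum.inr i)| := by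
    conv_lhs => rw [hJ]
    rw [Finset.sum_disjSum]
  have e2 : ∑ i ∈ J, cf i • (Sum.elim w b) i
      = ∑ i ∈ J.toLeft, cf (Sum.inl i) • w i + ∑ i ∈ J.toRight, cf (Sum.inr i) • b i := by
    conv_lhs => rw [hJ]
    rw [Finset.sum_disjSum]
    simp
  rw [e1, e2, hcard]
  set f1 := ∑ i ∈ J.toLeft, cf (Sum.inl i) • w i with hf1
  set f2 := ∑ i ∈ J.toRight, cf (Sum.inr i) • b i with hf2
  have horth : inner ℝ f1 f2 = 0 := by
    rw [hf1, hf2, sum_inner]
    apply Finset.sum_eq_zero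
    intro i _
    rw [inner_sum]
    apply Finset.sum_eq_zero
    intro j _
    rw [inner_smul_left, inner_smul_right, hwb]; simp
  have hnorm : ‖f1 + f2‖^2 = ‖f1‖^2 + ‖f2‖^2 := by
    rw [norm_add_sq_real, horth]; ring
  rw [hnorm]
  have h1 := hw J.toLeft (fun i => cf (Sum.inl i))
  rw [← hf1] at h1
  have h2 : (∑ i ∈ J.toRight, |cf (Sum.inr i)|)^2 ≤ lam * J.toRight.card * ‖f2‖^2 := by
    have e3 : ‖f2‖^2 = ∑ i ∈ J.toRight, (cf (Sum.inr i))^2 := by
      rw [← real_inner_self_eq_norm_sq, hf2, hb.inner_sum]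
      apply Finset.sum_congr rfl
      intro i _
      simp only [conj_trivial]; ring
    have e4 := sq_sum_le_card_mul_sum_sq (s := J.toRight) (f := fun i => |cf (Sum.inr i)|)
    simp only [sq_abs] at e4
    rw [← e3] at e4
    refine le_trans e4 ?_
    have : 0 ≤ (J.toRight.card : ℝ) * ‖f2‖^2 := mul_nonneg (Nat.cast_nonneg _) (sq_nonneg _)
    nlinarith
  have hlam0 : 0 ≤ lam := by linarith
  have := cs2 (mul_nonneg hlam0 (Nat.cast_nonneg _)) (mul_nonneg hlam0 (Nat.cast_nonneg _))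
    (sq_nonneg _) (sq_nonneg _) h1 h2
  refine le_trans this (le_of_eq ?_)
  ring

theorem L1Crit.quasiOrthogonal {κ : Type*} {lam : ℝ} (hlam : 1 ≤ lam) {W : κ → H} (hW : L1Crit lam W) :
    QuasiOrthogonal lam (Set.range W) := by
  classical
  intro n g hn hg
  choose idx hidx using hg
  set J : Finset κ := Finset.univ.image idx with hJ
  have hJne : J.Nonempty := ⟨idx ⟨0, by omega⟩, by rw [hJ, Finset.mem_image]; exact ⟨_, Finset.mem_univ _, rfl⟩⟩
  have hJcard : J.card ≤ n := by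
    refine Finset.card_image_le.trans ?_
    simp
  have hn0 : (0:ℝ) < n := by exact_mod_cast (show 0 < n by omega)
  have hJn : (J.card : ℝ) ≤ n := by exact_mod_cast hJcard
  have hle : (J.card : ℝ) ≤ lam * n := by nlinarith
  have hJpos : (0:ℝ) < J.card := by exact_mod_cast hJne.card_pos
  have hrange : Set.range (fun j : Fin J.card => W (J.equivFin.symm j : κ)) = W '' (J : Set κ) := by
    ext x
    constructor
    · rintro ⟨j, rfl⟩
      exact ⟨_, (J.equivFin.symm j).2, rfl⟩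
    · rintro ⟨i, hi, rfl⟩
      exact ⟨J.equivFin ⟨i, hi⟩, by simp⟩
  refine ⟨J.card, fun j => W (J.equivFin.symm j : κ), hle, fun j => ⟨_, rfl⟩, ?_, ?_⟩
  · intro i
    rw [hrange]
    apply Submodule.subset_span
    refine ⟨idx i, ?_, hidx i⟩
    rw [Finset.mem_coe, hJ, Finset.mem_image]
    exact ⟨i, Finset.mem_univ _, rfl⟩
  · intro f hf
    rw [hrange, Submodule.mem_span_image_finset_iff_exists_fun'] at hf
    obtain ⟨cf, hcf⟩ := hf
    obtain ⟨i0, hi0, hmax⟩ := Finset.exists_max_image J (fun i => |inner ℝ f (W i)|) hJne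
    refine ⟨J.equivFin ⟨i0, hi0⟩, ?_⟩
    simp only [Equiv.symm_apply_apply]
    set m0 := |inner ℝ f (W i0)| with hm0
    have h1 : ‖f‖^2 ≤ (∑ i ∈ J, |cf i|) * m0 := by
      rw [← real_inner_self_eq_norm_sq]
      have e1 : inner ℝ f f = ∑ i ∈ J, cf i * inner ℝ f (W i) := by
        conv_lhs => rw [← hcf]
        rw [hcf, ← hcf, inner_sum]
        apply Finset.sum_congr rfl
        intro i _
        rw [inner_smul_right]
      rw [e1, Finset.sum_mul]
      apply Finset.sum_le_sum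
      intro i hi
      refine le_trans (le_abs_self _) ?_
      rw [abs_mul]
      exact mul_le_mul_of_nonneg_left (hmax i hi) (abs_nonneg _)
    have h2 := hW J cf
    rw [hcf] at h2
    have hN : (0:ℝ) < lam * n := lt_of_lt_of_le hJpos hle
    have h3 : ‖f‖^2 ≤ (lam * n) * m0^2 := by
      rcases eq_or_ne f 0 with h0 | h0
      · rw [h0, norm_zero]
        have := mul_nonneg hN.le (sq_nonneg m0)
        simpa using this
      · have hfpos : 0 < ‖f‖^2 := by
          have := norm_pos_iff.mpr h0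
          positivity
        have h4 : (‖f‖^2)^2 ≤ (lam * J.card * ‖f‖^2) * m0^2 := by
          calc (‖f‖^2)^2 ≤ ((∑ i ∈ J, |cf i|) * m0)^2 := pow_le_pow_left₀ hfpos.le h1 2
            _ = (∑ i ∈ J, |cf i|)^2 * m0^2 := by ring
            _ ≤ _ := mul_le_mul_of_nonneg_right h2 (sq_nonneg _)
        have h5 : ‖f‖^2 ≤ (lam * J.card) * m0^2 := by
          have : ‖f‖^2 * ‖f‖^2 ≤ ((lam * J.card) * m0^2) * ‖f‖^2 := by nlinarith
          exact le_of_mul_le_mul_right this hfpos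
        refine le_trans h5 ?_
        apply mul_le_mul_of_nonneg_right _ (sq_nonneg _)
        exact mul_le_mul_of_nonneg_left hJn (by linarith)
    have h6 : ((lam * n) ^ (-(1/2) : ℝ)) ^ 2 = (lam * n)⁻¹ := by
      rw [← Real.rpow_natCast, ← Real.rpow_mul hN.le]
      have : (-(1/2) : ℝ) * ((2:ℕ):ℝ) = -1 := by norm_num
      rw [this, Real.rpow_neg_one]
    apply abs_le_of_sq_le_sq' _ (abs_nonneg _) |>.2
    rw [mul_pow, h6, inv_mul_le_iff₀ hN]
    exact h3

end Crit

end Pool.Agent.MPd42a57.Exact
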