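import Pool.Agent.MPd42a57.Defs

open Filter Topology Set

namespace Pool.Agent.MPd42a57

/-! ### The scalar recursion -/

/-- `√3/4`. -/
noncomputable def hh : ℝ := Real.sqrt 3 / 4

lemma sqrt3_sq : Real.sqrt 3 * Real.sqrt 3 = 3 := Real.mul_self_sqrt (by norm_num)

lemma hh_sq : hh * hh = 3 / 16 := by
  unfold hh
  have := sqrt3_sq
  nlinarith

lemma hh_pos : 0 < hh := by unfold hh; positivity

lemma hh_le : hh ≤ 1 / 2 := by
  have := hh_sq
  nlinarith [hh_pos]

lemma hh_ge : 43 / 100 ≤ hh := by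
  by_contra hcon
  push Not at hcon
  have := hh_sq
  nlinarith [hh_pos]

lemma exists_amax (m : ℕ) (z : ℕ → ℝ) : ∃ u ∈ Finset.range (m+1), ∀ w ∈ Finset.range (m+1), z w ≤ z u :=
  Finset.exists_max_image _ _ ⟨0, by simp⟩

/-- An index of a maximal entry. -/
noncomputable def amax (m : ℕ) (z : ℕ → ℝ) : ℕ := Classical.choose (exists_amax m z)

lemma amax_le (m : ℕ) (z : ℕ → ℝ) : amax m z ≤ m := by
  have := (Classical.choose_spec (exists_amax m z)).1
  rw [Finset.mem_range] at this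
  exact Nat.lt_succ_iff.mp this

lemma le_amax (m : ℕ) (z : ℕ → ℝ) {w : ℕ} (hw : w ≤ m) : z w ≤ z (amax m z) :=
  (Classical.choose_spec (exists_amax m z)).2 w (Finset.mem_range.mpr (by omega))

/-- The state after `m` steps. -/
noncomputable def zz : ℕ → ℕ → ℝ
  | 0 => fun w => if w = 0 then 1 / 4 else 0
  | (m+1) => fun w => if w = m + 1 then hh * zz m (amax m (zz m))
      else if w = amax m (zz m) then 3 / 4 * zz m (amax m (zz m)) else zz m w

/-- The node processed at step `m + 1`. -/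
noncomputable def uu (m : ℕ) : ℕ := amax m (zz m)

/-- The threshold at step `m + 1`. -/
noncomputable def yy (m : ℕ) : ℝ := zz m (uu m)

lemma zz_succ (m w : ℕ) : zz (m+1) w = if w = m + 1 then hh * yy m
    else if w = uu m then 3 / 4 * yy m else zz m w := rfl

lemma uu_le (m : ℕ) : uu m ≤ m := amax_le _ _

lemma zz_new (m : ℕ) : zz (m+1) (m+1) = hh * yy m := by rw [zz_succ, if_pos rfl]

lemma zz_old (m : ℕ) : zz (m+1) (uu m) = 3 / 4 * yy m := by
  rw [zz_succ, if_neg (by have := uu_le m; omega), if_pos rfl]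

lemma zz_other {m w : ℕ} (h1 : w ≠ m + 1) (h2 : w ≠ uu m) : zz (m+1) w = zz m w := by
  rw [zz_succ, if_neg h1, if_neg h2]

lemma zz_zero_of_gt {m w : ℕ} (h : m < w) : zz m w = 0 := by
  induction m with
  | zero =>
    change (if w = 0 then (1/4 : ℝ) else 0) = 0
    rw [if_neg (by omega)]
  | succ m ih =>
    rw [zz_other (by omega) (by have := uu_le m; omega)]
    exact ih (by omega)

lemma zz_pos {m w : ℕ} (h : w ≤ m) : 0 < zz m w := by
  induction m generalizing w with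
  | zero =>
    have : w = 0 := by omega
    subst this
    change (0:ℝ) < (if (0:ℕ) = 0 then (1/4 : ℝ) else 0)
    norm_num
  | succ m ih =>
    have hy : 0 < yy m := ih (uu_le m)
    rw [zz_succ]
    split_ifs with h1 h2
    · exact mul_pos hh_pos hy
    · positivity
    · exact ih (by omega)

lemma yy_pos (m : ℕ) : 0 < yy m := zz_pos (uu_le m)

lemma zz_nonneg (m w : ℕ) : 0 ≤ zz m w := by
  rcases le_or_gt w m with h | h
  · exact (zz_pos h).le
  · rw [zz_zero_of_gt h]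

lemma zz_le_yy (m w : ℕ) : zz m w ≤ yy m := by
  rcases le_or_gt w m with h | h
  · exact le_amax m (zz m) h
  · rw [zz_zero_of_gt h]; exact (yy_pos m).le

lemma yy_succ_le (m : ℕ) : yy (m+1) ≤ yy m := by
  have hy := yy_pos m
  change zz (m+1) (uu (m+1)) ≤ yy m
  rw [zz_succ]
  split_ifs with h1 h2
  · nlinarith [hh_le]
  · linarith
  · exact zz_le_yy m _

lemma hh_yy_le {m w : ℕ} (h : w ≤ m) : hh * yy m ≤ zz m w := by
  induction m generalizing w with
  | zero =>
    have : w = 0 := by omega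
    subst this
    have h0 : uu 0 = 0 := by have := uu_le 0; omega
    change hh * zz 0 (uu 0) ≤ zz 0 0
    rw [h0]
    have := zz_pos (le_refl 0)
    nlinarith [hh_le]
  | succ m ih =>
    have h1 := yy_succ_le m
    have h2 := yy_pos m
    have h3 := yy_pos (m+1)
    have hhp := hh_pos
    by_cases hw : w = m + 1
    · subst hw
      rw [zz_new]
      exact mul_le_mul_of_nonneg_left h1 hhp.le
    · by_cases hw2 : w = uu m
      · subst hw2
        rw [zz_old]
        have : hh * yy (m+1) ≤ 1/2 * yy m := by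
          have := hh_le
          nlinarith
        linarith
      · rw [zz_other hw hw2]
        refine le_trans ?_ (ih (by omega))
        exact mul_le_mul_of_nonneg_left h1 hhp.le

lemma processed {j m : ℕ} (h : j < m) : 3 / 4 * yy m ≤ zz m (uu j) := by
  induction m with
  | zero => omega
  | succ m ih =>
    have h1 := yy_succ_le m
    have hne : uu j ≠ m + 1 := by have := uu_le j; omega
    by_cases hu : uu j = uu m
    · rw [hu, zz_old]
      linarith
    · rw [zz_other hne hu]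
      rcases Nat.lt_succ_iff_lt_or_eq.mp h with h2 | h2
      · have := ih h2
        linarith
      · exact absurd (by rw [h2]) hu

/-- The quasi-conserved quantity. -/
lemma energy {P : ℝ} (hkey : 1 ≤ (3/4 : ℝ) ^ P + hh ^ P) (m : ℕ) :
    (1/4 : ℝ) ^ P ≤ ∑ w ∈ Finset.range (m+1), zz m w ^ P := by
  induction m with
  | zero =>
    rw [Finset.sum_range_one]
    change (1/4 : ℝ) ^ P ≤ (if (0:ℕ) = 0 then (1/4 : ℝ) else 0) ^ P
    rw [if_pos rfl]
  | succ m ih =>
    refine ih.trans ?_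
    rw [Finset.sum_range_succ _ (m+1), zz_new]
    have hu : uu m ∈ Finset.range (m+1) := by
      rw [Finset.mem_range]; have := uu_le m; omega
    rw [← Finset.add_sum_erase _ _ hu, ← Finset.add_sum_erase _ _ hu, zz_old]
    have h1 : ∑ w ∈ (Finset.range (m+1)).erase (uu m), zz (m+1) w ^ P
        = ∑ w ∈ (Finset.range (m+1)).erase (uu m), zz m w ^ P := by
      refine Finset.sum_congr rfl (fun w hw => ?_)
      rw [Finset.mem_erase, Finset.mem_range] at hw
      rw [zz_other (by omega) hw.1]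
    rw [h1]
    have hy := yy_pos m
    rw [Real.mul_rpow (by norm_num) hy.le, Real.mul_rpow hh_pos.le hy.le]
    have h2 : zz m (uu m) ^ P = yy m ^ P := rfl
    rw [h2]
    have h3 : 0 ≤ yy m ^ P := Real.rpow_nonneg hy.le _
    nlinarith [hkey]

lemma yy_lower {P : ℝ} (hP : 0 < P) (hkey : 1 ≤ (3/4 : ℝ) ^ P + hh ^ P) (m : ℕ) :
    (1/4 : ℝ) * ((m:ℝ) + 1) ^ (-(1/P) : ℝ) ≤ yy m := by
  have hy := yy_pos m
  have hm : (0:ℝ) < (m:ℝ) + 1 := by positivity
  have h1 : (1/4 : ℝ) ^ P ≤ ((m:ℝ) + 1) * yy m ^ P := by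
    refine (energy hkey m).trans ?_
    calc ∑ w ∈ Finset.range (m+1), zz m w ^ P
        ≤ ∑ w ∈ Finset.range (m+1), yy m ^ P :=
          Finset.sum_le_sum (fun w _ => Real.rpow_le_rpow (zz_nonneg m w) (zz_le_yy m w) hP.le)
      _ = ((m:ℝ) + 1) * yy m ^ P := by
          rw [Finset.sum_const, Finset.card_range, nsmul_eq_mul]; push_cast; ring
  have h2 : ((1/4 : ℝ) * ((m:ℝ) + 1) ^ (-(1/P) : ℝ)) ^ P ≤ yy m ^ P := by
    rw [Real.mul_rpow (by norm_num) (Real.rpow_nonneg hm.le _), ← Real.rpow_mul hm.le]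
    have h3 : (-(1/P) : ℝ) * P = -1 := by field_simp
    rw [h3, Real.rpow_neg_one]
    rw [← div_eq_mul_inv, div_le_iff₀ hm]
    linarith
  exact (Real.rpow_le_rpow_iff (by positivity) hy.le hP).mp h2

/-- Lower bound for the sum of squares. -/
lemma sq_lower {P : ℝ} (hP : 0 < P) (hP2 : P ≤ 2) (hkey : 1 ≤ (3/4 : ℝ) ^ P + hh ^ P) (m : ℕ) :
    (1/16 : ℝ) * (9/64 : ℝ) * ((m:ℝ) + 1) ^ (-(2/P - 1) : ℝ)
    ≤ ∑ w ∈ Finset.range (m+1), zz m w ^ 2 := by
  have hy := yy_pos m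
  have hm : (0:ℝ) < (m:ℝ) + 1 := by positivity
  have hstep : ∀ w ∈ Finset.range (m+1),
      zz m w ^ P * (3/8 * yy m) ^ (2 - P : ℝ) ≤ zz m w ^ 2 := by
    intro w hw
    rw [Finset.mem_range] at hw
    have hz := zz_pos (show w ≤ m by omega)
    have h1 : 3/8 * yy m ≤ zz m w :=
      (mul_le_mul_of_nonneg_right (by linarith [hh_ge]) hy.le).trans (hh_yy_le (by omega))
    have h2 : (3/8 * yy m) ^ (2 - P : ℝ) ≤ zz m w ^ (2 - P : ℝ) :=
      Real.rpow_le_rpow (by positivity) h1 (by linarith)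
    calc zz m w ^ P * (3/8 * yy m) ^ (2 - P : ℝ)
        ≤ zz m w ^ P * zz m w ^ (2 - P : ℝ) :=
          mul_le_mul_of_nonneg_left h2 (Real.rpow_nonneg hz.le _)
      _ = zz m w ^ 2 := by
          rw [← Real.rpow_add hz, ← Real.rpow_natCast]
          norm_num
  have h1 := Finset.sum_le_sum hstep
  rw [← Finset.sum_mul] at h1
  refine le_trans ?_ h1
  have h2 := energy hkey m
  have h3 := yy_lower hP hkey m
  have h4 : (3/8 * ((1/4 : ℝ) * ((m:ℝ) + 1) ^ (-(1/P) : ℝ))) ^ (2 - P : ℝ)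
      ≤ (3/8 * yy m) ^ (2 - P : ℝ) :=
    Real.rpow_le_rpow (by positivity) (by linarith) (by linarith)
  refine le_trans ?_ (mul_le_mul h2 h4 (by positivity)
    (le_trans (by positivity) h2))
  rw [Real.mul_rpow (by norm_num) (by positivity), Real.mul_rpow (by norm_num) (by positivity),
    ← Real.rpow_mul hm.le]
  have e1 : (-(1/P) : ℝ) * (2 - P : ℝ) = -(2/P - 1) := by field_simp
  rw [e1]
  have e2 : (1/4 : ℝ) ^ P * (1/4 : ℝ) ^ (2 - P : ℝ) = 1/16 := by
    rw [← Real.rpow_add (by norm_num)]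
    have : P + (2 - P) = ((2:ℕ) : ℝ) := by push_cast; ring
    rw [this, Real.rpow_natCast]
    norm_num
  have e3 : (9/64 : ℝ) ≤ (3/8 : ℝ) ^ (2 - P : ℝ) := by
    calc (9/64 : ℝ) = (3/8 : ℝ) ^ ((2:ℕ) : ℝ) := by rw [Real.rpow_natCast]; norm_num
      _ ≤ (3/8 : ℝ) ^ (2 - P : ℝ) :=
        Real.rpow_le_rpow_of_exponent_ge (by norm_num) (by norm_num) (by push_cast; linarith)
  have e4 : (0:ℝ) ≤ ((m:ℝ) + 1) ^ (-(2/P - 1) : ℝ) := by positivity
  calc (1/16 : ℝ) * (9/64 : ℝ) * ((m:ℝ) + 1) ^ (-(2/P - 1) : ℝ)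
      ≤ (1/16 : ℝ) * (3/8 : ℝ) ^ (2 - P : ℝ) * ((m:ℝ) + 1) ^ (-(2/P - 1) : ℝ) := by
        gcongr
    _ = ((1/4 : ℝ) ^ P * (1/4 : ℝ) ^ (2 - P : ℝ)) * (3/8 : ℝ) ^ (2 - P : ℝ)
        * ((m:ℝ) + 1) ^ (-(2/P - 1) : ℝ) := by rw [e2]
    _ = _ := by ring

end Pool.Agent.MPd42a57
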