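import Mathlib

open Filter Topology Set

namespace Pool.Agent.MPd42a57

/-- Hypotheses on the sequence `y`: positive, strictly decreasing, `1/y` concave, non summable. -/
structure YHyp (y : ℕ → ℝ) : Prop where
  pos : ∀ j, 0 < y j
  anti : ∀ j, y (j+1) < y j
  conc : ∀ j, (y (j+2))⁻¹ - (y (j+1))⁻¹ ≤ (y (j+1))⁻¹ - (y j)⁻¹
  div : ∀ B : ℝ, ∃ n, B < ∑ j ∈ Finset.range n, y j

section Scheme

variable (y : ℕ → ℝ)

/-- Partial sums. -/
noncomputable def BB (n : ℕ) : ℝ := ∑ j ∈ Finset.range n, y j

/-- Relative decrease. -/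
noncomputable def gr (i : ℕ) : ℝ := (y i - y (i+1)) / y i

variable {y}

lemma BB_succ (n : ℕ) : BB y (n+1) = BB y n + y n := Finset.sum_range_succ _ _

lemma gr_mul (h : YHyp y) (i : ℕ) : y i * gr y i = y i - y (i+1) := by
  unfold gr; rw [mul_div_cancel₀ _ (h.pos i).ne']

lemma gr_pos (h : YHyp y) (i : ℕ) : 0 < gr y i := div_pos (by linarith [h.anti i]) (h.pos i)

lemma gr_lt_one (h : YHyp y) (i : ℕ) : gr y i < 1 := by
  unfold gr; rw [div_lt_one (h.pos i)]; linarith [h.pos (i+1)]

lemma y_anti (h : YHyp y) : Antitone y := antitone_nat_of_succ_le (fun n => (h.anti n).le)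

lemma gr_key (h : YHyp y) (i : ℕ) : gr y (i+1) ≤ gr y i * (1 - gr y (i+1)) := by
  have h0 := h.pos i
  have h1 := h.pos (i+1)
  have h2 := h.pos (i+2)
  have hc := h.conc i
  have e1 : gr y (i+1) = y (i+2) * ((y (i+2))⁻¹ - (y (i+1))⁻¹) := by
    unfold gr; rw [show i+1+1 = i+2 by ring]; field_simp
  have e2 : gr y i * (1 - gr y (i+1)) = y (i+2) * ((y (i+1))⁻¹ - (y i)⁻¹) := by
    unfold gr; rw [show i+1+1 = i+2 by ring]; field_simp; ring
  rw [e2, e1]
  exact mul_le_mul_of_nonneg_left hc h2.le

lemma gr_anti (h : YHyp y) : Antitone (gr y) := antitone_nat_of_succ_le (fun n => by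
  have h1 := gr_key h n
  have h2 := gr_pos h n
  have h3 := gr_pos h (n+1)
  nlinarith)

lemma exists_J (h : YHyp y) (i : ℕ) : ∃ J, i < J ∧ y (J+1) < gr y i * (BB y (J+1) - BB y (i+1)) := by
  have hg := gr_pos h i
  obtain ⟨n, hn⟩ := h.div (y 0 / gr y i + BB y (i+1))
  have hmono : Monotone (BB y) := monotone_nat_of_le_succ (fun n => by
    rw [BB_succ]; linarith [h.pos n])
  refine ⟨max n (i+1), by omega, ?_⟩
  have h1 : BB y n ≤ BB y (max n (i+1) + 1) := hmono (by omega)
  have h2 : y (max n (i+1) + 1) ≤ y 0 := y_anti h (Nat.zero_le _)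
  have h3 : y 0 / gr y i < BB y (max n (i+1) + 1) - BB y (i+1) := by
    unfold BB at *; linarith
  rw [div_lt_iff₀ hg] at h3
  linarith [mul_comm (gr y i) (BB y (max n (i+1) + 1) - BB y (i+1))]

open Classical in
variable (y) in
/-- The switching index. -/
noncomputable def JJ (i : ℕ) : ℕ :=
  if h : ∃ J, i < J ∧ y (J+1) < gr y i * (BB y (J+1) - BB y (i+1)) then Nat.find h else 0

lemma JJ_lt (h : YHyp y) (i : ℕ) : i < JJ y i := by
  classical
  unfold JJ; rw [dif_pos (exists_J h i)]; exact (Nat.find_spec (exists_J h i)).1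

lemma JJ_spec (h : YHyp y) (i : ℕ) : y (JJ y i + 1) < gr y i * (BB y (JJ y i + 1) - BB y (i+1)) := by
  classical
  have : JJ y i = Nat.find (exists_J h i) := by unfold JJ; rw [dif_pos (exists_J h i)]
  rw [this]; exact (Nat.find_spec (exists_J h i)).2

lemma JJ_min (h : YHyp y) (i : ℕ) {J : ℕ} (h1 : i < J) (h2 : J < JJ y i) :
    gr y i * (BB y (J+1) - BB y (i+1)) ≤ y (J+1) := by
  classical
  have : JJ y i = Nat.find (exists_J h i) := by unfold JJ; rw [dif_pos (exists_J h i)]
  rw [this] at h2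
  have := Nat.find_min (exists_J h i) h2
  push Not at this
  exact this h1

lemma JJ_le (h : YHyp y) (i : ℕ) {J : ℕ} (h1 : i < J) (h2 : J ≤ JJ y i) :
    gr y i * (BB y J - BB y (i+1)) ≤ y J := by
  obtain ⟨n, rfl⟩ := Nat.exists_eq_succ_of_ne_zero (show J ≠ 0 by omega)
  rcases Nat.lt_or_ge i n with hlt | hge
  · exact JJ_min h i hlt (by omega)
  · have : n = i := by omega
    subst this
    simp only [Nat.succ_eq_add_one, sub_self, mul_zero]
    exact (h.pos _).le

lemma JJ_strictMono (h : YHyp y) : StrictMono (JJ y) := by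
  apply strictMono_nat_of_lt_succ
  intro i
  by_contra hc
  push Not at hc
  set J := JJ y (i+1) with hJ
  have h1 : i + 1 < J := JJ_lt h (i+1)
  have h2 := JJ_spec h (i+1)
  rw [← hJ] at h2
  have h3 := JJ_le h i (show i < J by omega) hc
  have h4 := gr_key h i
  have h5 : gr y J ≤ gr y (i+1) := gr_anti h (by omega)
  have h6 : y J ≤ y (i+1) := y_anti h (by omega)
  have h7 := gr_mul h J
  have h8 := BB_succ (y := y) J
  have h9 := BB_succ (y := y) (i+1)
  have h10 := gr_pos h (i+1)
  have h11 := gr_pos h i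
  have h12 := h.pos J
  -- g_{i+1} (B(J+1) - B(i+2)) ≤ g_{i+1} (B J - B (i+1)) ≤ (1 - g_{i+1}) y J ≤ y (J+1)
  have e1 : gr y (i+1) * (BB y (J+1) - BB y (i+1+1)) ≤ gr y (i+1) * (BB y J - BB y (i+1)) := by
    apply mul_le_mul_of_nonneg_left _ h10.le
    linarith
  have e2 : gr y (i+1) * (BB y J - BB y (i+1)) ≤ (1 - gr y (i+1)) * y J := by
    have hmono : Monotone (BB y) := monotone_nat_of_le_succ (fun n => by
      rw [BB_succ]; linarith [h.pos n])
    have hB : 0 ≤ BB y J - BB y (i+1) := by linarith [hmono (show i + 1 ≤ J by omega)]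
    calc gr y (i+1) * (BB y J - BB y (i+1)) ≤ (gr y i * (1 - gr y (i+1))) * (BB y J - BB y (i+1)) :=
          mul_le_mul_of_nonneg_right h4 hB
      _ = (1 - gr y (i+1)) * (gr y i * (BB y J - BB y (i+1))) := by ring
      _ ≤ _ := mul_le_mul_of_nonneg_left h3 (by linarith [gr_lt_one h (i+1)])
  have e3 : (1 - gr y (i+1)) * y J ≤ (1 - gr y J) * y J :=
    mul_le_mul_of_nonneg_right (by linarith) h12.le
  nlinarith

variable (y) in
/-- The value at the switching index. -/
noncomputable def th (i : ℕ) : ℝ := (y (JJ y i + 1) - gr y i * (BB y (JJ y i) - BB y (i+1))) / y (JJ y i)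

lemma th_mul (h : YHyp y) (i : ℕ) :
    y (JJ y i) * th y i = y (JJ y i + 1) - gr y i * (BB y (JJ y i) - BB y (i+1)) := by
  unfold th; rw [mul_div_cancel₀ _ (h.pos _).ne']

lemma th_lt (h : YHyp y) (i : ℕ) : th y i < gr y i := by
  have h1 := JJ_spec h i
  have h2 := th_mul h i
  have h3 := h.pos (JJ y i)
  rw [BB_succ] at h1
  by_contra hc
  push Not at hc
  nlinarith

lemma le_th (h : YHyp y) (i : ℕ) : - gr y (JJ y i) ≤ th y i := by
  have h1 := JJ_le h i (JJ_lt h i) le_rfl
  have h2 := th_mul h i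
  have h3 := h.pos (JJ y i)
  have h4 := gr_mul h (JJ y i)
  by_contra hc
  push Not at hc
  nlinarith

variable (y) in
/-- Upper triangular entries of the Gram matrix, `i < j`. -/
noncomputable def Gm (i j : ℕ) : ℝ := if j < JJ y i then gr y i else if j = JJ y i then th y i else - gr y j

lemma Gm_le (h : YHyp y) (i j : ℕ) : Gm y i j ≤ gr y i := by
  unfold Gm
  split_ifs
  · exact le_rfl
  · exact (th_lt h i).le
  · linarith [gr_pos h i, gr_pos h j]

lemma abs_Gm_le (h : YHyp y) {i j : ℕ} (hij : i ≤ j) : |Gm y i j| ≤ gr y i := by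
  rw [abs_le]
  refine ⟨?_, Gm_le h i j⟩
  unfold Gm
  split_ifs
  · linarith [gr_pos h i]
  · have := le_th h i
    have h2 : gr y (JJ y i) ≤ gr y i := gr_anti h (JJ_lt h i).le
    linarith
  · linarith [gr_anti h hij]

variable (y) in
/-- `S i m`: minus the inner product of the residual after `m` steps with the element `i < m`. -/
noncomputable def SS (i m : ℕ) : ℝ := ∑ l ∈ Finset.Ico (i+1) m, y l * Gm y i l

lemma SS_succ {i m : ℕ} (hm : i < m) : SS y i (m+1) = SS y i m + y m * Gm y i m := by
  unfold SS; rw [Finset.sum_Ico_succ_top (by omega)]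

lemma SS_self (i : ℕ) : SS y i (i+1) = 0 := by unfold SS; simp

lemma SS_near (h : YHyp y) {i m : ℕ} (hm : i < m) (hJ : m ≤ JJ y i) :
    SS y i m = gr y i * (BB y m - BB y (i+1)) := by
  induction m with
  | zero => omega
  | succ n ih =>
    rcases Nat.lt_or_ge i n with hlt | hge
    · rw [SS_succ hlt, ih hlt (by omega), BB_succ (y := y) n]
      have : Gm y i n = gr y i := by unfold Gm; rw [if_pos (by omega)]
      rw [this]; ring
    · have : n = i := by omega
      subst this
      rw [SS_self]; ring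

lemma SS_far (h : YHyp y) {i m : ℕ} (hm : JJ y i < m) : SS y i m = y m := by
  induction m with
  | zero => omega
  | succ n ih =>
    have hJ := JJ_lt h i
    rcases Nat.lt_or_ge (JJ y i) n with hlt | hge
    · rw [SS_succ (by omega), ih hlt]
      have : Gm y i n = - gr y n := by unfold Gm; rw [if_neg (by omega), if_neg (by omega)]
      rw [this]
      linarith [gr_mul h n]
    · have : n = JJ y i := by omega
      subst this
      rw [SS_succ hJ, SS_near h hJ le_rfl]
      have : Gm y i (JJ y i) = th y i := by unfold Gm; rw [if_neg (by omega), if_pos rfl]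
      rw [this, th_mul h]; ring

lemma SS_nonneg (h : YHyp y) {i m : ℕ} (hm : i < m) : 0 ≤ SS y i m := by
  rcases Nat.lt_or_ge (JJ y i) m with hlt | hge
  · rw [SS_far h hlt]; exact (h.pos m).le
  · rw [SS_near h hm hge]
    have hmono : Monotone (BB y) := monotone_nat_of_le_succ (fun n => by
      rw [BB_succ]; linarith [h.pos n])
    exact mul_nonneg (gr_pos h i).le (by linarith [hmono (show i + 1 ≤ m by omega)])

lemma SS_le (h : YHyp y) {i m : ℕ} (hm : i < m) : SS y i m ≤ y m := by
  rcases Nat.lt_or_ge (JJ y i) m with hlt | hge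
  · rw [SS_far h hlt]
  · rw [SS_near h hm hge]; exact JJ_le h i hm hge

variable (y) in
/-- The inner product of the residual after `m` steps with the element `j ≥ m`. -/
noncomputable def FF (m j : ℕ) : ℝ := y j + ∑ l ∈ Finset.Ico m j, y l * Gm y l j

lemma FF_self (j : ℕ) : FF y j j = y j := by unfold FF; simp

lemma FF_succ {m j : ℕ} (hm : m < j) : FF y m j = FF y (m+1) j + y m * Gm y m j := by
  unfold FF; rw [Finset.sum_eq_sum_Ico_succ_bot hm]; ring

lemma FF_le (h : YHyp y) {m j : ℕ} (hm : m ≤ j) : FF y m j ≤ y m := by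
  induction hd : j - m generalizing m with
  | zero =>
    have : m = j := by omega
    subst this; rw [FF_self]
  | succ n ih =>
    rw [FF_succ (by omega)]
    have h1 := ih (m := m+1) (by omega) (by omega)
    have h2 := Gm_le h m j
    have h3 := gr_mul h m
    have h4 := mul_le_mul_of_nonneg_left h2 (h.pos m).le
    linarith

/-- `F` in the region where all elements are in the near range. -/
lemma FF_near (h : YHyp y) {m j : ℕ} (hm : m ≤ j) (hJ : ∀ l, m ≤ l → l < j → j < JJ y l) : FF y m j = y m := by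
  induction hd : j - m generalizing m with
  | zero =>
    have : m = j := by omega
    subst this; rw [FF_self]
  | succ n ih =>
    rw [FF_succ (by omega), ih (m := m+1) (by omega) (fun l hl => hJ l (by omega)) (by omega)]
    have : Gm y m j = gr y m := by unfold Gm; rw [if_pos (hJ m le_rfl (by omega))]
    rw [this]
    linarith [gr_mul h m]

/-- `F` in the region where all elements are in the far range. -/
lemma FF_far {m j : ℕ} (hm : m ≤ j) (hJ : ∀ l < m, JJ y l < j) :
    FF y 0 j = FF y m j - gr y j * BB y m := by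
  induction m with
  | zero => simp [BB]
  | succ n ih =>
    rw [ih (by omega) (fun l hl => hJ l (by omega)), FF_succ (by omega), BB_succ]
    have : Gm y n j = - gr y j := by
      have := hJ n (by omega)
      unfold Gm; rw [if_neg (by omega), if_neg (by omega)]
    rw [this]; ring

lemma exists_ll (h : YHyp y) (j : ℕ) : ∃ l1 l2, l1 ≤ l2 ∧ l2 ≤ j ∧ (∀ l < l1, JJ y l < j) ∧
    j ≤ JJ y l1 ∧ (∀ l < l2, JJ y l ≤ j) ∧ j < JJ y l2 ∧
    FF y 0 j ≤ y l1 - gr y j * BB y l1 ∧ y l2 - gr y j * BB y l2 ≤ FF y 0 j := by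
  classical
  have hm := JJ_strictMono h
  have ex1 : ∃ l, j ≤ JJ y l := ⟨j, (JJ_lt h j).le⟩
  have ex2 : ∃ l, j < JJ y l := ⟨j, JJ_lt h j⟩
  set l1 := Nat.find ex1 with hl1
  set l2 := Nat.find ex2 with hl2
  have a1 : ∀ l < l1, JJ y l < j := fun l hl => not_le.mp (Nat.find_min ex1 hl)
  have a2 : j ≤ JJ y l1 := Nat.find_spec ex1
  have b1 : ∀ l < l2, JJ y l ≤ j := fun l hl => not_lt.mp (Nat.find_min ex2 hl)
  have b2 : j < JJ y l2 := Nat.find_spec ex2
  have c1 : l1 ≤ l2 := Nat.find_min' ex1 b2.le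
  have c2 : l2 ≤ j := Nat.find_min' ex2 (JJ_lt h j)
  have near : FF y l2 j = y l2 := FF_near h c2 (fun l hl _ => lt_of_lt_of_le b2 (hm.monotone hl))
  have far := FF_far (y := y) (m := l1) (j := j) (by omega) a1
  refine ⟨l1, l2, c1, c2, a1, a2, b1, b2, ?_, ?_⟩
  · rw [far]; linarith [FF_le h (show l1 ≤ j by omega)]
  · rcases c1.eq_or_lt with heq | hlt
    · rw [far, heq, near]
    · -- the boundary element
      have hJ1 : JJ y l1 = j := le_antisymm (b1 l1 hlt) a2
      have hl2' : l2 = l1 + 1 := by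
        have : l2 ≤ l1 + 1 := by
          apply Nat.find_min' ex2
          have := hm (Nat.lt_succ_self l1)
          rw [hJ1] at this
          exact this
        omega
      rw [far, FF_succ (show l1 < j by omega), ← hl2', near]
      have e1 : Gm y l1 j = th y l1 := by unfold Gm; rw [if_neg (by omega), if_pos hJ1.symm]
      have e2 := le_th h l1
      rw [hJ1] at e2
      have e3 : BB y l2 = BB y l1 + y l1 := by rw [hl2', BB_succ]
      have e4 := mul_le_mul_of_nonneg_left e2 (h.pos l1).le
      rw [e1, e3]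
      linarith

lemma FF_nonneg (h : YHyp y) {m j : ℕ} (hm : m ≤ j) (h0 : 0 ≤ FF y 0 j) : 0 ≤ FF y m j := by
  have hmo := JJ_strictMono h
  rcases Nat.lt_or_ge j (JJ y m) with hlt | hge
  · rw [FF_near h hm (fun l hl _ => lt_of_lt_of_le hlt (hmo.monotone hl))]
    exact (h.pos m).le
  · have := FF_far (y := y) hm (fun l hl => lt_of_lt_of_le (hmo hl) hge)
    have hB : 0 ≤ BB y m := Finset.sum_nonneg (fun j _ => (h.pos j).le)
    have := mul_nonneg (gr_pos h j).le hB
    linarith

lemma sum_y_FF (m : ℕ) : ∑ l ∈ Finset.range m, y l * FF y 0 l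
    = ∑ l ∈ Finset.range m, (y l)^2 + ∑ i ∈ Finset.range m, y i * SS y i m := by
  induction m with
  | zero => simp
  | succ n ih =>
    rw [Finset.sum_range_succ, ih, Finset.sum_range_succ (fun l => (y l)^2),
      Finset.sum_range_succ (fun i => y i * SS y i (n+1)), SS_self]
    have e1 : ∑ i ∈ Finset.range n, y i * SS y i (n+1)
        = ∑ i ∈ Finset.range n, y i * SS y i n + y n * ∑ i ∈ Finset.range n, y i * Gm y i n := by
      rw [Finset.mul_sum, ← Finset.sum_add_distrib]
      apply Finset.sum_congr rfl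
      intro i hi
      rw [Finset.mem_range] at hi
      rw [SS_succ hi]; ring
    have e2 : FF y 0 n = y n + ∑ i ∈ Finset.range n, y i * Gm y i n := by
      unfold FF; rw [Nat.Ico_zero_eq_range]
    rw [e1, e2]; ring

variable (y) in
/-- The symmetric Gram matrix. -/
noncomputable def GG (i j : ℕ) : ℝ := if i = j then 1 else if i < j then Gm y i j else Gm y j i

lemma GG_symm (i j : ℕ) : GG y i j = GG y j i := by
  unfold GG
  rcases lt_trichotomy i j with h | h | h
  · rw [if_neg (by omega), if_pos h, if_neg (by omega), if_neg (by omega)]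
  · subst h; rfl
  · rw [if_neg (by omega), if_neg (by omega), if_neg (by omega), if_pos h]

lemma row_sum {i T : ℕ} (hi : i < T) : ∑ j ∈ Finset.range T, y j * GG y i j = FF y 0 i + SS y i T := by
  rw [← Finset.sum_range_add_sum_Ico _ (show i + 1 ≤ T by omega), Finset.sum_range_succ]
  have e1 : ∑ j ∈ Finset.range i, y j * GG y i j = ∑ j ∈ Finset.range i, y j * Gm y j i := by
    apply Finset.sum_congr rfl
    intro j hj
    rw [Finset.mem_range] at hj
    unfold GG; rw [if_neg (by omega), if_neg (by omega)]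
  have e2 : ∑ j ∈ Finset.Ico (i+1) T, y j * GG y i j = SS y i T := by
    unfold SS
    apply Finset.sum_congr rfl
    intro j hj
    rw [Finset.mem_Ico] at hj
    unfold GG; rw [if_neg (by omega), if_pos (by omega)]
  rw [e1, e2]
  unfold FF GG
  rw [Nat.Ico_zero_eq_range, if_pos rfl]; ring

variable (y) in
/-- The Gram form is bounded below by `c`. -/
def PosHyp (c : ℝ) : Prop := ∀ (T : ℕ) (x : ℕ → ℝ), c * ∑ i ∈ Finset.range T, (x i)^2 ≤
  ∑ i ∈ Finset.range T, ∑ j ∈ Finset.range T, x i * x j * GG y i j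

lemma form_expand {T T' : ℕ} (hT : T ≤ T') (x : ℕ → ℝ) (z : ℝ) :
    ∑ i ∈ Finset.range T', ∑ j ∈ Finset.range T',
      ((if i < T then x i else 0) + z * y i) * ((if j < T then x j else 0) + z * y j) * GG y i j
    = ∑ i ∈ Finset.range T, ∑ j ∈ Finset.range T, x i * x j * GG y i j
      + 2 * z * ∑ i ∈ Finset.range T, x i * (FF y 0 i + SS y i T')
      + z ^ 2 * (∑ l ∈ Finset.range T', (y l)^2 + 2 * ∑ i ∈ Finset.range T', y i * SS y i T') := by
  have hres : ∀ f : ℕ → ℝ, ∑ i ∈ Finset.range T', (if i < T then x i else 0) * f i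
      = ∑ i ∈ Finset.range T, x i * f i := by
    intro f
    rw [← Finset.sum_range_add_sum_Ico _ hT]
    have e1 : ∑ i ∈ Finset.Ico T T', (if i < T then x i else 0) * f i = 0 := by
      apply Finset.sum_eq_zero
      intro i hi
      rw [Finset.mem_Ico] at hi
      rw [if_neg (by omega), zero_mul]
    rw [e1, add_zero]
    apply Finset.sum_congr rfl
    intro i hi
    rw [Finset.mem_range] at hi
    rw [if_pos hi]
  set X : ℕ → ℝ := fun i => if i < T then x i else 0 with hX
  have hres' : ∀ f : ℕ → ℝ, ∑ i ∈ Finset.range T', X i * f i = ∑ i ∈ Finset.range T, x i * f i := hres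
  have e0 : ∀ i ∈ Finset.range T', ∑ j ∈ Finset.range T', (X i + z * y i) * (X j + z * y j) * GG y i j
      = X i * (∑ j ∈ Finset.range T, x j * GG y i j) + z * (X i * (FF y 0 i + SS y i T'))
        + z * (y i * ∑ j ∈ Finset.range T, x j * GG y i j) + z ^ 2 * (y i * (FF y 0 i + SS y i T')) := by
    intro i hi
    rw [Finset.mem_range] at hi
    rw [← row_sum hi, ← hres' (fun j => GG y i j)]
    simp only [Finset.mul_sum, ← Finset.sum_add_distrib]
    apply Finset.sum_congr rfl
    intro j _
    ring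
  rw [Finset.sum_congr rfl e0]
  simp only [Finset.sum_add_distrib, ← Finset.mul_sum]
  rw [hres' (fun i => ∑ j ∈ Finset.range T, x j * GG y i j), hres' (fun i => FF y 0 i + SS y i T')]
  have e1 : ∑ i ∈ Finset.range T', y i * ∑ j ∈ Finset.range T, x j * GG y i j
      = ∑ i ∈ Finset.range T, x i * (FF y 0 i + SS y i T') := by
    simp only [Finset.mul_sum]
    rw [Finset.sum_comm]
    apply Finset.sum_congr rfl
    intro j hj
    rw [Finset.mem_range] at hj
    rw [← row_sum (show j < T' by omega), Finset.mul_sum]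
    apply Finset.sum_congr rfl
    intro i _
    rw [GG_symm i j]; ring
  have e2 : ∑ i ∈ Finset.range T', y i * (FF y 0 i + SS y i T')
      = ∑ l ∈ Finset.range T', (y l)^2 + 2 * ∑ i ∈ Finset.range T', y i * SS y i T' := by
    simp only [mul_add, Finset.sum_add_distrib]
    rw [sum_y_FF]; ring
  have e3 : ∑ i ∈ Finset.range T, x i * ∑ j ∈ Finset.range T, x j * GG y i j
      = ∑ i ∈ Finset.range T, ∑ j ∈ Finset.range T, x i * x j * GG y i j := by
    apply Finset.sum_congr rfl
    intro i _
    rw [Finset.mul_sum]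
    apply Finset.sum_congr rfl
    intro j _
    ring
  rw [e1, e2, e3]; ring

/-- The form extended by the direction of the initial vector. -/
lemma form_lower (h : YHyp y) {c : ℝ} (hc : PosHyp y c) (hs : Summable (fun j => (y j)^2))
    (hyB : Tendsto (fun m => y m * BB y m) atTop (𝓝 0)) (hy0 : Tendsto y atTop (𝓝 0))
    (T : ℕ) (x : ℕ → ℝ) (z : ℝ) :
    c * (∑ i ∈ Finset.range T, (x i + z * y i)^2 + z^2 * (∑' j, (y j)^2 - ∑ i ∈ Finset.range T, (y i)^2))
      ≤ ∑ i ∈ Finset.range T, ∑ j ∈ Finset.range T, x i * x j * GG y i j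
        + 2 * z * ∑ i ∈ Finset.range T, x i * FF y 0 i + z ^ 2 * ∑' j, (y j)^2 := by
  have hL : Tendsto (fun T' : ℕ => c * (∑ i ∈ Finset.range T, (x i + z * y i)^2
      + z^2 * (∑ i ∈ Finset.range T', (y i)^2 - ∑ i ∈ Finset.range T, (y i)^2))) atTop
      (𝓝 (c * (∑ i ∈ Finset.range T, (x i + z * y i)^2
        + z^2 * (∑' j, (y j)^2 - ∑ i ∈ Finset.range T, (y i)^2)))) := by
    have := hs.hasSum.tendsto_sum_nat
    exact (((this.sub_const _).const_mul (z^2)).const_add _).const_mul c
  have hSi : ∀ i, Tendsto (fun T' : ℕ => SS y i T') atTop (𝓝 0) := by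
    intro i
    refine squeeze_zero' ?_ ?_ hy0
    · filter_upwards [eventually_gt_atTop i] with m hm using SS_nonneg h hm
    · filter_upwards [eventually_gt_atTop i] with m hm using SS_le h hm
  have hSy : Tendsto (fun T' : ℕ => ∑ i ∈ Finset.range T', y i * SS y i T') atTop (𝓝 0) := by
    refine squeeze_zero ?_ ?_ hyB
    · intro m
      exact Finset.sum_nonneg (fun i hi => mul_nonneg (h.pos i).le (SS_nonneg h (Finset.mem_range.mp hi)))
    · intro m
      have : y m * BB y m = ∑ i ∈ Finset.range m, y i * y m := by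
        unfold BB; rw [Finset.mul_sum]; exact Finset.sum_congr rfl (fun i _ => mul_comm _ _)
      rw [this]
      exact Finset.sum_le_sum (fun i hi =>
        mul_le_mul_of_nonneg_left (SS_le h (Finset.mem_range.mp hi)) (h.pos i).le)
  have hR : Tendsto (fun T' : ℕ => ∑ i ∈ Finset.range T, ∑ j ∈ Finset.range T, x i * x j * GG y i j
      + 2 * z * ∑ i ∈ Finset.range T, x i * (FF y 0 i + SS y i T')
      + z ^ 2 * (∑ l ∈ Finset.range T', (y l)^2 + 2 * ∑ i ∈ Finset.range T', y i * SS y i T')) atTop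
      (𝓝 (∑ i ∈ Finset.range T, ∑ j ∈ Finset.range T, x i * x j * GG y i j
      + 2 * z * ∑ i ∈ Finset.range T, x i * (FF y 0 i + 0) + z ^ 2 * (∑' j, (y j)^2 + 2 * 0))) := by
    have t1 : Tendsto (fun T' : ℕ => ∑ i ∈ Finset.range T, x i * (FF y 0 i + SS y i T')) atTop
        (𝓝 (∑ i ∈ Finset.range T, x i * (FF y 0 i + 0))) :=
      tendsto_finsetSum _ (fun i _ => ((hSi i).const_add _).const_mul _)
    exact ((t1.const_mul (2 * z)).const_add _).add
      ((hs.hasSum.tendsto_sum_nat.add (hSy.const_mul 2)).const_mul (z^2))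
  have hle := le_of_tendsto_of_tendsto hL hR (by
    filter_upwards [eventually_ge_atTop T] with T' hT'
    rw [← form_expand hT']
    refine le_trans (le_of_eq ?_) (hc T' (fun i => (if i < T then x i else 0) + z * y i))
    congr 1
    rw [← Finset.sum_range_add_sum_Ico (fun i => ((if i < T then x i else 0) + z * y i)^2) hT',
      ← Finset.sum_range_add_sum_Ico (fun i => (y i)^2) hT', add_sub_cancel_left, Finset.mul_sum]
    congr 1
    · apply Finset.sum_congr rfl
      intro i hi
      rw [Finset.mem_range] at hi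
      rw [if_pos hi]
    · apply Finset.sum_congr rfl
      intro i hi
      rw [Finset.mem_Ico] at hi
      rw [if_neg (by omega)]; ring)
  simpa using hle

end Scheme

end Pool.Agent.MPd42a57
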