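import Mathlib

open Filter Topology Set MeasureTheory

namespace Pool.Agent.MPd42a57

section Pw

variable (a y b : ℕ → ℝ) (M : ℕ)

/-- Piecewise linear interpolation of the squared error as a function of `b`. -/
noncomputable def pw (t : ℝ) : ℝ := a 0 - ∑ l ∈ Finset.range M, y l * max 0 (min (t - b l) (y l))

variable {a y b M}

lemma continuous_pw : Continuous (pw a y b M) := by
  unfold pw
  fun_prop

lemma sum_sq (ha : ∀ m < M, a (m+1) = a m - (y m)^2) : ∀ l ≤ M, ∑ j ∈ Finset.range l, (y j)^2 = a 0 - a l := by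
  intro l
  induction l with
  | zero => intro _; simp
  | succ n ih =>
    intro hn
    rw [Finset.sum_range_succ, ih (by omega), ha n (by omega)]; ring

lemma b_mono (hy : ∀ m, 0 ≤ y m) (hb : ∀ m, b (m+1) = b m + y m) : Monotone b :=
  monotone_nat_of_le_succ (fun n => by rw [hb]; linarith [hy n])

lemma pw_eq (hy : ∀ m, 0 ≤ y m) (hb : ∀ m, b (m+1) = b m + y m)
    (ha : ∀ m < M, a (m+1) = a m - (y m)^2) {l : ℕ} (hl : l < M) {t : ℝ} (h1 : b l ≤ t) (h2 : t ≤ b (l+1)) :
    pw a y b M t = a l - y l * (t - b l) := by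
  unfold pw
  have hsplit : ∑ j ∈ Finset.range M, y j * max 0 (min (t - b j) (y j))
      = ∑ j ∈ Finset.range l, (y j)^2 + y l * (t - b l) := by
    rw [← Finset.sum_range_add_sum_Ico _ (show l + 1 ≤ M by omega), Finset.sum_range_succ]
    have e1 : ∑ j ∈ Finset.range l, y j * max 0 (min (t - b j) (y j)) = ∑ j ∈ Finset.range l, (y j)^2 := by
      apply Finset.sum_congr rfl
      intro j hj
      rw [Finset.mem_range] at hj
      have hbj : b (j+1) ≤ b l := b_mono hy hb (by omega)
      rw [hb] at hbj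
      rw [min_eq_right (by linarith), max_eq_right (hy j)]; ring
    have e2 : ∑ j ∈ Finset.Ico (l+1) M, y j * max 0 (min (t - b j) (y j)) = 0 := by
      apply Finset.sum_eq_zero
      intro j hj
      rw [Finset.mem_Ico] at hj
      have hbj : b (l+1) ≤ b j := b_mono hy hb (by omega)
      rw [max_eq_left]
      · ring
      · exact (min_le_left _ _).trans (by linarith)
    have e3 : max 0 (min (t - b l) (y l)) = t - b l := by
      rw [hb] at h2
      rw [min_eq_left (by linarith), max_eq_right (by linarith)]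
    rw [e1, e2, e3]; ring
  rw [hsplit, sum_sq ha l (by omega)]; ring

lemma exists_index (hb0 : b 0 = 1) {t : ℝ} (h1 : 1 ≤ t) (h2 : t < b M) : ∃ l < M, b l ≤ t ∧ t < b (l+1) := by
  classical
  have hex : ∃ l, t < b l := ⟨M, h2⟩
  have hpos : Nat.find hex ≠ 0 := by
    intro h0
    have := Nat.find_spec hex
    rw [h0, hb0] at this
    linarith
  obtain ⟨l, hl⟩ := Nat.exists_eq_succ_of_ne_zero hpos
  refine ⟨l, ?_, ?_, ?_⟩
  · have := Nat.find_min' hex h2
    omega
  · have := Nat.find_min hex (show l < Nat.find hex by omega)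
    linarith [not_lt.mp this]
  · have := Nat.find_spec hex
    rw [hl] at this
    exact this

lemma hasDerivWithinAt_pw (hy : ∀ m, 0 ≤ y m) (hb : ∀ m, b (m+1) = b m + y m)
    (ha : ∀ m < M, a (m+1) = a m - (y m)^2) {l : ℕ} (hl : l < M) {t : ℝ} (h1 : b l ≤ t) (h2 : t < b (l+1)) :
    HasDerivWithinAt (pw a y b M) (- y l) (Ici t) t := by
  have h3 : HasDerivWithinAt (fun t => a l - y l * (t - b l)) (- y l) (Ici t) t := by
    have : HasDerivAt (fun t : ℝ => a l - y l * (t - b l)) (- y l) t := by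
      have h := (((hasDerivAt_id t).sub_const (b l)).const_mul (y l)).const_sub (a l)
      simpa using h
    exact this.hasDerivWithinAt
  refine h3.congr_of_eventuallyEq ?_ (pw_eq hy hb ha hl h1 h2.le)
  have : Iio (b (l+1)) ∈ 𝓝[Ici t] t := mem_nhdsWithin_of_mem_nhds (Iio_mem_nhds h2)
  filter_upwards [this, self_mem_nhdsWithin] with x hx1 hx2
  exact pw_eq hy hb ha hl (h1.trans hx2) (le_of_lt hx1)

end Pw

end Pool.Agent.MPd42a57
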