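import Pool.Agent.MPd42a57.UpperSeq

open Filter Topology Set MeasureTheory

namespace Pool.Agent.MPd42a57

section W

/-- The hypotheses on the sequences of the greedy algorithm used for the upper bound. -/
structure SeqHyp (a y b : ℕ → ℝ) (M : ℕ) : Prop where
  hy : ∀ m, 0 ≤ y m
  hb0 : b 0 = 1
  hb : ∀ m, b (m+1) = b m + y m
  ha : ∀ m < M, a (m+1) = a m - (y m)^2
  ha0 : a 0 ≤ 1
  hpos : ∀ m ≤ M, 0 ≤ a m
  hM : ∀ l m, l ≤ m → m ≤ M → a l ≤ y l * (b m - b l) + y m * b l

variable {a y b : ℕ → ℝ} {M : ℕ}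

lemma pw_nonneg (h : SeqHyp a y b M) (t : ℝ) : 0 ≤ pw a y b M t := by
  have h1 : ∑ l ∈ Finset.range M, y l * max 0 (min (t - b l) (y l)) ≤ ∑ l ∈ Finset.range M, (y l)^2 := by
    apply Finset.sum_le_sum
    intro l _
    rw [sq]
    exact mul_le_mul_of_nonneg_left (max_le (h.hy l) (min_le_right _ _)) (h.hy l)
  rw [sum_sq h.ha M le_rfl] at h1
  unfold pw
  linarith [h.hpos M le_rfl]

lemma pw_le_one (h : SeqHyp a y b M) (t : ℝ) : pw a y b M t ≤ 1 := by
  have h1 : 0 ≤ ∑ l ∈ Finset.range M, y l * max 0 (min (t - b l) (y l)) :=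
    Finset.sum_nonneg (fun l _ => mul_nonneg (h.hy l) (le_max_left _ _))
  unfold pw
  linarith [h.ha0]

lemma one_le_b (h : SeqHyp a y b M) (m : ℕ) : 1 ≤ b m := by
  have := b_mono h.hy h.hb (Nat.zero_le m)
  rw [h.hb0] at this
  exact this

lemma pw_b (h : SeqHyp a y b M) {m : ℕ} (hm : m ≤ M) : pw a y b M (b m) = a m := by
  rcases Nat.lt_or_ge m M with hlt | hge
  · rw [pw_eq h.hy h.hb h.ha hlt le_rfl (by rw [h.hb]; linarith [h.hy m])]; ring
  · have hmM : m = M := le_antisymm hm hge
    subst hmM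
    rcases Nat.eq_zero_or_pos m with h0 | hpos
    · subst h0
      simp [pw]
    · obtain ⟨n, rfl⟩ := Nat.exists_eq_succ_of_ne_zero hpos.ne'
      rw [pw_eq h.hy h.hb h.ha (Nat.lt_succ_self n) (by rw [h.hb]; linarith [h.hy n]) le_rfl,
        h.ha n (Nat.lt_succ_self n), h.hb]
      ring

lemma delay (h : SeqHyp a y b M) {K t : ℝ} (hK : 1 ≤ K) (ht : 1 ≤ t) {l j : ℕ} (hl : l < M)
    (hj : j < M) (hl1 : b l ≤ t) (hl2 : t < b (l+1)) (hj1 : b j ≤ K * t) (hj2 : K * t < b (j+1)) :
    pw a y b M t ≤ y l * (K - 1) * t + y j * t := by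
  have hlj : l ≤ j := by
    by_contra hc
    push Not at hc
    have h1 : b (j+1) ≤ b l := b_mono h.hy h.hb (by omega)
    nlinarith
  rw [pw_eq h.hy h.hb h.ha hl hl1 hl2.le]
  have h1 := h.hM l j hlj hj.le
  have h2 := h.hy l
  have h3 := h.hy j
  nlinarith [mul_nonneg h2 (sub_nonneg.mpr hj1), mul_nonneg h3 (sub_nonneg.mpr hl1)]

/-- The integrand. -/
noncomputable def gg (a y b : ℕ → ℝ) (M : ℕ) (mu t : ℝ) : ℝ := t ^ (mu - 1) * pw a y b M t

/-- The primitive. -/
noncomputable def Phi (a y b : ℕ → ℝ) (M : ℕ) (mu x : ℝ) : ℝ := ∫ t in (1:ℝ)..x, gg a y b M mu t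

/-- The monotone quantity. -/
noncomputable def WW (a y b : ℕ → ℝ) (M : ℕ) (K mu q t : ℝ) : ℝ :=
  (K - 1) * (t ^ mu * pw a y b M t) + q * K ^ mu * (t ^ mu * pw a y b M (K * t))
    - mu * q * (Phi a y b M mu (K * t) - Phi a y b M mu t)

lemma continuous_gg {mu : ℝ} (hmu : 1 < mu) : Continuous (gg a y b M mu) := by
  unfold gg
  exact (Real.continuous_rpow_const (by linarith)).mul continuous_pw

lemma hasDerivAt_Phi {mu : ℝ} (hmu : 1 < mu) (x : ℝ) :
    HasDerivAt (Phi a y b M mu) (gg a y b M mu x) x := by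
  unfold Phi
  exact intervalIntegral.integral_hasDerivAt_right ((continuous_gg hmu).intervalIntegrable _ _)
    ((continuous_gg hmu).stronglyMeasurableAtFilter _ _) (continuous_gg hmu).continuousAt

lemma WW_deriv (h : SeqHyp a y b M) {K mu q : ℝ} (hK : 1 < K) (hmu : 1 < mu)
    (h1 : (K - 1) * mu + mu * q = 1) (h2 : q * K ^ (mu + 1) = 1) {t : ℝ} (ht : 1 ≤ t)
    (htb : K * t < b M) :
    ∃ d ≤ 0, HasDerivWithinAt (WW a y b M K mu q) d (Ici t) t := by
  have ht' : t < b M := by nlinarith
  obtain ⟨l, hl, hl1, hl2⟩ := exists_index h.hb0 ht ht'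
  obtain ⟨j, hj, hj1, hj2⟩ := exists_index h.hb0 (show 1 ≤ K * t by nlinarith) htb
  have hdl := delay h hK.le ht hl hj hl1 hl2 hj1 hj2
  have ht0 : 0 < t := by linarith
  have hK0 : 0 < K := by linarith
  have hP : 0 < t ^ (mu - 1) := Real.rpow_pos_of_pos ht0 _
  have hpm : t ^ mu = t ^ (mu - 1) * t := by
    rw [← Real.rpow_add_one ht0.ne']; ring_nf
  have hKm : K ^ mu = K ^ (mu - 1) * K := by
    rw [← Real.rpow_add_one hK0.ne']; ring_nf
  have d1 : HasDerivWithinAt (fun x : ℝ => x ^ mu) (mu * t ^ (mu - 1)) (Ici t) t := by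
    exact (Real.hasDerivAt_rpow_const (Or.inl ht0.ne')).hasDerivWithinAt
  have d2 := hasDerivWithinAt_pw h.hy h.hb h.ha hl hl1 hl2
  have d3 : HasDerivWithinAt (fun x : ℝ => K * x) K (Ici t) t := by
    have := (hasDerivAt_id t).const_mul K
    simpa using this.hasDerivWithinAt
  have d4 : HasDerivWithinAt (fun x : ℝ => pw a y b M (K * x)) (- y j * K) (Ici t) t := by
    have := (hasDerivWithinAt_pw h.hy h.hb h.ha hj hj1 hj2).comp (s := Ici t) t d3
      (fun x hx => by
        simp only [mem_Ici] at hx ⊢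
        exact mul_le_mul_of_nonneg_left hx hK0.le)
    exact this
  have d5 : HasDerivWithinAt (fun x : ℝ => Phi a y b M mu (K * x)) (gg a y b M mu (K * t) * K) (Ici t) t := by
    have := (hasDerivAt_Phi (a := a) (y := y) (b := b) (M := M) hmu (K * t)).comp_hasDerivWithinAt t d3
    exact this
  have d6 : HasDerivWithinAt (Phi a y b M mu) (gg a y b M mu t) (Ici t) t :=
    (hasDerivAt_Phi hmu t).hasDerivWithinAt
  have dW := (((d1.mul d2).const_mul (K - 1)).add ((d1.mul d4).const_mul (q * K ^ mu))).sub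
    ((d5.sub d6).const_mul (mu * q))
  refine ⟨_, ?_, dW⟩
  have hg1 : gg a y b M mu (K * t) = K ^ (mu - 1) * t ^ (mu - 1) * pw a y b M (K * t) := by
    unfold gg
    rw [Real.mul_rpow hK0.le ht0.le]
  have hg2 : gg a y b M mu t = t ^ (mu - 1) * pw a y b M t := rfl
  rw [hg1, hg2]
  have h2' : q * (K ^ (mu - 1) * K * K) = 1 := by
    have h2c := h2
    rw [Real.rpow_add_one hK0.ne', hKm] at h2c
    exact h2c
  have key : (K - 1) * (mu * t ^ (mu - 1) * pw a y b M t + t ^ mu * (- y l))
      + q * K ^ mu * (mu * t ^ (mu - 1) * pw a y b M (K * t) + t ^ mu * (- y j * K))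
      - mu * q * (K ^ (mu - 1) * t ^ (mu - 1) * pw a y b M (K * t) * K - t ^ (mu - 1) * pw a y b M t)
      = t ^ (mu - 1) * (((K - 1) * mu + mu * q) * pw a y b M t - (K - 1) * t * y l
        - (q * (K ^ (mu - 1) * K * K)) * t * y j) := by
    rw [hpm, hKm]; ring
  rw [key, h1, h2']
  have : pw a y b M t - (K - 1) * t * y l - t * y j ≤ 0 := by linarith
  nlinarith [mul_nonneg hP.le (neg_nonneg.mpr this)]

lemma continuous_WW {K mu q : ℝ} (hmu : 1 < mu) : Continuous (WW a y b M K mu q) := by
  have h1 : Continuous (Phi a y b M mu) :=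
    continuous_iff_continuousAt.mpr (fun x => (hasDerivAt_Phi hmu x).continuousAt)
  have h2 : Continuous (fun x : ℝ => x ^ mu) := Real.continuous_rpow_const (by linarith)
  have h3 : Continuous (pw a y b M) := continuous_pw
  unfold WW
  fun_prop

lemma WW_le (h : SeqHyp a y b M) {K mu q : ℝ} (hK : 1 < K) (hmu : 1 < mu)
    (h1 : (K - 1) * mu + mu * q = 1) (h2 : q * K ^ (mu + 1) = 1) {T : ℝ} (hT : 1 ≤ T)
    (hTb : K * T ≤ b M) : WW a y b M K mu q T ≤ WW a y b M K mu q 1 := by
  have hder : ∀ x ∈ Ico 1 T, ∃ d ≤ 0, HasDerivWithinAt (WW a y b M K mu q) d (Ici x) x := by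
    intro x hx
    refine WW_deriv h hK hmu h1 h2 hx.1 ?_
    have := hx.2
    nlinarith
  classical
  let f' : ℝ → ℝ := fun x => if hx : x ∈ Ico 1 T then (hder x hx).choose else 0
  have hf' : ∀ x ∈ Ico 1 T, f' x ≤ 0 ∧ HasDerivWithinAt (WW a y b M K mu q) (f' x) (Ici x) x := by
    intro x hx
    have : f' x = (hder x hx).choose := by simp only [f', dif_pos hx]
    rw [this]
    exact (hder x hx).choose_spec
  have := image_le_of_deriv_right_le_deriv_boundary (f := WW a y b M K mu q) (f' := f') (a := 1) (b := T)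
    (continuous_WW hmu).continuousOn (fun x hx => (hf' x hx).2)
    (B := fun _ => WW a y b M K mu q 1) (B' := fun _ => 0) le_rfl continuousOn_const
    (fun x _ => hasDerivWithinAt_const _ _ _) (fun x hx => (hf' x hx).1)
  exact this (right_mem_Icc.mpr hT)

/-- The quantity `t^mu a(t)` is bounded by an absolute constant. -/
lemma bdd (h : SeqHyp a y b M) {K mu q : ℝ} (hK : 1 < K) (hmu : 1 < mu) (hq : 0 < q)
    (h1 : (K - 1) * mu + mu * q = 1) (h2 : q * K ^ (mu + 1) = 1) (h3 : mu * Real.log K < 1) :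
    ∀ t ∈ Icc 1 (b M), t ^ mu * pw a y b M t ≤
      max (K ^ mu) (((K - 1) + q * K ^ mu) / (q * (1 - mu * Real.log K))) := by
  have hK0 : 0 < K := by linarith
  have hcont : ContinuousOn (fun t : ℝ => t ^ mu * pw a y b M t) (Icc 1 (b M)) :=
    ((Real.continuous_rpow_const (by linarith)).mul continuous_pw).continuousOn
  obtain ⟨x, hx, hmax⟩ := isCompact_Icc.exists_isMaxOn (nonempty_Icc.mpr (one_le_b h M)) hcont
  intro t ht
  refine (hmax ht).trans ?_
  change x ^ mu * pw a y b M x ≤ _
  rcases le_total x K with hxK | hxK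
  · refine le_trans ?_ (le_max_left _ _)
    have e1 : x ^ mu ≤ K ^ mu := Real.rpow_le_rpow (by linarith [hx.1]) hxK (by linarith)
    have e2 := pw_le_one h x
    have e3 := pw_nonneg h x
    have e4 : 0 ≤ x ^ mu := Real.rpow_nonneg (by linarith [hx.1]) _
    nlinarith
  · refine le_trans ?_ (le_max_right _ _)
    set X := x ^ mu * pw a y b M x with hX
    have hX0 : 0 ≤ X := mul_nonneg (Real.rpow_nonneg (by linarith [hx.1]) _) (pw_nonneg h x)
    set T := x / K with hT
    have hKT : K * T = x := by rw [hT]; field_simp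
    have hT1 : 1 ≤ T := by rw [hT, le_div_iff₀ hK0]; linarith
    have hT0 : 0 < T := by linarith
    have hW := WW_le h hK hmu h1 h2 hT1 (by rw [hKT]; exact hx.2)
    have hPhi : ∀ u v : ℝ, Phi a y b M mu v - Phi a y b M mu u = ∫ t in u..v, gg a y b M mu t := by
      intro u v
      unfold Phi
      exact intervalIntegral.integral_interval_sub_left ((continuous_gg hmu).intervalIntegrable _ _)
        ((continuous_gg hmu).intervalIntegrable _ _)
    have hgg0 : ∀ u : ℝ, 0 ≤ u → 0 ≤ gg a y b M mu u := fun u hu =>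
      mul_nonneg (Real.rpow_nonneg hu _) (pw_nonneg h u)
    -- lower bound at `T`
    have hlow : q * X - mu * q * (X * Real.log K) ≤ WW a y b M K mu q T := by
      have i1 : Phi a y b M mu (K * T) - Phi a y b M mu T ≤ X * Real.log K := by
        rw [hPhi]
        have hTK : T ≤ K * T := by nlinarith
        have hle : ∫ t in T..(K * T), gg a y b M mu t ≤ ∫ t in T..(K * T), X * t⁻¹ := by
          apply intervalIntegral.integral_mono_on hTK ((continuous_gg hmu).intervalIntegrable _ _)
          · apply ContinuousOn.intervalIntegrable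
            apply ContinuousOn.mul continuousOn_const
            apply continuousOn_inv₀.mono
            intro z hz
            rw [uIcc_of_le hTK] at hz
            have : 0 < z := by linarith [hz.1]
            exact this.ne'
          · intro z hz
            have hz0 : 0 < z := by linarith [hz.1]
            have hzI : z ∈ Icc 1 (b M) := ⟨by linarith [hz.1], by
              have := hz.2
              rw [hKT] at this
              exact this.trans hx.2⟩
            have e1 : z ^ mu * pw a y b M z ≤ X := hmax hzI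
            have e2 : z ^ mu = z ^ (mu - 1) * z := by
              rw [← Real.rpow_add_one hz0.ne']; ring_nf
            unfold gg
            rw [← div_eq_mul_inv, le_div_iff₀ hz0]
            rw [e2] at e1
            linarith
        refine hle.trans (le_of_eq ?_)
        rw [intervalIntegral.integral_const_mul, integral_inv]
        · congr 2
          field_simp
        · rw [uIcc_of_le hTK]
          intro hc
          linarith [hc.1]
      unfold WW
      have i2 : 0 ≤ (K - 1) * (T ^ mu * pw a y b M T) :=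
        mul_nonneg (by linarith) (mul_nonneg (Real.rpow_nonneg hT0.le _) (pw_nonneg h T))
      have i3 : q * K ^ mu * (T ^ mu * pw a y b M (K * T)) = q * X := by
        rw [hX]
        have : x ^ mu = K ^ mu * T ^ mu := by rw [← hKT, Real.mul_rpow hK0.le hT0.le]
        rw [this, hKT]; ring
      have i4 : mu * q * (Phi a y b M mu (K * T) - Phi a y b M mu T) ≤ mu * q * (X * Real.log K) :=
        mul_le_mul_of_nonneg_left i1 (by positivity)
      rw [i3]
      linarith
    have hup : WW a y b M K mu q 1 ≤ (K - 1) + q * K ^ mu := by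
      unfold WW
      have j1 : 0 ≤ Phi a y b M mu (K * 1) - Phi a y b M mu 1 := by
        rw [hPhi]
        apply intervalIntegral.integral_nonneg (by linarith)
        intro u hu
        exact hgg0 u (by linarith [hu.1])
      have j2 := pw_le_one h 1
      have j3 := pw_le_one h (K * 1)
      have j4 : 0 ≤ mu * q * (Phi a y b M mu (K * 1) - Phi a y b M mu 1) := by positivity
      rw [Real.one_rpow, one_mul, one_mul]
      have j5 : (K - 1) * pw a y b M 1 ≤ (K - 1) * 1 := mul_le_mul_of_nonneg_left j2 (by linarith)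
      have j6 : q * K ^ mu * pw a y b M (K * 1) ≤ q * K ^ mu * 1 :=
        mul_le_mul_of_nonneg_left j3 (by positivity)
      linarith
    rw [le_div_iff₀ (mul_pos hq (by linarith))]
    nlinarith [hlow, hW, hup]

end W

end Pool.Agent.MPd42a57
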